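import Pool.Agent.H75.UE.E0

/-!
# Project UE, module E2: the two kinds of types give environments

`Kd.hθ`: for `tw = false` `θ = id`. `Kd.hA` etc. are only needed if `D.NA` fails. `NA` holds if `m = 1`
(`ρ = 1`, `A i i = 2`) and if `m = 3` (`ip_r` for `simple i`: `A i (ρ i) = -1` implies `m = 2`; `ip_single`). So
if `NA` fails then `tw = true`, `m = 2`, `θ² = 1`, `θ ≠ 1` (`l = 1`). `hA`: take `a` with `θ a ≠ a`,
`e = a - θ a`. `hB`: some `w` has `d = w + θ w ≠ 0`: otherwise (`w = 1`) `2 = 0` and then `θ w = -w = w`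
for all `w`; `d` is fixed; `v = z * w / d`. `hC`: by `hB` there is `w` with `w + θ w = 1`, `t = v * w`:
`t - θ t = v w + v θ w = v`.
`kd_limit`: the conditions pass to the limit: for `tw = true` an element `t` of `K'` with
`θ^[l] t ≠ t` is the image of such an element.
-/

set_option autoImplicit false
open Matrix
universe u
namespace Pool.Agent.H75.UL

open Pool.Agent.H86.UM

variable {n : ℕ} {C : SLC n} (D : Dg C) {K : Type u} [Field K]

private theorem E2_na_or : D.NA ∨ D.m = 2 := by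
  by_cases hN : D.NA
  · exact Or.inl hN
  right
  unfold Dg.NA at hN
  push Not at hN
  obtain ⟨i, hi⟩ := hN
  have hip : C.ip (C.simple i).1 (D.r (C.simple i)).1 = -1 := by
    rw [D.r_simple, SLC.simple_val, SLC.simple_val, SLC.ip_single]
    exact hi
  have hne : D.r (C.simple i) ≠ C.simple i := by
    intro hc
    rw [hc, (C.simple i).2] at hip
    omega
  rcases D.ip_r (C.simple i) hne with h | h
  · omega
  · exact h.1

private theorem E2_true {θ : K ≃+* K} (h : Kd D true θ) :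
    (∀ t, (⇑θ)^[D.m] t = t) ∧ ∀ l, 0 < l → l < D.m → ∃ t, (⇑θ)^[l] t ≠ t := by
  unfold Kd at h
  rw [if_pos rfl] at h
  exact h

private theorem E2_false {θ : K ≃+* K} (h : Kd D false θ) : D.NA ∧ ∀ t, θ t = t := by
  unfold Kd at h
  rw [if_neg (by decide)] at h
  exact h

theorem Kd.hθ {tw : Bool} {θ : K ≃+* K} (h : Kd D tw θ) (t : K) : (⇑θ)^[D.m] t = t := by
  cases tw with
  | false => exact Function.iterate_fixed ((E2_false D h).2 t) _
  | true => exact (E2_true D h).1 t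

private theorem E2_two {tw : Bool} {θ : K ≃+* K} (h : Kd D tw θ) :
    D.NA ∨ ((∀ t, θ (θ t) = t) ∧ ∃ t, θ t ≠ t) := by
  cases tw with
  | false => exact Or.inl (E2_false D h).1
  | true =>
    rcases E2_na_or D with hN | hm
    · exact Or.inl hN
    · right
      obtain ⟨h1, h2⟩ := E2_true D h
      rw [hm] at h1 h2
      exact ⟨fun t => h1 t, h2 1 one_pos one_lt_two⟩

private theorem E2_B {θ : K ≃+* K} (h1 : ∀ t, θ (θ t) = t) (h2 : ∃ t, θ t ≠ t) (z : K)
    (hz : θ z = z) : ∃ v, v + θ v = z := by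
  obtain ⟨w, hw⟩ : ∃ w, w + θ w ≠ 0 := by
    by_contra hcon
    push Not at hcon
    have e1 : (1 : K) + 1 = 0 := by
      have := hcon 1
      rwa [map_one] at this
    obtain ⟨t, ht⟩ := h2
    apply ht
    have h3 := hcon t
    have h4 : t + t = 0 := by
      rw [← mul_one t, ← mul_add, e1, mul_zero]
    exact add_left_cancel (h3.trans h4.symm)
  have hd : θ (w + θ w) = w + θ w := by rw [map_add, h1, add_comm]
  refine ⟨z * w / (w + θ w), ?_⟩
  rw [map_div₀, map_mul, hz, hd, ← add_div, ← mul_add, mul_div_assoc, div_self hw, mul_one]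

theorem Kd.hA {tw : Bool} {θ : K ≃+* K} (h : Kd D tw θ) : D.NA ∨ ∃ e, e ≠ 0 ∧ θ e = -e := by
  rcases E2_two D h with hN | ⟨h1, a, ha⟩
  · exact Or.inl hN
  · refine Or.inr ⟨a - θ a, fun h0 => ha (sub_eq_zero.1 h0).symm, ?_⟩
    rw [map_sub, h1, neg_sub]

theorem Kd.hB {tw : Bool} {θ : K ≃+* K} (h : Kd D tw θ) :
    D.NA ∨ ∀ z, θ z = z → ∃ v, v + θ v = z := by
  rcases E2_two D h with hN | ⟨h1, h2⟩
  · exact Or.inl hN
  · exact Or.inr fun z hz => E2_B h1 h2 z hz

theorem Kd.hC {tw : Bool} {θ : K ≃+* K} (h : Kd D tw θ) :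
    D.NA ∨ ∀ v, v + θ v = 0 → ∃ t, v = t - θ t := by
  rcases E2_two D h with hN | ⟨h1, h2⟩
  · exact Or.inl hN
  · refine Or.inr fun v hv => ?_
    obtain ⟨w, hw⟩ := E2_B h1 h2 1 (map_one θ)
    refine ⟨v * w, ?_⟩
    rw [map_mul]
    have h3 : θ v = -v := (neg_eq_of_add_eq_zero_right hv).symm
    rw [h3]
    linear_combination -v * hw

theorem Kd.env {tw : Bool} {θ : K ≃+* K} (h : Kd D tw θ) (hK : Infinite K) :
    Env D θ (GU.sys C K) (D.sig θ) (pa C K) where
  inf := hK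
  sig := isSig_GU D θ
  hp := fun β t => GU.lift_x _ β t
  hθ := h.hθ
  hA := h.hA
  hB := h.hB
  hC := h.hC

private theorem E2_iter {K' : Type u} [Field K'] (θ : K ≃+* K) (θ' : K' ≃+* K') (φ : K →+* K')
    (hφ : ∀ t, φ (θ t) = θ' (φ t)) (l : ℕ) (t : K) : (⇑θ')^[l] (φ t) = φ ((⇑θ)^[l] t) := by
  induction l with
  | zero => rfl
  | succ l ih => rw [Function.iterate_succ_apply', Function.iterate_succ_apply', ih, hφ]

/-- The kind of the type passes to a union of fields. -/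
theorem Kd.limit {tw : Bool} {θ : K ≃+* K} (h : Kd D tw θ) {K' : Type u} [Field K']
    (θ' : K' ≃+* K') (φ : K →+* K') (hφ : ∀ t, φ (θ t) = θ' (φ t))
    (h1 : ∀ t', ∃ (K₁ : Type u) (_ : Field K₁) (θ₁ : K₁ ≃+* K₁) (φ₁ : K₁ →+* K') (t : K₁),
      Kd D tw θ₁ ∧ (∀ t, φ₁ (θ₁ t) = θ' (φ₁ t)) ∧ φ₁ t = t') : Kd D tw θ' := by
  cases tw with
  | false =>
    unfold Kd
    rw [if_neg (by decide)]
    refine ⟨(E2_false D h).1, fun t' => ?_⟩
    obtain ⟨K₁, _, θ₁, φ₁, t, hk, hc, rfl⟩ := h1 t'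
    rw [← hc, (E2_false D hk).2]
  | true =>
    unfold Kd
    rw [if_pos rfl]
    refine ⟨fun t' => ?_, fun l hl hlm => ?_⟩
    · obtain ⟨K₁, _, θ₁, φ₁, t, hk, hc, rfl⟩ := h1 t'
      rw [E2_iter θ₁ θ' φ₁ hc, (E2_true D hk).1]
    · obtain ⟨t, ht⟩ := (E2_true D h).2 l hl hlm
      refine ⟨φ t, fun hcon => ht ?_⟩
      rw [E2_iter θ θ' φ hφ] at hcon
      exact φ.injective hcon

end Pool.Agent.H75.UL
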