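import Pool.Agent.H75.UT.D8
import Pool.Agent.H75.UL.C1
import Pool.Agent.H86.UM.EX3

/-!
# Project UE (MP_978914_al): chains of groups of Lie type. Definitions.

* `EE D K θ`: the group generated by the fixed points of `σ` in `U⁺` and `U⁻` of the universal group.
* `Kd D tw θ`: the two kinds of types: `tw = false`: `θ = 1` and no simple root is adjacent to its image
  under `ρ` (all untwisted types); `tw = true`: `θ` has the same order as `ρ` (twisted types).
* `IsE D tw G`: `G` is a quotient of some `EE D K θ` by a central subgroup.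
* `GD D tw G`: such a presentation with an infinite field and the adjoint representation `p`.
* `tad c`: the diagonal element of the adjoint torus; `NE D θ`.
* `emap`: functoriality.
-/

set_option autoImplicit false

open Matrix

universe u

namespace Pool.Agent.H75.UL

open Pool.Agent.H86.UM

variable {n : ℕ} {C : SLC n} (D : Dg C)

/-- The group `E(K, θ)`, generated by the fixed points of `σ` in `U⁺` and in `U⁻`. -/
abbrev EE (K : Type u) [Field K] (θ : K ≃+* K) : Subgroup (GU C K) :=
  Eg (GU.sys C K) (D.sig θ)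

/-- The adjoint representation of the universal group. -/
noncomputable abbrev pa (C : SLC n) (K : Type u) [Field K] : GU C K →* GL C.Idx K :=
  GU.lift (C.adS K)

/-- The kinds of types: untwisted (`tw = false`) and twisted (`tw = true`). -/
def Kd (tw : Bool) {K : Type u} [Field K] (θ : K ≃+* K) : Prop :=
  if tw = true then (∀ t, (⇑θ)^[D.m] t = t) ∧ ∀ l, 0 < l → l < D.m → ∃ t, (⇑θ)^[l] t ≠ t
  else D.NA ∧ ∀ t, θ t = t

/-- `G` is a central quotient of a group `E(K, θ)` of the given type. -/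
def IsE (tw : Bool) (G : Type u) [Group G] : Prop :=
  ∃ (K : Type u) (_ : Field K) (θ : K ≃+* K), Kd D tw θ ∧
    ∃ f : EE D K θ →* G, Function.Surjective f ∧ f.ker ≤ Subgroup.center (EE D K θ)

/-- A presentation of `G` as a central quotient, with an infinite field. -/
structure GD (tw : Bool) (G : Type u) [Group G] where
  K : Type u
  [fK : Field K]
  θ : K ≃+* K
  kd : Kd D tw θ
  inf : Infinite K
  f : EE D K θ →* G
  surj : Function.Surjective f
  ker_le : f.ker ≤ Subgroup.center (EE D K θ)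
  p : G →* GL C.Idx K
  hp : ∀ x : EE D K θ, p (f x) = pa C K x

attribute [instance] GD.fK

variable {D}

/-- The homomorphism `Ψ` of a homomorphism `ψ : G₁ →* G₂`. -/
noncomputable def GD.Psi {tw : Bool} {G₁ G₂ : Type u} [Group G₁] [Group G₂] (X₁ : GD D tw G₁)
    (X₂ : GD D tw G₂) (ψ : G₁ →* G₂) : EE D X₁.K X₁.θ →* GL C.Idx X₂.K :=
  X₂.p.comp (ψ.comp X₁.f)

theorem GD.Psi_apply {tw : Bool} {G₁ G₂ : Type u} [Group G₁] [Group G₂] (X₁ : GD D tw G₁)
    (X₂ : GD D tw G₂) (ψ : G₁ →* G₂) (x : EE D X₁.K X₁.θ) :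
    X₁.Psi X₂ ψ x = X₂.p (ψ (X₁.f x)) := rfl

variable (D)

/-- Diagonal elements of the adjoint torus. -/
noncomputable def tad {K : Type u} [Field K] (c : Fin n → Kˣ) : GL C.Idx K where
  val := Matrix.diagonal (Sum.elim (fun _ => 1) (fun γ => ((∏ j, c j ^ γ.1 j : Kˣ) : K)))
  inv := Matrix.diagonal (Sum.elim (fun _ => 1) (fun γ => (((∏ j, c j ^ γ.1 j)⁻¹ : Kˣ) : K)))
  val_inv := by
    rw [Matrix.diagonal_mul_diagonal, ← Matrix.diagonal_one]
    congr 1
    funext a
    rcases a with i | γ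
    · simp
    · exact Units.mul_inv _
  inv_val := by
    rw [Matrix.diagonal_mul_diagonal, ← Matrix.diagonal_one]
    congr 1
    funext a
    rcases a with i | γ
    · simp
    · exact Units.inv_mul _

/-- The group generated by `E(K, θ)` (adjoint) and the diagonal elements fixed by `σ`. -/
noncomputable def NE {K : Type u} [Field K] (θ : K ≃+* K) : Subgroup (GL C.Idx K) :=
  Eg (C.adS K) (D.sgl θ) ⊔
    Subgroup.closure {A | ∃ c : Fin n → Kˣ, (∀ i, (c (D.ρ i) : K) = θ (c i)) ∧
      A = tad (C := C) c}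

theorem GU_map_sig {K K' : Type u} [Field K] [Field K'] (θ : K ≃+* K) (θ' : K' ≃+* K')
    (φ : K →+* K') (h : ∀ t, φ (θ t) = θ' (φ t)) (x : GU C K) :
    GU.map φ (D.sig θ x) = D.sig θ' (GU.map φ x) := by
  have h1 : (GU.map (C := C) φ).comp (D.sig θ) = (D.sig θ').comp (GU.map φ) := by
    apply GU.hom_ext
    intro β t
    rw [MonoidHom.comp_apply, MonoidHom.comp_apply, GU.map_x]
    have h2 := isSig_GU D θ β t
    have h3 := isSig_GU D θ' β (φ t)
    change (D.sig θ) (GU.x C K β t) = GU.x C K (D.r β) _ at h2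
    change (D.sig θ') (GU.x C K' β (φ t)) = GU.x C K' (D.r β) _ at h3
    rw [h2, h3, GU.map_x, map_mul, map_intCast, h]
  have h2 := congrArg (fun f : GU C K →* GU C K' => f x) h1
  exact h2

theorem GU_map_U {K K' : Type u} [Field K] [Field K'] (φ : K →+* K') (x : GU C K)
    (hx : x ∈ (GU.sys C K).U 1) : GU.map φ x ∈ (GU.sys C K').U 1 := by
  unfold StSys.U at hx
  induction hx using Subgroup.closure_induction with
  | mem y hy =>
    obtain ⟨β, t, hβ, rfl⟩ := hy
    change GU.map φ (GU.x C K β t) ∈ _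
    rw [GU.map_x]
    exact Subgroup.subset_closure ⟨β, φ t, hβ, rfl⟩
  | one => rw [map_one]; exact one_mem _
  | mul a b _ _ ha hb => rw [map_mul]; exact mul_mem ha hb
  | inv a _ ha => rw [map_inv]; exact inv_mem ha

theorem GU_map_Um {K K' : Type u} [Field K] [Field K'] (φ : K →+* K') (x : GU C K)
    (hx : x ∈ (GU.sys C K).Um) : GU.map φ x ∈ (GU.sys C K').Um := by
  unfold StSys.Um at hx
  induction hx using Subgroup.closure_induction with
  | mem y hy =>
    obtain ⟨β, t, hβ, rfl⟩ := hy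
    change GU.map φ (GU.x C K β t) ∈ _
    rw [GU.map_x]
    exact Subgroup.subset_closure ⟨β, φ t, hβ, rfl⟩
  | one => rw [map_one]; exact one_mem _
  | mul a b _ _ ha hb => rw [map_mul]; exact mul_mem ha hb
  | inv a _ ha => rw [map_inv]; exact inv_mem ha

theorem map_mem_EE {K K' : Type u} [Field K] [Field K'] (θ : K ≃+* K) (θ' : K' ≃+* K')
    (φ : K →+* K') (h : ∀ t, φ (θ t) = θ' (φ t)) (x : GU C K) (hx : x ∈ EE D K θ) :
    GU.map φ x ∈ EE D K' θ' := by
  have h1 : EE D K θ ≤ (EE D K' θ').comap (GU.map φ) := by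
    refine sup_le ?_ ?_
    · rintro u ⟨hu, hs⟩
      refine (le_sup_left : fixU (GU.sys C K') (D.sig θ') ≤ _) ⟨GU_map_U φ u hu, ?_⟩
      have hs' : D.sig θ u = u := hs
      change D.sig θ' (GU.map φ u) = GU.map φ u
      rw [← GU_map_sig D θ θ' φ h, hs']
    · rintro u ⟨hu, hs⟩
      refine (le_sup_right : fixUm (GU.sys C K') (D.sig θ') ≤ _) ⟨GU_map_Um φ u hu, ?_⟩
      have hs' : D.sig θ u = u := hs
      change D.sig θ' (GU.map φ u) = GU.map φ u
      rw [← GU_map_sig D θ θ' φ h, hs']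
  exact h1 hx

/-- Functoriality of `E(K, θ)`. -/
def emap {K K' : Type u} [Field K] [Field K'] (θ : K ≃+* K) (θ' : K' ≃+* K')
    (φ : K →+* K') (h : ∀ t, φ (θ t) = θ' (φ t)) : EE D K θ →* EE D K' θ' :=
  ((GU.map φ).comp (EE D K θ).subtype).codRestrict (EE D K' θ')
    (fun x => map_mem_EE D θ θ' φ h x x.2)

theorem emap_val {K K' : Type u} [Field K] [Field K'] (θ : K ≃+* K) (θ' : K' ≃+* K')
    (φ : K →+* K') (h : ∀ t, φ (θ t) = θ' (φ t)) (x : EE D K θ) :
    (emap D θ θ' φ h x : GU C K') = GU.map φ x := rfl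

theorem pa_map {K K' : Type u} [Field K] [Field K'] (φ : K →+* K') (x : GU C K) :
    pa C K' (GU.map φ x) = C.mp φ (pa C K x) := by
  have h1 : (pa C K').comp (GU.map φ) = (C.mp φ).comp (pa C K) := by
    apply GU.hom_ext
    intro β t
    rw [MonoidHom.comp_apply, MonoidHom.comp_apply, GU.map_x, GU.lift_x, GU.lift_x]
    exact (C.mp_xg φ β t).symm
  exact congrArg (fun f : GU C K →* GL C.Idx K' => f x) h1

end Pool.Agent.H75.UL
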