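import Pool.Agent.H86.UM.Env

/-!
# Project UE, module E0n: the opposite environment

`exists_om`: the matrix `ω` with `ω (inl i) (inl i) = -1`, `ω (inr (-β)) (inr β) = 1`, other entries `0`:
copy the private lemmas of UT/D7i (`D7i_om`, `D7i_om_E`, `D7i_om_F`, ...). `Env_neg`: `p' x = ω * p x * ω⁻¹`,
`S.neg.x β t = S.x (-β) t` (`neg_x`), `IsSig.neg`; the other fields are the same. `inO_neg`: `r_neg`.
-/

set_option autoImplicit false
open Matrix
universe u
namespace Pool.Agent.H75.UL

open Pool.Agent.H86.UM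

variable {n : ℕ} {C : SLC n} {D : Dg C} {k : Type*} [Field k] {θ : k ≃+* k} {H : Type*} [Group H]
  {S : StSys C k H} {s : H →* H} {p : H →* GL C.Idx k}

section
variable {F : Type*} [Field F]

/-- The matrix of the opposition involution. -/
private def E0n_om (C : SLC n) : Matrix C.Idx C.Idx ℤ := fun a b =>
  match a, b with
  | Sum.inl i, Sum.inl j => if i = j then -1 else 0
  | Sum.inr γ, Sum.inr β => if γ = -β then 1 else 0
  | Sum.inl _, Sum.inr _ => 0
  | Sum.inr _, Sum.inl _ => 0

private theorem E0n_neg_neg (β : C.Root) : - -β = β := by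
  apply SLC.Root.ext
  rw [SLC.Root.neg_val, SLC.Root.neg_val, neg_neg]

private theorem E0n_om_mul (M : Matrix C.Idx C.Idx ℤ) (a b : C.Idx) :
    (E0n_om C * M) a b = match a with
      | Sum.inl i => - M (Sum.inl i) b
      | Sum.inr γ => M (Sum.inr (-γ)) b := by
  rw [Matrix.mul_apply, Fintype.sum_sum_type]
  rcases a with i | γ
  · simp only [E0n_om, zero_mul, Finset.sum_const_zero, add_zero]
    rw [Finset.sum_eq_single i]
    · simp
    · intro j _ hj
      rw [if_neg (Ne.symm hj), zero_mul]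
    · intro h
      exact absurd (Finset.mem_univ i) h
  · simp only [E0n_om, zero_mul, Finset.sum_const_zero, zero_add]
    rw [Finset.sum_eq_single (-γ)]
    · rw [E0n_neg_neg, if_pos rfl, one_mul]
    · intro j _ hj
      rw [if_neg, zero_mul]
      intro h
      apply hj
      rw [h, E0n_neg_neg]
    · intro h
      exact absurd (Finset.mem_univ _) h

private theorem E0n_mul_om (M : Matrix C.Idx C.Idx ℤ) (a b : C.Idx) :
    (M * E0n_om C) a b = match b with
      | Sum.inl i => - M a (Sum.inl i)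
      | Sum.inr γ => M a (Sum.inr (-γ)) := by
  rw [Matrix.mul_apply, Fintype.sum_sum_type]
  rcases b with i | γ
  · simp only [E0n_om, mul_zero, Finset.sum_const_zero, add_zero]
    rw [Finset.sum_eq_single i]
    · simp
    · intro j _ hj
      rw [if_neg hj, mul_zero]
    · intro h
      exact absurd (Finset.mem_univ i) h
  · simp only [E0n_om, mul_zero, Finset.sum_const_zero, zero_add]
    rw [Finset.sum_eq_single (-γ)]
    · rw [if_pos rfl, mul_one]
    · intro j _ hj
      rw [if_neg hj, mul_zero]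
    · intro h
      exact absurd (Finset.mem_univ _) h

private theorem E0n_om_sq : E0n_om C * E0n_om C = 1 := by
  ext a b
  rw [E0n_om_mul]
  rcases a with i | γ <;> rcases b with j | β
  · simp only [E0n_om, Matrix.one_apply, Sum.inl.injEq]
    split_ifs <;> rfl
  · simp [E0n_om]
  · simp [E0n_om]
  · simp only [E0n_om, Matrix.one_apply, Sum.inr.injEq]
    have h : -γ = -β ↔ γ = β := by
      constructor
      · intro h
        rw [← E0n_neg_neg γ, h, E0n_neg_neg]
      · intro h
        rw [h]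
    simp only [h]

private theorem E0n_eps (v w : Fin n → ℤ) : C.eps (-v) (-w) = C.eps v w := by
  unfold SLC.eps SLC.hf
  rw [Matrix.mulVec_neg, neg_dotProduct, dotProduct_neg, neg_neg]

private theorem E0n_om_E (α : C.Root) : E0n_om C * C.E α = C.E (-α) * E0n_om C := by
  ext a b
  rw [E0n_om_mul, E0n_mul_om]
  rcases a with i | γ <;> rcases b with j | β
  · simp [SLC.E]
  · simp only [SLC.E, SLC.Root.neg_val, Pi.neg_apply, neg_neg]
    have h : -β.1 = α.1 ↔ β.1 = -α.1 := neg_eq_iff_eq_neg
    simp only [h]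
    split_ifs <;> simp
  · simp only [SLC.E, SLC.Root.neg_val]
    have h : -γ.1 = α.1 ↔ γ.1 = -α.1 := neg_eq_iff_eq_neg
    simp only [h]
    split_ifs
    · rw [SLC.ip_neg_right]
      ring
    · simp
  · simp only [SLC.E, SLC.Root.neg_val, E0n_eps]
    have h : -γ.1 = α.1 + β.1 ↔ γ.1 = -α.1 + -β.1 := by
      rw [neg_eq_iff_eq_neg, neg_add]
    simp only [h]

private theorem E0n_om_F (α : C.Root) : E0n_om C * C.F α = C.F (-α) * E0n_om C := by
  ext a b
  rw [E0n_om_mul, E0n_mul_om]
  rcases a with i | γ <;> rcases b with j | β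
  · simp [SLC.F]
  · simp [SLC.F]
  · simp [SLC.F]
  · simp only [SLC.F, SLC.Root.neg_val, neg_neg]
    have h : -γ.1 = α.1 ↔ γ.1 = -α.1 := neg_eq_iff_eq_neg
    have h' : -β.1 = α.1 ↔ β.1 = -α.1 := neg_eq_iff_eq_neg
    simp only [h, h']

private def E0n_O (C : SLC n) (F : Type*) [Field F] : Matrix C.Idx C.Idx F :=
  (E0n_om C).map (Int.castRingHom F)

private theorem E0n_O_sq : E0n_O C F * E0n_O C F = 1 := by
  unfold E0n_O
  rw [← Matrix.map_mul, E0n_om_sq, Matrix.map_one _ (map_zero _) (map_one _)]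

private theorem E0n_O_X (α : C.Root) (t : F) :
    E0n_O C F * C.X F α t = C.X F (-α) t * E0n_O C F := by
  have h1 : E0n_O C F * (C.E α).map (Int.cast : ℤ → F) =
      (C.E (-α)).map (Int.cast : ℤ → F) * E0n_O C F := by
    have := congrArg (fun M : Matrix C.Idx C.Idx ℤ => M.map (Int.castRingHom F)) (E0n_om_E α)
    simp only [Matrix.map_mul] at this
    exact this
  have h2 : E0n_O C F * (C.F α).map (Int.cast : ℤ → F) =
      (C.F (-α)).map (Int.cast : ℤ → F) * E0n_O C F := by
    have := congrArg (fun M : Matrix C.Idx C.Idx ℤ => M.map (Int.castRingHom F)) (E0n_om_F α)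
    simp only [Matrix.map_mul] at this
    exact this
  unfold SLC.X
  simp only [add_mul, mul_add, one_mul, mul_one, smul_mul_assoc, mul_smul_comm, h1, h2]

private noncomputable def E0n_g (C : SLC n) (F : Type*) [Field F] : GL C.Idx F where
  val := E0n_O C F
  inv := E0n_O C F
  val_inv := E0n_O_sq
  inv_val := E0n_O_sq

private theorem E0n_g_xg (α : C.Root) (t : F) :
    E0n_g C F * C.xg F α t = C.xg F (-α) t * E0n_g C F := by
  apply Units.ext
  exact E0n_O_X α t

end

theorem exists_om (C : SLC n) (F : Type*) [Field F] :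
    ∃ ω : GL C.Idx F, ∀ β t, ω * C.xg F β t * ω⁻¹ = C.xg F (-β) t :=
  ⟨E0n_g C F, fun β t => by rw [E0n_g_xg, mul_inv_cancel_right]⟩

theorem Env_neg (he : Env D θ S s p) : ∃ p' : H →* GL C.Idx k, Env D θ S.neg s p' := by
  obtain ⟨ω, hω⟩ := exists_om C k
  refine ⟨(MulAut.conj ω).toMonoidHom.comp p, he.inf, he.sig.neg, fun β t => ?_, he.hθ, he.hA,
    he.hB, he.hC⟩
  change ω * p (S.neg.x β t) * ω⁻¹ = C.xg k β t
  rw [StSys.neg_x, he.hp, hω, C.neg_neg_root]

private theorem E0n_iter (D : Dg C) (l : ℕ) (β : C.Root) : D.r^[l] (-β) = -(D.r^[l] β) := by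
  induction l with
  | zero => rfl
  | succ l ih => rw [Function.iterate_succ_apply', ih, D.r_neg, Function.iterate_succ_apply']

private theorem E0n_inO (D : Dg C) (β γ : C.Root) (h : D.inO β γ) : D.inO (-β) (-γ) := by
  rcases h with ⟨l, rfl⟩ | h
  · exact Or.inl ⟨l, (E0n_iter D l β).symm⟩
  · right
    rw [D.r_neg, SLC.Root.neg_val, SLC.Root.neg_val, SLC.Root.neg_val, h, neg_add]

theorem fixX_neg (S : StSys C k H) (s : H →* H) (β : C.Root) :
    fixX D S.neg s β = fixX D S s (-β) := by
  have h : XO D S.neg β = XO D S (-β) := by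
    unfold XO
    congr 1
    ext g
    constructor
    · rintro ⟨γ, t, hγ, rfl⟩
      exact ⟨-γ, t, E0n_inO D β γ hγ, rfl⟩
    · rintro ⟨γ, t, hγ, rfl⟩
      refine ⟨-γ, t, ?_, ?_⟩
      · have := E0n_inO D (-β) γ hγ
        rwa [C.neg_neg_root] at this
      · rw [StSys.neg_x, C.neg_neg_root]
  unfold fixX
  rw [h]

end Pool.Agent.H75.UL
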