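import Pool.Agent.H75.UE.E0

/-!
# Project UE, module E1: the adjoint representation on the unipotent fixed points

`pa C K : GU C K →* GL` maps `x_β(t)` to `xg β t`; it commutes with `σ` (`lift_sig`). It is injective on
`U 1` and on `Um`: `adS_inj`, `adS_neg_inj`, every element of `U 1` is some `lp posList t` (`exists_lp`),
`S9_lp`, `lp_congr` (for `Um` use `StSys.neg`, `neg_U`). `S9_U`: `pa (U m) ≤ U m`; conversely every
element of `(adS K).U 1` is `pa v`, `v ∈ U 1` (same coordinates), similarly for `XO` (closure induction)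
and `Um`. `pa_fixU`: if `u = pa v` is fixed by `sgl θ`, `v ∈ U 1`, then
`pa (D.sig θ v) = sgl θ u = u = pa v`, `D.sig θ v ∈ U 1` (`map_U`), so `D.sig θ v = v`. `pa_fixX`: `XO D S β ≤ U 1`
if `β` is positive (`XO_le_U`, `U_mono`), `≤ Um` if it is negative (`D.inO β γ`: `γ = r^[l] β` has the height
of `β`, `r_ht`, or `γ = β + r β`); `XO` of `adS` is the image of `XO` of `GU.sys`.
`pa_Eg`: `Eg = fixU ⊔ fixUm`, `Subgroup.map_sup`.
-/

set_option autoImplicit false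
open Matrix
universe u
namespace Pool.Agent.H75.UL

open Pool.Agent.H86.UM

variable {n : ℕ} {C : SLC n} (D : Dg C) {K : Type u} [Field K] (θ : K ≃+* K)


private theorem E1_surj_U {H : Type*} [Group H] (S : StSys C K H) (p : H →* GL C.Idx K)
    (hp : ∀ β t, p (S.x β t) = (C.adS K).x β t) (m : ℤ) (u : GL C.Idx K)
    (hu : u ∈ (C.adS K).U m) : ∃ v ∈ S.U m, p v = u := by
  have h : (C.adS K).U m ≤ (S.U m).map p := by
    unfold StSys.U
    rw [Subgroup.closure_le]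
    rintro g ⟨β, t, hβ, rfl⟩
    exact ⟨S.x β t, Subgroup.subset_closure ⟨β, t, hβ, rfl⟩, hp β t⟩
  exact h hu

private theorem E1_surj_Um {H : Type*} [Group H] (S : StSys C K H) (p : H →* GL C.Idx K)
    (hp : ∀ β t, p (S.x β t) = (C.adS K).x β t) (u : GL C.Idx K)
    (hu : u ∈ (C.adS K).Um) : ∃ v ∈ S.Um, p v = u := by
  have h : (C.adS K).Um ≤ (S.Um).map p := by
    unfold StSys.Um
    rw [Subgroup.closure_le]
    rintro g ⟨β, t, hβ, rfl⟩
    exact ⟨S.x β t, Subgroup.subset_closure ⟨β, t, hβ, rfl⟩, hp β t⟩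
  exact h hu

private theorem E1_map_U {H : Type*} [Group H] (S : StSys C K H) (p : H →* GL C.Idx K)
    (hp : ∀ β t, p (S.x β t) = (C.adS K).x β t) (m : ℤ) (u : H) (hu : u ∈ S.U m) :
    p u ∈ (C.adS K).U m := by
  have h : S.U m ≤ ((C.adS K).U m).comap p := by
    unfold StSys.U
    rw [Subgroup.closure_le]
    rintro g ⟨β, t, hβ, rfl⟩
    rw [SetLike.mem_coe, Subgroup.mem_comap, hp]
    exact Subgroup.subset_closure ⟨β, t, hβ, rfl⟩
  exact h hu

private theorem E1_map_Um {H : Type*} [Group H] (S : StSys C K H) (p : H →* GL C.Idx K)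
    (hp : ∀ β t, p (S.x β t) = (C.adS K).x β t) (u : H) (hu : u ∈ S.Um) :
    p u ∈ (C.adS K).Um := by
  have h : S.Um ≤ ((C.adS K).Um).comap p := by
    unfold StSys.Um
    rw [Subgroup.closure_le]
    rintro g ⟨β, t, hβ, rfl⟩
    rw [SetLike.mem_coe, Subgroup.mem_comap, hp]
    exact Subgroup.subset_closure ⟨β, t, hβ, rfl⟩
  exact h hu

private theorem E1_inj {H H' : Type*} [Group H] [Group H'] (S : StSys C K H) (S' : StSys C K H')
    (p : H →* H') (hp : ∀ β t, p (S.x β t) = S'.x β t) (hS : S'.Inj) (u v : H)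
    (hu : u ∈ S.U 1) (hv : v ∈ S.U 1) (h : p u = p v) : u = v := by
  obtain ⟨t, -, rfl⟩ := S.exists_lp 1 le_rfl u hu
  obtain ⟨t', -, rfl⟩ := S.exists_lp 1 le_rfl v hv
  have hlp : ∀ l t, p (S.lp l t) = S'.lp l t := by
    intro l t
    unfold StSys.lp
    rw [map_list_prod, List.map_map]
    congr 1
    apply List.map_congr_left
    intro β _
    exact hp β (t β)
  rw [hlp, hlp] at h
  apply S.lp_congr
  intro β hβ
  exact hS t t' h β ((C.mem_posList β).mp hβ)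

private theorem E1_hp (C : SLC n) (K : Type u) [Field K] (β : C.Root) (t : K) :
    pa C K ((GU.sys C K).x β t) = (C.adS K).x β t := GU.lift_x _ β t

private theorem E1_inO_neg (D : Dg C) (β γ : C.Root) (hγ : D.inO β γ) : D.inO (-β) (-γ) := by
  rcases hγ with ⟨l, rfl⟩ | hγ
  · left
    refine ⟨l, ?_⟩
    induction l with
    | zero => rfl
    | succ l ih => rw [Function.iterate_succ_apply', Function.iterate_succ_apply', ← ih, D.r_neg]
  · right
    rw [SLC.Root.neg_val, hγ, D.r_neg, SLC.Root.neg_val, SLC.Root.neg_val, neg_add]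

private theorem E1_XO_neg {H : Type*} [Group H] (D : Dg C) (S : StSys C K H) (β : C.Root) :
    XO D S.neg β = XO D S (-β) := by
  unfold XO
  congr 1
  ext g
  constructor
  · rintro ⟨γ, t, hγ, rfl⟩
    exact ⟨-γ, t, E1_inO_neg D β γ hγ, rfl⟩
  · rintro ⟨γ, t, hγ, rfl⟩
    refine ⟨-γ, t, ?_, ?_⟩
    · have := E1_inO_neg D (-β) γ hγ
      rwa [C.neg_neg_root] at this
    · rw [StSys.neg_x, C.neg_neg_root]

private theorem E1_ht_ne (β : C.Root) : 0 < ht β.1 ∨ ht β.1 < 0 := by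
  have h0 := C.root_ne_zero β
  rcases C.pos_or_neg β with h | h
  · left
    by_contra h1
    apply h0
    have h2 : ht β.1 = 0 := le_antisymm (not_lt.mp h1) (Finset.sum_nonneg fun i _ => h i)
    have h3 := (Finset.sum_eq_zero_iff_of_nonneg (fun i _ => h i)).mp h2
    funext i
    exact h3 i (Finset.mem_univ i)
  · right
    by_contra h1
    apply h0
    have h2 : ht β.1 = 0 := le_antisymm (Finset.sum_nonpos fun i _ => h i) (not_lt.mp h1)
    have h3 := (Finset.sum_eq_zero_iff_of_nonpos (fun i _ => h i)).mp h2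
    funext i
    exact h3 i (Finset.mem_univ i)

/-- `XO β` is contained in `U⁺` or in `U⁻`. -/
private theorem E1_XO_le {H : Type*} [Group H] (D : Dg C) (S : StSys C K H) (β : C.Root) :
    (C.Pos β ∧ XO D S β ≤ S.U 1) ∨ (C.Pos (-β) ∧ XO D S β ≤ S.Um) := by
  rcases E1_ht_ne β with h | h
  · left
    exact ⟨h, (XO_le_U S β h).trans (S.U_mono (by omega))⟩
  · right
    have h' : C.Pos (-β) := by
      unfold SLC.Pos
      rw [SLC.Root.neg_val, ht_neg]
      omega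
    refine ⟨h', ?_⟩
    have h1 := (XO_le_U (D := D) S.neg (-β) h').trans
      (S.neg.U_mono (m := 1) (k := ht (-β).1) (by unfold SLC.Pos at h'; omega))
    rw [E1_XO_neg, C.neg_neg_root, S.neg_U] at h1
    exact h1

theorem pa_sig (x : GU C K) : pa C K (D.sig θ x) = D.sgl θ (pa C K x) := lift_sig D θ x

theorem pa_injOn_U (u v : GU C K) (hu : u ∈ (GU.sys C K).U 1) (hv : v ∈ (GU.sys C K).U 1)
    (h : pa C K u = pa C K v) : u = v :=
  E1_inj (GU.sys C K) (C.adS K) (pa C K) (E1_hp C K) adS_inj u v hu hv h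

theorem pa_injOn_Um (u v : GU C K) (hu : u ∈ (GU.sys C K).Um) (hv : v ∈ (GU.sys C K).Um)
    (h : pa C K u = pa C K v) : u = v := by
  rw [← StSys.neg_U] at hu hv
  exact E1_inj (GU.sys C K).neg (C.adS K).neg (pa C K) (fun β t => E1_hp C K (-β) t)
    adS_neg_inj u v hu hv h

theorem pa_fixU (u : GL C.Idx K) : u ∈ fixU (C.adS K) (D.sgl θ) ↔
    ∃ v ∈ fixU (GU.sys C K) (D.sig θ), pa C K v = u := by
  constructor
  · rintro ⟨hu, hs⟩
    obtain ⟨v, hv, rfl⟩ := E1_surj_U (GU.sys C K) (pa C K) (E1_hp C K) 1 u hu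
    refine ⟨v, ⟨hv, ?_⟩, rfl⟩
    have hs' : D.sgl θ (pa C K v) = pa C K v := hs
    rw [← pa_sig] at hs'
    exact pa_injOn_U _ _ ((isSig_GU D θ).map_U 1 v hv) hv hs'
  · rintro ⟨v, ⟨hv, hs⟩, rfl⟩
    have hs' : D.sig θ v = v := hs
    refine ⟨E1_map_U (GU.sys C K) (pa C K) (E1_hp C K) 1 v hv, ?_⟩
    show D.sgl θ (pa C K v) = pa C K v
    rw [← pa_sig, hs']

theorem pa_fixUm (u : GL C.Idx K) : u ∈ fixUm (C.adS K) (D.sgl θ) ↔
    ∃ v ∈ fixUm (GU.sys C K) (D.sig θ), pa C K v = u := by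
  constructor
  · rintro ⟨hu, hs⟩
    obtain ⟨v, hv, rfl⟩ := E1_surj_Um (GU.sys C K) (pa C K) (E1_hp C K) u hu
    refine ⟨v, ⟨hv, ?_⟩, rfl⟩
    have hs' : D.sgl θ (pa C K v) = pa C K v := hs
    rw [← pa_sig] at hs'
    exact pa_injOn_Um _ _ ((isSig_GU D θ).map_Um v hv) hv hs'
  · rintro ⟨v, ⟨hv, hs⟩, rfl⟩
    have hs' : D.sig θ v = v := hs
    refine ⟨E1_map_Um (GU.sys C K) (pa C K) (E1_hp C K) v hv, ?_⟩
    show D.sgl θ (pa C K v) = pa C K v
    rw [← pa_sig, hs']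

theorem pa_fixX (β : C.Root) (u : GL C.Idx K) : u ∈ fixX D (C.adS K) (D.sgl θ) β ↔
    ∃ v ∈ fixX D (GU.sys C K) (D.sig θ) β, pa C K v = u := by
  constructor
  · rintro ⟨hu, hs⟩
    have h : XO D (C.adS K) β ≤ (XO D (GU.sys C K) β).map (pa C K) := by
      unfold XO
      rw [Subgroup.closure_le]
      rintro g ⟨γ, t, hγ, rfl⟩
      exact ⟨(GU.sys C K).x γ t, Subgroup.subset_closure ⟨γ, t, hγ, rfl⟩, E1_hp C K γ t⟩
    obtain ⟨v, hv, rfl⟩ := h hu
    refine ⟨v, ⟨hv, ?_⟩, rfl⟩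
    have hs' : D.sgl θ (pa C K v) = pa C K v := hs
    rw [← pa_sig] at hs'
    rcases E1_XO_le D (GU.sys C K) β with ⟨-, h1⟩ | ⟨-, h1⟩
    · exact pa_injOn_U _ _ ((isSig_GU D θ).map_U 1 v (h1 hv)) (h1 hv) hs'
    · exact pa_injOn_Um _ _ ((isSig_GU D θ).map_Um v (h1 hv)) (h1 hv) hs'
  · rintro ⟨v, ⟨hv, hs⟩, rfl⟩
    have hs' : D.sig θ v = v := hs
    have h : XO D (GU.sys C K) β ≤ (XO D (C.adS K) β).comap (pa C K) := by
      unfold XO
      rw [Subgroup.closure_le]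
      rintro g ⟨γ, t, hγ, rfl⟩
      rw [SetLike.mem_coe, Subgroup.mem_comap, E1_hp]
      exact Subgroup.subset_closure ⟨γ, t, hγ, rfl⟩
    refine ⟨h hv, ?_⟩
    show D.sgl θ (pa C K v) = pa C K v
    rw [← pa_sig, hs']

theorem pa_Eg (u : GL C.Idx K) : u ∈ Eg (C.adS K) (D.sgl θ) ↔
    ∃ v ∈ EE D K θ, pa C K v = u := by
  have h1 : fixU (C.adS K) (D.sgl θ) = (fixU (GU.sys C K) (D.sig θ)).map (pa C K) := by
    ext u
    rw [pa_fixU, Subgroup.mem_map]
  have h2 : fixUm (C.adS K) (D.sgl θ) = (fixUm (GU.sys C K) (D.sig θ)).map (pa C K) := by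
    ext u
    rw [pa_fixUm, Subgroup.mem_map]
  have h3 : Eg (C.adS K) (D.sgl θ) = (EE D K θ).map (pa C K) := by
    have h4 : (EE D K θ).map (pa C K) = (fixU (GU.sys C K) (D.sig θ)).map (pa C K) ⊔
        (fixUm (GU.sys C K) (D.sig θ)).map (pa C K) := Subgroup.map_sup _ _ _
    rw [h4, ← h1, ← h2]
    rfl
  rw [h3, Subgroup.mem_map]

/-- The simple root groups are in `E(K, θ)`. -/
theorem fixX_mem_EE (β : C.Root) (v : GU C K)
    (hv : v ∈ fixX D (GU.sys C K) (D.sig θ) β) : v ∈ EE D K θ := by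
  rcases E1_XO_le D (GU.sys C K) β with ⟨-, h1⟩ | ⟨-, h1⟩
  · exact (le_sup_left : fixU (GU.sys C K) (D.sig θ) ≤ _) ⟨h1 hv.1, hv.2⟩
  · exact (le_sup_right : fixUm (GU.sys C K) (D.sig θ) ≤ _) ⟨h1 hv.1, hv.2⟩

end Pool.Agent.H75.UL
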