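import Pool.Agent.H75.UE.E0
import Pool.Agent.H75.UE.E0n
import Pool.Agent.H86.UM.FX
import Pool.Agent.H86.UM.SR

/-!
# Project UE, module E3: homomorphisms of `Eg S s` which agree modulo the centre

`comm_mem`: for `β` positive (negative: apply it to `S.neg`, `Env_neg`, `fixX_neg`, `Eg_neg`, `neg_T`) every `x ∈ fixX D S s β`
is a product of commutators `[h, y] = h y h⁻¹ y⁻¹` with `h ∈ S.T ⊓ Eg S s`, `y ∈ fixX D S s β`. By `exists_tor`
with `v` an invariant vector with `ip v γ = N * ht γ` (as in UNI.lean; `N ≠ 0`) and `c ∈ fixF θ` with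
`c ^ (N * ht β) ≠ 1`, `c ^ (2 * N * ht β) ≠ 1` (`fixF θ` is infinite, `SR_k0_inf`) there is
`h ∈ S.T ⊓ Eg S s` acting on `x_γ` by `c ^ (N ht γ)`. Put `d = c ^ (N ht β)`, fixed by `θ`. `fixX_form`:
`x = yb β t * z`, `z ∈ ZZ D S β`; `fixX_exists`: `y = yb β (t / (d - 1)) * z' ∈ fixX` (the condition for
`r β = β` is linear over `fixF θ`). `h y h⁻¹ y⁻¹ = yb β t * z''` with `z'' ∈ ZZ` (the elements of `XO` commute
modulo `ZZ`, which is central in `XO`: `ip (β + r β) β ≥ 0`). So we may assume `t = 0`, `x = z ∈ ZZ` fixed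
by `s`. `ZZ` is trivial, or `ZZ = {x_γ(v)}`, `γ = β + r β`; `z = x_γ(v)`, `y = x_γ(v / (d² - 1))` is also fixed by `s`
(`s x_γ(v) = x_γ(sg γ θ v)`, `IsSig`), and `[h, y] = x_γ(v)`.
`hom_eq`: `d x = (g x)⁻¹ * f x ∈ center H'`; `d` is a homomorphism (values central), and trivial on
commutators, so on all `fixX β`, so on `fixU S s`, `fixUm S s` (`fixU_eq`, `fixUm_eq`; `Inj` from
`inj_of_map`), so on `Eg S s` (`Subgroup.closure_induction` or `MonoidHom.eqLocus`; work with the subgroup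
`{x : H | ∃ h : x ∈ Eg S s, d ⟨x, h⟩ = 1}`).
-/

set_option autoImplicit false
open Matrix
universe u
namespace Pool.Agent.H75.UL

open Pool.Agent.H86.UM

variable {n : ℕ} {C : SLC n} {D : Dg C} {k : Type*} [Field k] {θ : k ≃+* k} {H : Type*} [Group H]
  {S : StSys C k H} {s : H →* H} {p : H →* GL C.Idx k}

private theorem E3_mo_pos (D : Dg C) (β : C.Root) : 0 < mo D β := by
  unfold mo
  split_ifs
  · exact Nat.one_pos
  · rcases D.m_cases with h | h | h <;> omega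

private theorem E3_mod (D : Dg C) (β : C.Root) (l : ℕ) : D.r^[l % mo D β] β = D.r^[l] β := by
  unfold mo
  split_ifs with h
  · rw [Function.iterate_fixed h, Function.iterate_fixed h]
  · have h1 : Function.IsPeriodicPt D.r D.m β := D.r_m β
    exact h1.iterate_mod_apply l

private theorem E3_cases (D : Dg C) (β : C.Root) :
    (D.r β = β ∧ mo D β = 1) ∨ (D.r β ≠ β ∧ mo D β = D.m ∧ C.ip β.1 (D.r β).1 = 0) ∨
    (D.r β ≠ β ∧ mo D β = 2 ∧ D.m = 2 ∧ C.ip β.1 (D.r β).1 = -1) := by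
  unfold mo
  by_cases h : D.r β = β
  · exact Or.inl ⟨h, if_pos h⟩
  · right
    rw [if_neg h]
    rcases D.ip_r β h with h1 | ⟨h1, h2⟩
    · exact Or.inl ⟨h, rfl, h1⟩
    · exact Or.inr ⟨h, h1, h1, h2⟩

private theorem E3_sum (D : Dg C) (β γ : C.Root) (hγ : γ.1 = β.1 + (D.r β).1) :
    D.r β ≠ β ∧ mo D β = 2 ∧ D.m = 2 ∧ C.ip β.1 (D.r β).1 = -1 := by
  have h1 := C.ip_add_root _ _ _ hγ
  rcases E3_cases D β with ⟨h, -⟩ | ⟨-, -, h⟩ | h
  · exfalso
    rw [h, β.2] at h1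
    omega
  · omega
  · exact h

private theorem E3_ip_lt (β : C.Root) (hβ : D.r β ≠ β) (ho : C.ip β.1 (D.r β).1 = 0) (l d : ℕ)
    (hd : 0 < d) (hl : l + d < D.m) : C.ip (D.r^[l] β).1 (D.r^[l + d] β).1 = 0 := by
  induction l with
  | zero =>
    rw [Nat.zero_add] at hl ⊢
    rw [Function.iterate_zero, id, D.ip_orb β hβ d hd hl, ho]
  | succ l ih =>
    have : l + 1 + d = (l + d) + 1 := by omega
    rw [this, Function.iterate_succ', Function.iterate_succ', Function.comp, Function.comp, D.r_ip]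
    exact ih (by omega)

private theorem E3_ip (β : C.Root) (hβ : D.r β ≠ β) (ho : C.ip β.1 (D.r β).1 = 0) (l l' : ℕ)
    (hl : l < D.m) (hl' : l' < D.m) : 0 ≤ C.ip (D.r^[l] β).1 (D.r^[l'] β).1 := by
  rcases lt_trichotomy l l' with h | h | h
  · obtain ⟨d, rfl⟩ := Nat.exists_eq_add_of_lt h
    exact (E3_ip_lt β hβ ho l (d + 1) (by omega) hl').ge
  · subst h
    rw [(D.r^[l] β).2]
    omega
  · obtain ⟨d, rfl⟩ := Nat.exists_eq_add_of_lt h
    rw [C.ip_comm]
    exact (E3_ip_lt β hβ ho l' (d + 1) (by omega) hl).ge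

/-- two roots of the orbit -/
private theorem E3_orb (D : Dg C) (β : C.Root) (l l' : ℕ) :
    0 ≤ C.ip (D.r^[l] β).1 (D.r^[l'] β).1 ∨
      ∃ δ : C.Root, δ.1 = (D.r^[l] β).1 + (D.r^[l'] β).1 ∧ δ.1 = β.1 + (D.r β).1 := by
  have hpos := E3_mo_pos D β
  have hl := Nat.mod_lt l hpos
  have hl' := Nat.mod_lt l' hpos
  rw [← E3_mod D β l, ← E3_mod D β l']
  rcases E3_cases D β with ⟨h, -⟩ | ⟨h, hm, ho⟩ | ⟨h, hm, hm', ho⟩
  · left
    rw [Function.iterate_fixed h, Function.iterate_fixed h, β.2]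
    omega
  · left
    rw [hm] at hl hl'
    rw [hm]
    exact E3_ip β h ho _ _ hl hl'
  · rw [hm] at hl hl' ⊢
    have h1 : l % 2 = 0 ∨ l % 2 = 1 := by omega
    have h2 : l' % 2 = 0 ∨ l' % 2 = 1 := by omega
    rcases h1 with h1 | h1 <;> rcases h2 with h2 | h2
    · left
      rw [h1, h2, Function.iterate_zero, id, β.2]
      omega
    · right
      rw [h1, h2]
      obtain ⟨δ, hδ⟩ := C.exists_add _ _ ho
      exact ⟨δ, hδ, hδ⟩
    · right
      rw [h1, h2]
      obtain ⟨δ, hδ⟩ := C.exists_add _ _ ho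
      exact ⟨δ, by rw [hδ, add_comm]; rfl, hδ⟩
    · left
      rw [h1, h2]
      change 0 ≤ C.ip (D.r β).1 (D.r β).1
      rw [(D.r β).2]
      omega

private theorem E3_ip_sum (D : Dg C) (β γ γ' : C.Root) (hγ : γ.1 = β.1 + (D.r β).1)
    (hγ' : D.inO β γ') : 0 ≤ C.ip γ.1 γ'.1 := by
  obtain ⟨h, hm, hm', ho⟩ := E3_sum D β γ hγ
  rcases hγ' with ⟨l, rfl⟩ | h1
  · rw [← E3_mod D β l, hm]
    have h1 : l % 2 = 0 ∨ l % 2 = 1 := by omega
    rcases h1 with h1 | h1 <;> rw [h1, hγ]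
    · change 0 ≤ C.ip (β.1 + (D.r β).1) β.1
      rw [C.ip_add_left, β.2, C.ip_comm, ho]
      omega
    · change 0 ≤ C.ip (β.1 + (D.r β).1) (D.r β).1
      rw [C.ip_add_left, (D.r β).2, ho]
      omega
  · rw [hγ, ← h1, γ'.2]
    omega

private theorem E3_pair (D : Dg C) (β γ γ' : C.Root) (h : D.inO β γ) (h' : D.inO β γ') :
    0 ≤ C.ip γ.1 γ'.1 ∨ ∃ δ : C.Root, δ.1 = γ.1 + γ'.1 ∧ δ.1 = β.1 + (D.r β).1 := by
  rcases h with ⟨l, rfl⟩ | h1
  · rcases h' with ⟨l', rfl⟩ | h1'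
    · exact E3_orb D β l l'
    · left
      rw [C.ip_comm]
      exact E3_ip_sum D β _ _ h1' (Or.inl ⟨l, rfl⟩)
  · exact Or.inl (E3_ip_sum D β _ _ h1 h')

private theorem E3_central (S : StSys C k H) (β : C.Root) (z h : H) (hz : z ∈ ZZ D S β)
    (hh : h ∈ XO D S β) : z * h = h * z := by
  have h1 : XO D S β ≤ Subgroup.centralizer (ZZ D S β : Set H) := by
    unfold XO
    rw [Subgroup.closure_le]
    rintro g ⟨γ', t, hγ', rfl⟩
    rw [SetLike.mem_coe, Subgroup.mem_centralizer_iff]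
    intro z hz
    have h2 : ZZ D S β ≤ Subgroup.centralizer {S.x γ' t} := by
      unfold ZZ
      rw [Subgroup.closure_le]
      rintro g ⟨γ, v, hγ, rfl⟩
      rw [SetLike.mem_coe, Subgroup.mem_centralizer_iff]
      rintro _ rfl
      exact (S.comm γ γ' v t (E3_ip_sum D β γ γ' hγ hγ')).symm
    have h3 := h2 hz
    rw [Subgroup.mem_centralizer_iff] at h3
    exact (h3 _ rfl).symm
  have h2 := h1 hh
  rw [Subgroup.mem_centralizer_iff] at h2
  exact h2 z hz

private theorem E3_ZZ_le (S : StSys C k H) (β : C.Root) : ZZ D S β ≤ XO D S β := by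
  unfold ZZ XO
  apply Subgroup.closure_mono
  rintro g ⟨γ, v, hγ, rfl⟩
  exact ⟨γ, v, Or.inr hγ, rfl⟩

private theorem E3_comm (S : StSys C k H) (β γ : C.Root) (hγ : D.inO β γ) (c : k) (h : H)
    (hh : h ∈ XO D S β) : ∃ z ∈ ZZ D S β, S.x γ c * h = h * S.x γ c * z := by
  have hx : S.x γ c ∈ XO D S β := Subgroup.subset_closure ⟨γ, c, hγ, rfl⟩
  unfold XO at hh
  induction hh using Subgroup.closure_induction with
  | mem h hh =>
    obtain ⟨γ', t, hγ', rfl⟩ := hh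
    rcases E3_pair D β γ γ' hγ hγ' with h1 | ⟨δ, h1, h2⟩
    · exact ⟨1, one_mem _, by rw [mul_one, S.comm γ γ' c t h1]⟩
    · have h3 := S.comm_add γ γ' δ c t h1
      have hz : S.x δ (C.eps γ.1 γ'.1 * c * t) ∈ ZZ D S β :=
        Subgroup.subset_closure ⟨δ, _, h2, rfl⟩
      refine ⟨_, hz, ?_⟩
      have hx' : S.x γ' t ∈ XO D S β := Subgroup.subset_closure ⟨γ', t, hγ', rfl⟩
      rw [← E3_central S β _ _ hz (mul_mem hx' hx), ← h3]
      group
  | one => exact ⟨1, one_mem _, by group⟩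
  | mul a b ha hb iha ihb =>
    obtain ⟨z1, hz1, h1⟩ := iha
    obtain ⟨z2, hz2, h2⟩ := ihb
    refine ⟨z2 * z1, mul_mem hz2 hz1, ?_⟩
    have hb' : b ∈ XO D S β := hb
    calc S.x γ c * (a * b) = (S.x γ c * a) * b := by group
      _ = a * S.x γ c * (z1 * b) := by rw [h1]; group
      _ = a * (S.x γ c * b) * z1 := by rw [E3_central S β z1 b hz1 hb']; group
      _ = a * b * S.x γ c * (z2 * z1) := by rw [h2]; group
  | inv a ha iha =>
    obtain ⟨z1, hz1, h1⟩ := iha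
    refine ⟨z1⁻¹, inv_mem hz1, ?_⟩
    have ha' : a⁻¹ ∈ XO D S β := inv_mem ha
    have h2 := E3_central S β z1⁻¹ a⁻¹ (inv_mem hz1) ha'
    calc S.x γ c * a⁻¹ = a⁻¹ * (a * S.x γ c * z1) * (z1⁻¹ * a⁻¹) := by group
      _ = a⁻¹ * (S.x γ c * a) * (a⁻¹ * z1⁻¹) := by rw [← h1, h2]
      _ = a⁻¹ * S.x γ c * z1⁻¹ := by group

/-- The product over the orbit. -/
private def E3_P (D : Dg C) (S : StSys C k H) (β : C.Root) (a : ℕ → k) (N : ℕ) : H :=
  ((List.range N).map fun l => S.x (D.r^[l] β) (a l)).prod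

private theorem E3_Psucc (S : StSys C k H) (β : C.Root) (a : ℕ → k) (N : ℕ) :
    E3_P D S β a (N + 1) = E3_P D S β a N * S.x (D.r^[N] β) (a N) := by
  unfold E3_P
  rw [List.range_succ, List.map_append, List.prod_append, List.map_cons, List.map_nil,
    List.prod_cons, List.prod_nil, mul_one]

private theorem E3_x_mem (S : StSys C k H) (β : C.Root) (l : ℕ) (c : k) :
    S.x (D.r^[l] β) c ∈ XO D S β := Subgroup.subset_closure ⟨_, c, Or.inl ⟨l, rfl⟩, rfl⟩

private theorem E3_Pmem (S : StSys C k H) (β : C.Root) (a : ℕ → k) (N : ℕ) :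
    E3_P D S β a N ∈ XO D S β := by
  induction N with
  | zero => exact one_mem _
  | succ N ih =>
    rw [E3_Psucc]
    exact mul_mem ih (E3_x_mem S β N _)

private theorem E3_Pzero (S : StSys C k H) (β : C.Root) (a : ℕ → k) (N : ℕ)
    (h : ∀ l < N, a l = 0) : E3_P D S β a N = 1 := by
  induction N with
  | zero => rfl
  | succ N ih =>
    rw [E3_Psucc, ih fun l hl => h l (by omega), h N (by omega), S.x_zero, mul_one]

private theorem E3_Padd (S : StSys C k H) (β : C.Root) (a b : ℕ → k) (N : ℕ) :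
    ∃ z ∈ ZZ D S β, E3_P D S β a N * E3_P D S β b N = E3_P D S β (fun l => a l + b l) N * z := by
  induction N with
  | zero => exact ⟨1, one_mem _, by simp [E3_P]⟩
  | succ N ih =>
    obtain ⟨z, hz, h1⟩ := ih
    obtain ⟨z', hz', h2⟩ := E3_comm S β (D.r^[N] β) (Or.inl ⟨N, rfl⟩) (a N) _
      (E3_Pmem (D := D) S β b N)
    refine ⟨z * z', mul_mem hz hz', ?_⟩
    have hc := E3_central S β (z * z') _ (mul_mem hz hz') (E3_x_mem (D := D) S β N (b N))
    have hc' := E3_central S β z _ hz (E3_x_mem (D := D) S β N (a N))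
    rw [E3_Psucc, E3_Psucc, E3_Psucc, S.map_add]
    calc E3_P D S β a N * S.x (D.r^[N] β) (a N) * (E3_P D S β b N * S.x (D.r^[N] β) (b N))
        = E3_P D S β a N * (S.x (D.r^[N] β) (a N) * E3_P D S β b N) * S.x (D.r^[N] β) (b N) := by
          group
      _ = (E3_P D S β a N * E3_P D S β b N) * S.x (D.r^[N] β) (a N) *
            (z' * S.x (D.r^[N] β) (b N)) := by rw [h2]; group
      _ = E3_P D S β (fun l => a l + b l) N * (z * S.x (D.r^[N] β) (a N)) *
            (z' * S.x (D.r^[N] β) (b N)) := by rw [h1]; group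
      _ = E3_P D S β (fun l => a l + b l) N * S.x (D.r^[N] β) (a N) *
            (z * z' * S.x (D.r^[N] β) (b N)) := by rw [hc']; group
      _ = _ := by rw [hc]; group

private theorem E3_yb (he : IsSig D θ S s) (β : C.Root) (t : k) :
    yb D S s β t = E3_P D S β (fun l => (D.sgp l β : k) * (⇑θ)^[l] t) (mo D β) := by
  unfold yb E3_P
  congr 1
  apply List.map_congr_left
  intro l _
  exact he.iter l β t

private theorem E3_ZZ_bot (S : StSys C k H) (β : C.Root)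
    (h : ∀ γ : C.Root, γ.1 ≠ β.1 + (D.r β).1) (z : H) (hz : z ∈ ZZ D S β) : z = 1 := by
  have h1 : ZZ D S β = ⊥ := by
    unfold ZZ
    rw [Subgroup.closure_eq_bot_iff]
    rintro g ⟨γ, v, hγ, -⟩
    exact absurd hγ (h γ)
  rw [h1] at hz
  exact hz

private theorem E3_ZZ_x (S : StSys C k H) (β γ : C.Root) (hγ : γ.1 = β.1 + (D.r β).1) (z : H)
    (hz : z ∈ ZZ D S β) : ∃ v, z = S.x γ v := by
  unfold ZZ at hz
  induction hz using Subgroup.closure_induction with
  | mem z hz =>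
    obtain ⟨γ', v, hγ', rfl⟩ := hz
    have : γ' = γ := SLC.Root.ext (hγ'.trans hγ.symm)
    exact ⟨v, by rw [this]⟩
  | one => exact ⟨0, (S.x_zero γ).symm⟩
  | mul a b _ _ ha hb =>
    obtain ⟨v, rfl⟩ := ha
    obtain ⟨w, rfl⟩ := hb
    exact ⟨v + w, (S.map_add γ v w).symm⟩
  | inv a _ ha =>
    obtain ⟨v, rfl⟩ := ha
    exact ⟨-v, (S.x_neg γ v).symm⟩

private theorem E3_Pcongr (S : StSys C k H) (β : C.Root) (a b : ℕ → k) (N : ℕ)
    (h : ∀ l < N, a l = b l) : E3_P D S β a N = E3_P D S β b N := by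
  unfold E3_P
  congr 1
  apply List.map_congr_left
  intro l hl
  rw [List.mem_range] at hl
  rw [h l hl]

private theorem E3_vec (D : Dg C) : ∃ v : Fin n → ℤ, SLC.lmap D.ρ v = v ∧
    ∀ w, C.ip v w = C.A.det * ht w := by
  choose y hy using C.exists_dual
  have hv : ∀ w, C.ip w (∑ i, y i) = C.A.det * ht w := by
    intro w
    have h1 : ∀ S : Finset (Fin n), C.ip w (∑ i ∈ S, y i) = ∑ i ∈ S, C.A.det * w i := by
      intro S
      classical
      induction S using Finset.induction_on with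
      | empty => simp [C.ip_zero_right]
      | insert i S hi ih => rw [Finset.sum_insert hi, C.ip_add_right, ih, hy,
          Finset.sum_insert hi]
    rw [h1]
    unfold ht
    rw [Finset.mul_sum]
  refine ⟨∑ i, y i, ?_, fun w => by rw [C.ip_comm, hv]⟩
  set v := ∑ i, y i with hvd
  have h2 : ∀ w, C.ip w (SLC.lmap D.ρ v) = C.ip w v := by
    intro w
    have e : w = SLC.lmap D.ρ (fun i => w (D.ρ i)) := by
      funext i
      simp [SLC.lmap]
    have h3 : ht (fun i => w (D.ρ i)) = ht w := by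
      unfold ht
      exact Equiv.sum_comp D.ρ w
    conv_lhs => rw [e]
    rw [C.ip_lmap D.ρ D.hρ, hv, hv, h3]
  by_contra hne
  have h4 : SLC.lmap D.ρ v - v ≠ 0 := sub_ne_zero.2 hne
  have h5 := C.ip_pos _ h4
  rw [C.ip_sub_right, h2, sub_self] at h5
  exact lt_irrefl _ h5

private theorem E3_fin (e : ℤ) (he : e ≠ 0) (d : k) : {c : k | c ^ e = d}.Finite := by
  classical
  have hE : 0 < e.natAbs := Int.natAbs_pos.2 he
  refine Set.Finite.subset ((Polynomial.nthRoots e.natAbs d).toFinset ∪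
    (Polynomial.nthRoots e.natAbs d⁻¹).toFinset).finite_toSet ?_
  intro c hc
  have hc' : c ^ e = d := hc
  rw [Finset.mem_coe, Finset.mem_union, Multiset.mem_toFinset, Multiset.mem_toFinset,
    Polynomial.mem_nthRoots hE, Polynomial.mem_nthRoots hE]
  rcases Int.natAbs_eq e with h | h
  · left
    rw [h, zpow_natCast] at hc'
    exact hc'
  · right
    rw [h, _root_.zpow_neg, zpow_natCast] at hc'
    rw [← hc', inv_inv]

private theorem E3_inf (he : Env D θ S s p) (e : ℤ) (he0 : e ≠ 0) :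
    {d : k | ∃ c, θ c = c ∧ c ≠ 0 ∧ c ^ e = d}.Infinite := by
  intro hfin
  have hinf := SR_k0_inf he
  have h1 : {c : k | θ c = c ∧ c ≠ 0}.Finite := by
    refine Set.Finite.subset (hfin.biUnion fun d _ => E3_fin e he0 d) ?_
    rintro c ⟨h1, h2⟩
    rw [Set.mem_iUnion₂]
    exact ⟨c ^ e, ⟨c, h1, h2, rfl⟩, rfl⟩
  have h2 : {c : k | θ c = c}.Finite := by
    refine Set.Finite.subset (h1.union (Set.finite_singleton (0 : k))) ?_
    intro c hc
    by_cases h0 : c = 0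
    · right; exact h0
    · left; exact ⟨hc, h0⟩
  have h3 : ((fixF θ : Subfield k) : Set k).Finite := h2
  exact (Set.infinite_coe_iff.1 hinf) h3

private theorem E3_yb_add (he : Env D θ S s p) (β : C.Root) (a b : k) :
    ∃ z ∈ ZZ D S β, yb D S s β a * yb D S s β b = yb D S s β (a + b) * z := by
  obtain ⟨z, hz, h⟩ := E3_Padd (D := D) S β (fun l => (D.sgp l β : k) * (⇑θ)^[l] a)
    (fun l => (D.sgp l β : k) * (⇑θ)^[l] b) (mo D β)
  refine ⟨z, hz, ?_⟩
  rw [E3_yb he.sig, E3_yb he.sig, E3_yb he.sig, h]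
  congr 1
  apply E3_Pcongr
  intro l _
  rw [← mul_add]
  congr 1
  have : ∀ l : ℕ, (⇑θ)^[l] (a + b) = (⇑θ)^[l] a + (⇑θ)^[l] b := by
    intro l
    induction l with
    | zero => rfl
    | succ l ih => rw [Function.iterate_succ_apply', ih, Function.iterate_succ_apply',
        Function.iterate_succ_apply', map_add]
  exact (this l).symm

private theorem E3_yb_conj (S : StSys C k H) (s : H →* H) (β : C.Root) (τ : H) (hs : s τ = τ)
    (d : k) (h : ∀ u, τ * S.x β u * τ⁻¹ = S.x β (d * u)) (t : k) :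
    τ * yb D S s β t * τ⁻¹ = yb D S s β (d * t) := by
  have hit : ∀ l : ℕ, τ * s^[l] (S.x β t) * τ⁻¹ = s^[l] (S.x β (d * t)) := by
    intro l
    induction l with
    | zero => exact h t
    | succ l ih =>
      rw [Function.iterate_succ_apply', Function.iterate_succ_apply', ← ih, map_mul, map_mul,
        map_inv, hs]
  have key : ∀ N : ℕ, τ * ((List.range N).map fun l => s^[l] (S.x β t)).prod * τ⁻¹ =
      ((List.range N).map fun l => s^[l] (S.x β (d * t))).prod := by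
    intro N
    induction N with
    | zero => simp
    | succ N ih =>
      rw [List.range_succ, List.map_append, List.prod_append, List.map_append, List.prod_append,
        ← ih]
      simp only [List.map_cons, List.map_nil, List.prod_cons, List.prod_nil, mul_one]
      rw [← hit N]
      group
  exact key _

private theorem E3_conj_clos (τ : H) (A : Set H) (h : ∀ a ∈ A, τ * a * τ⁻¹ ∈ Subgroup.closure A)
    (x : H) (hx : x ∈ Subgroup.closure A) : τ * x * τ⁻¹ ∈ Subgroup.closure A := by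
  induction hx using Subgroup.closure_induction with
  | mem a ha => exact h a ha
  | one =>
    rw [mul_one, mul_inv_cancel]
    exact one_mem _
  | mul a b _ _ ha hb =>
    have : τ * (a * b) * τ⁻¹ = (τ * a * τ⁻¹) * (τ * b * τ⁻¹) := by group
    rw [this]
    exact mul_mem ha hb
  | inv a _ ha =>
    have : τ * a⁻¹ * τ⁻¹ = (τ * a * τ⁻¹)⁻¹ := by group
    rw [this]
    exact inv_mem ha

private theorem E3_pos (he : Env D θ S s p) (β : C.Root) (hβ : C.Pos β) (x : H)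
    (hx : x ∈ fixX D S s β) : x ∈ Subgroup.closure
      {g | ∃ h ∈ S.T ⊓ Eg S s, ∃ y ∈ fixX D S s β, g = h * y * h⁻¹ * y⁻¹} := by
  obtain ⟨v, hv, hip⟩ := E3_vec D
  have hm : 1 ≤ ht β.1 := by
    unfold SLC.Pos at hβ
    omega
  have he0 : C.A.det * ht β.1 ≠ 0 := mul_ne_zero C.det_ne_zero (by omega)
  obtain ⟨d, ⟨c, hc1, hc2, hc3⟩, hd⟩ :=
    ((E3_inf he _ he0).sdiff (Set.toFinite ({1, -1} : Set k))).nonempty
  have hd1 : d - 1 ≠ 0 := fun h => hd (Or.inl (sub_eq_zero.1 h))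
  have hd2 : d + 1 ≠ 0 := fun h => hd (Or.inr (eq_neg_of_add_eq_zero_left h))
  have hd3 : d * d - 1 ≠ 0 := by
    have : d * d - 1 = (d - 1) * (d + 1) := by ring
    rw [this]
    exact mul_ne_zero hd1 hd2
  have hθd : θ d = d := by rw [← hc3, map_zpow₀, hc1]
  obtain ⟨τ, hτ, hact⟩ := exists_tor he.sig he.hθ he.hA v hv c hc2 hc1
  have hτβ : ∀ u, τ * S.x β u * τ⁻¹ = S.x β (d * u) := fun u => by
    rw [hact, hip, hc3]
  have hτs : s τ = τ := Eg_le_fix S s τ hτ.2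
  have hτZ : ∀ z ∈ ZZ D S β, τ * z * τ⁻¹ ∈ ZZ D S β := by
    intro z hz
    refine E3_conj_clos τ _ ?_ z hz
    rintro a ⟨γ, u, hγ, rfl⟩
    rw [hact]
    exact Subgroup.subset_closure ⟨γ, _, hγ, rfl⟩
  have hτX : ∀ z ∈ XO D S β, τ * z * τ⁻¹ ∈ XO D S β := by
    intro z hz
    refine E3_conj_clos τ _ ?_ z hz
    rintro a ⟨γ, u, hγ, rfl⟩
    rw [hact]
    exact Subgroup.subset_closure ⟨γ, _, hγ, rfl⟩
  have hτF : ∀ y ∈ fixX D S s β, τ * y * τ⁻¹ ∈ fixX D S s β := by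
    intro y hy
    refine Subgroup.mem_inf.2 ⟨hτX y hy.1, ?_⟩
    have h1 : s y = y := hy.2
    change s (τ * y * τ⁻¹) = τ * y * τ⁻¹
    rw [map_mul, map_mul, map_inv, hτs, h1]
  -- central elements
  have hZ : ∀ z ∈ ZZ D S β, s z = z → z ∈ Subgroup.closure
      {g | ∃ h ∈ S.T ⊓ Eg S s, ∃ y ∈ fixX D S s β, g = h * y * h⁻¹ * y⁻¹} := by
    intro z hz hs
    by_cases hγ : ∃ γ : C.Root, γ.1 = β.1 + (D.r β).1
    · obtain ⟨γ, hγ⟩ := hγ
      obtain ⟨hr, -, -, -⟩ := E3_sum D β γ hγ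
      obtain ⟨hrγ, hsγ⟩ := D.sg_adj β γ hr hγ
      obtain ⟨a, rfl⟩ := E3_ZZ_x (D := D) S β γ hγ z hz
      have h1 : ∀ b, s (S.x γ b) = S.x γ (-θ b) := by
        intro b
        rw [he.sig, hrγ, hsγ]
        congr 1
        push_cast
        ring
      have h2 : -θ a = a := by
        by_cases ha : a = 0
        · rw [ha, map_zero, neg_zero]
        · rw [h1] at hs
          have h3 := congrArg p hs
          rw [he.hp, he.hp] at h3
          exact ((C.xg_inj γ γ a (-θ a) ha h3.symm).2).symm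
      have hy : S.x γ ((d * d - 1)⁻¹ * a) ∈ fixX D S s β := by
        refine Subgroup.mem_inf.2 ⟨Subgroup.subset_closure ⟨γ, _, Or.inr hγ, rfl⟩, ?_⟩
        change s (S.x γ ((d * d - 1)⁻¹ * a)) = S.x γ ((d * d - 1)⁻¹ * a)
        rw [h1, map_mul, map_inv₀, map_sub, map_mul, map_one, hθd, ← mul_neg, h2]
      refine Subgroup.subset_closure ⟨τ, hτ, _, hy, ?_⟩
      rw [hact, hip, hγ, ht_add, D.r_ht, mul_add, zpow_add₀ hc2, hc3, ← S.x_neg, ← S.map_add]
      congr 1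
      have h5 : (d * d - 1) * ((d * d - 1)⁻¹ * a) = a := mul_inv_cancel_left₀ hd3 a
      linear_combination -h5
    · have h1 : z = 1 := E3_ZZ_bot (D := D) S β (fun γ h => hγ ⟨γ, h⟩) z hz
      rw [h1]
      exact one_mem _
  obtain ⟨t, ht, z, hz, rfl⟩ := fixX_form he β hβ x hx
  obtain ⟨z', hz', hy⟩ := fixX_exists he β hβ ((d - 1)⁻¹ * t) (by
    intro hr
    rw [map_mul, map_inv₀, map_sub, map_one, hθd]
    have := ht hr
    calc (D.sg β : k) * ((d - 1)⁻¹ * θ t) = (d - 1)⁻¹ * ((D.sg β : k) * θ t) := by ring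
      _ = (d - 1)⁻¹ * t := by rw [this])
  set t' := (d - 1)⁻¹ * t with ht'
  set y := yb D S s β t' * z' with hydef
  have hq : τ * y * τ⁻¹ * y⁻¹ ∈ fixX D S s β := mul_mem (hτF y hy) (inv_mem hy)
  have hadd : t + t' = d * t' := by
    rw [ht']
    field_simp
    ring
  obtain ⟨w, hw, hw2⟩ := E3_yb_add he β t t'
  have hyX : y ∈ XO D S β := hy.1
  have hybX : ∀ a, yb D S s β a ∈ XO D S β := by
    intro a
    have := yb_mem_XO he β a 1 (one_mem _)
    rwa [mul_one] at this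
  -- yb t = (commutator) * central
  obtain ⟨q, hq2, hq3⟩ : ∃ q ∈ ZZ D S β, yb D S s β t * z = (τ * y * τ⁻¹ * y⁻¹) * q := by
    have e1 : τ * y * τ⁻¹ = yb D S s β (d * t') * (τ * z' * τ⁻¹) := by
      rw [← E3_yb_conj (D := D) S s β τ hτs d hτβ t', hydef]
      group
    refine ⟨(τ * z' * τ⁻¹)⁻¹ * w * z' * z, mul_mem (mul_mem (mul_mem (inv_mem (hτZ z' hz')) hw)
      hz') hz, ?_⟩
    have hc1 := E3_central S β (τ * z' * τ⁻¹) y⁻¹ (hτZ z' hz') (inv_mem hyX)
    have e2 : yb D S s β (d * t') = yb D S s β t * yb D S s β t' * w⁻¹ := by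
      rw [hw2, hadd]
      group
    have hc3 := E3_central S β w⁻¹ y⁻¹ (inv_mem hw) (inv_mem hyX)
    have hc4 := E3_central S β z'⁻¹ (yb D S s β t')⁻¹ (inv_mem hz') (inv_mem (hybX t'))
    have e3 : yb D S s β t' * y⁻¹ = z'⁻¹ := by
      rw [hydef, _root_.mul_inv_rev, hc4]
      group
    rw [e1]
    calc yb D S s β t * z
        = yb D S s β t * z'⁻¹ * (z' * z) := by group
      _ = yb D S s β t * (yb D S s β t' * y⁻¹) * (z' * z) := by rw [e3]
      _ = yb D S s β t * yb D S s β t' * (y⁻¹ * w⁻¹) * (w * z' * z) := by group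
      _ = yb D S s β t * yb D S s β t' * (w⁻¹ * y⁻¹) * (w * z' * z) := by rw [hc3]
      _ = yb D S s β (d * t') * (y⁻¹ * (τ * z' * τ⁻¹)) * ((τ * z' * τ⁻¹)⁻¹ * w * z' * z) := by
          rw [e2]; group
      _ = yb D S s β (d * t') * (τ * z' * τ⁻¹) * y⁻¹ * ((τ * z' * τ⁻¹)⁻¹ * w * z' * z) := by
          rw [← hc1]; group
  rw [hq3]
  refine mul_mem (Subgroup.subset_closure ⟨τ, hτ, y, hy, rfl⟩) (hZ q hq2 ?_)
  have h1 : s (yb D S s β t * z) = yb D S s β t * z := hx.2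
  have h2 : s (τ * y * τ⁻¹ * y⁻¹) = τ * y * τ⁻¹ * y⁻¹ := hq.2
  have h3 : q = (τ * y * τ⁻¹ * y⁻¹)⁻¹ * (yb D S s β t * z) := by rw [hq3]; group
  rw [h3, map_mul, map_inv, h1, h2]

theorem comm_mem (he : Env D θ S s p) (β : C.Root) (x : H) (hx : x ∈ fixX D S s β) :
    x ∈ Subgroup.closure {g | ∃ h ∈ S.T ⊓ Eg S s, ∃ y ∈ fixX D S s β, g = h * y * h⁻¹ * y⁻¹} := by
  by_cases hβ : C.Pos β
  · exact E3_pos he β hβ x hx
  · obtain ⟨p', he'⟩ := Env_neg he
    have h1 : C.Pos (-β) := (C.not_pos_iff β).mp hβ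
    have h2 : fixX D S.neg s (-β) = fixX D S s β := by
      rw [fixX_neg, C.neg_neg_root]
    have h3 := E3_pos he' (-β) h1 x (by rw [h2]; exact hx)
    rw [h2, S.neg_T, Eg_neg] at h3
    exact h3

theorem hom_eq (he : Env D θ S s p) {H' : Type*} [Group H'] (f g : Eg S s →* H')
    (h : ∀ x, ∃ z ∈ Subgroup.center H', f x = g x * z) : f = g := by
  have hcomm : ∀ a b : Eg S s, f (a * b * a⁻¹ * b⁻¹) = g (a * b * a⁻¹ * b⁻¹) := by
    intro a b
    obtain ⟨z, hz, h1⟩ := h a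
    obtain ⟨w, hw, h2⟩ := h b
    rw [Subgroup.mem_center_iff] at hz hw
    have hz' : ∀ x, z * x = x * z := fun x => (hz x).symm
    have hw' : ∀ x, w * x = x * w := fun x => (hw x).symm
    simp only [map_mul, map_inv, h1, h2]
    have e1 : z * (g b * w) = g b * w * z := hz' _
    have e2 : w * (g a)⁻¹ = (g a)⁻¹ * w := hw' _
    calc g a * z * (g b * w) * (g a * z)⁻¹ * (g b * w)⁻¹
        = g a * (z * (g b * w)) * z⁻¹ * (g a)⁻¹ * w⁻¹ * (g b)⁻¹ := by group
      _ = g a * g b * (w * (g a)⁻¹) * w⁻¹ * (g b)⁻¹ := by rw [e1]; group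
      _ = g a * g b * (g a)⁻¹ * (g b)⁻¹ := by rw [e2]; group
  -- the subgroup on which they agree
  let Q : Subgroup H := (MonoidHom.eqLocus f g).map (Eg S s).subtype
  have hX : ∀ β, fixX D S s β ≤ Eg S s → fixX D S s β ≤ Q := by
    intro β hle x hx
    have h1 := comm_mem he β x hx
    refine (Subgroup.closure_le Q).2 ?_ h1
    rintro _ ⟨a, ha, y, hy, rfl⟩
    refine ⟨⟨a, ha.2⟩ * ⟨y, hle hy⟩ * ⟨a, ha.2⟩⁻¹ * ⟨y, hle hy⟩⁻¹, hcomm _ _, rfl⟩
  have hI := inj_of_map S p he.hp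
  have hU := fixU_eq hI.1 he.sig he.hθ he.hB
  have hUm := fixUm_eq hI.2 he.sig he.hθ he.hB
  have h1 : fixU S s ≤ Q := by
    rw [hU, Subgroup.closure_le]
    rintro x ⟨β, hβ, hx⟩
    exact hX β ((fixX_le_fixU S s β hβ).trans le_sup_left) hx
  have h2 : fixUm S s ≤ Q := by
    rw [hUm, Subgroup.closure_le]
    rintro x ⟨β, hβ, hx⟩
    refine hX β ?_ hx
    intro y hy
    refine (le_sup_right : fixUm S s ≤ Eg S s) ?_
    rw [hUm]
    exact Subgroup.subset_closure ⟨β, hβ, hy⟩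
  have h3 : Eg S s ≤ Q := sup_le h1 h2
  ext x
  obtain ⟨y, hy, hyx⟩ := h3 x.2
  have h4 : y = x := Subtype.ext hyx
  rw [h4] at hy
  exact hy

end Pool.Agent.H75.UL
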