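import Pool.Agent.H75.UE.E0
import Pool.Agent.H86.UM.AS1
import Pool.Agent.H86.UM.Reg
import Pool.Agent.H86.UM.CT

/-!
# Project UE, module E4: the centraliser of the image is trivial

`Tgt_center`: `exists_fib`, `exists_regular'` give `t₀ ∈ S.T` with all `chi (Ψ t₀) γ ≠ 1`; `conj_torus'` gives
`w₀ ∈ U 1` with `w₀⁻¹ Ψ(T) w₀ ≤ T`. Replace `Ψ` by `cj Ψ w₀` (`Tgt_conj`) and `w` by `w₀⁻¹ w w₀`. Then
`unique_of_Tgt` with `y = w` (`w⁻¹ Ψ u w = Ψ u ∈ U 1`, `Fil_U_zero`) gives `Fil 0 w`; `centralizer_B` for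
`τ = Ψ t₀` gives `w ∈ T`; for each `j` there are `J`, `x ∈ S.X J` with `xi j (Ψ x) ≠ 0` (`nonvan`), and `xi_conj`
(`Fil_T`) for `w Ψ(x) w⁻¹ = Ψ(x)` gives `chi w (simple j) = 1`, so `w = 1` (`T_ext` with `τ' = 1`).
`cent_of_chamber`: apply it over `L` to `cj (mp ∘ Ψ) g` and `g⁻¹ (mp w) g`; `mp_injective`.
-/

set_option autoImplicit false
open Matrix
universe u
namespace Pool.Agent.H75.UL

open Pool.Agent.H86.UM

variable {n : ℕ} (C : SLC n)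

theorem Tgt_center {ι : Type} {E : Type*} [Group E] {k : Type*} [Field k] (S : Src ι E k)
    {F : Type*} [Field F] (Ψ : E →* GL C.Idx F) (h : Tgt C S Ψ) (w : GL C.Idx F)
    (hw : w ∈ C.Gad F) (hc : ∀ x, w * Ψ x = Ψ x * w) : w = 1 := by
  obtain ⟨fib, hf⟩ := exists_fib C S Ψ h
  obtain ⟨t₀, ht₀, hreg⟩ := exists_regular' C S Ψ h fib hf
  obtain ⟨w₀, hw₀, hwT⟩ := conj_torus' C S Ψ h t₀ ht₀ hreg
  obtain ⟨hT, -, hchi, -⟩ := Tgt_conj C S Ψ h w₀ hw₀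
  have hw₀g : w₀ ∈ C.Gad F := by
    rw [← C.gen_adS F]
    exact (C.adS F).U_le_gen 1 hw₀
  obtain ⟨y, hy⟩ : ∃ y : GL C.Idx F, y = w₀⁻¹ * w * w₀ := ⟨_, rfl⟩
  have hyg : y ∈ C.Gad F := by
    rw [hy]
    exact mul_mem (mul_mem (inv_mem hw₀g) hw) hw₀g
  have hyc : ∀ x, y * cj Ψ w₀ x = cj Ψ w₀ x * y := by
    intro x
    rw [cj_apply, hy]
    have e1 : w₀⁻¹ * w * w₀ * (w₀⁻¹ * Ψ x * w₀) = w₀⁻¹ * (w * Ψ x) * w₀ := by group
    have e2 : w₀⁻¹ * Ψ x * w₀ * (w₀⁻¹ * w * w₀) = w₀⁻¹ * (Ψ x * w) * w₀ := by group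
    rw [e1, e2, hc]
  have hy0 : C.Fil 0 (y : Matrix C.Idx C.Idx F) := by
    refine unique_of_Tgt C S (cj Ψ w₀) hT y hyg ?_
    intro u hu
    have e : y⁻¹ * cj Ψ w₀ u * y = cj Ψ w₀ u := by
      rw [mul_assoc, ← hyc, inv_mul_cancel_left]
    rw [e]
    exact C.Fil_U_zero _ (hT.U_le u hu)
  have ht : cj Ψ w₀ t₀ ∈ (C.adS F).T := by
    rw [cj_apply]
    exact hwT t₀ ht₀
  have hyT : y ∈ (C.adS F).T := by
    refine C.centralizer_B (cj Ψ w₀ t₀) y ht hyg hy0 (fun γ _ => ?_) (hyc t₀).symm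
    rw [hchi t₀ ht₀ γ]
    exact hreg γ
  have hy1 : y = 1 := by
    refine C.T_ext y 1 hyT (one_mem _) fun j => ?_
    obtain ⟨J, x, hx, hne⟩ := hT.nonvan j
    have h2 := (C.xi_conj y (cj Ψ w₀ x) hyg hy0 (hT.U_le x (S.X_le J hx)) j).2
    rw [hyc, mul_inv_cancel_right] at h2
    have h3 : C.chi (y : Matrix C.Idx C.Idx F) (C.simple j) = 1 := by
      have h4 : (C.chi (y : Matrix C.Idx C.Idx F) (C.simple j) - 1) *
          C.xi j (cj Ψ w₀ x : Matrix C.Idx C.Idx F) = 0 := by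
        rw [sub_mul, one_mul, ← h2, sub_self]
      exact sub_eq_zero.1 ((mul_eq_zero.1 h4).resolve_right hne)
    rw [h3]
    simp [SLC.chi]
  have e : w = w₀ * y * w₀⁻¹ := by
    rw [hy]
    group
  rw [e, hy1]
  group

theorem cent_of_chamber {ι : Type} {E : Type*} [Group E] {k : Type*} [Field k] (S : Src ι E k)
    {K L : Type*} [Field K] [Field L] [Algebra K L] (Ψ : E →* GL C.Idx K) (g : GL C.Idx L)
    (hg : g ∈ C.Gad L) (hT : Tgt C S (cj ((C.mp (algebraMap K L)).comp Ψ) g)) (w : GL C.Idx K)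
    (hw : w ∈ C.Gad K) (hc : ∀ x, w * Ψ x = Ψ x * w) : w = 1 := by
  have h1 : g⁻¹ * C.mp (algebraMap K L) w * g = 1 := by
    refine Tgt_center C S _ hT _ (mul_mem (mul_mem (inv_mem hg) (C.mp_Gad _ w hw)) hg) ?_
    intro x
    rw [cj_apply, MonoidHom.comp_apply]
    have e1 : g⁻¹ * C.mp (algebraMap K L) w * g * (g⁻¹ * C.mp (algebraMap K L) (Ψ x) * g) =
        g⁻¹ * (C.mp (algebraMap K L) w * C.mp (algebraMap K L) (Ψ x)) * g := by group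
    have e2 : g⁻¹ * C.mp (algebraMap K L) (Ψ x) * g * (g⁻¹ * C.mp (algebraMap K L) w * g) =
        g⁻¹ * (C.mp (algebraMap K L) (Ψ x) * C.mp (algebraMap K L) w) * g := by group
    rw [e1, e2, ← map_mul, ← map_mul, hc]
  apply C.mp_injective (algebraMap K L) (algebraMap K L).injective
  rw [map_one]
  have e : C.mp (algebraMap K L) w = g * (g⁻¹ * C.mp (algebraMap K L) w * g) * g⁻¹ := by group
  rw [e, h1]
  group

end Pool.Agent.H75.UL
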