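import Pool.Agent.H75.UE.E5

/-!
# Project UE, module E6: composition of exact stages

`center_map`: for `z` in the centre of `G₂` and `ψ : G₂ →* G₃` injective, `X₃.p (ψ z) = 1`: it is in
`Gad` (`= pa y`), and commutes with all `Psi X₂ X₃ ψ x`, `GD.cent`.
`lift_exact`: data for `X₁, X₂, ψ`, `g ∈ Eg (adS K₂) (sgl θ₂)`, an element `x` with
`g⁻¹ * Psi x * g ∈ fixX D (adS K₂) (sgl θ₂) β`. By `pa_Eg` `g = pa γ`, `γ ∈ EE`, by `pa_fixX` `g⁻¹ Psi x g = pa y`,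
`y ∈ fixX D (GU.sys) (sig θ₂) β` (in `EE`, `fixX_mem_EE`). So `X₂.p (ψ (f₁ x)) = pa (γ y γ⁻¹) =
X₂.p (f₂ (γ y γ⁻¹))`, and `ψ (f₁ x) = f₂ (γ y γ⁻¹) * z`, `z` central in `G₂` (`center_iff`).
`PE.comp`: apply `X₃.p ∘ ψ'`: `Psi X₁ X₃ (ψ' ∘ ψ) x = Psi X₂ X₃ ψ' (γ y γ⁻¹)` (`center_map`), so with
`g'' = Psi X₂ X₃ ψ' γ * g'`: `g''⁻¹ Psi₁₃ x g'' = g'⁻¹ Psi₂₃ y g' ∈ fixX (simple i'')` by the second exactness.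
`γ` does not depend on `x`: choose it first from `g`. `g'' ∈ Eg (adS K₃) (sgl θ₃)`: `Psi₂₃ γ = X₃.p (..)
= pa w`, `w ∈ EE` (`surj`), `pa_Eg`. The index `i'` with `[i'] = π [i]`: take `i' = (π [i]).out`.
-/

set_option autoImplicit false
open Matrix
universe u
namespace Pool.Agent.H75.UL

open Pool.Agent.H86.UM

variable {n : ℕ} {C : SLC n} {D : Dg C} {tw : Bool}

section
variable {G₁ G₂ G₃ : Type u} [Group G₁] [Group G₂] [Group G₃] (X₁ : GD D tw G₁) (X₂ : GD D tw G₂)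
  (X₃ : GD D tw G₃) (ψ : G₁ →* G₂) (ψ' : G₂ →* G₃)

/-- Exactness with a given permutation of the orbits. -/
def PE (π : Equiv.Perm D.Orb) : Prop := ∃ g ∈ Eg (C.adS X₂.K) (D.sgl X₂.θ),
  Exact D (GU.sys C X₁.K) (D.sig X₁.θ) X₂.θ (X₁.Psi X₂ ψ) g π

include X₁ in
theorem center_map (hn : 0 < n) (hψ : Function.Injective ψ) (z : G₁)
    (hz : z ∈ Subgroup.center G₁) : X₂.p (ψ z) = 1 := by
  obtain ⟨y, hy⟩ := X₁.surj z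
  refine X₁.cent X₂ ψ hn hψ (X₂.p (ψ z)) ?_ fun x => ?_
  · rw [← hy, ← GD.Psi_apply]
    exact X₁.Psi_Gad X₂ ψ y
  · rw [GD.Psi_apply, ← map_mul, ← map_mul, ← map_mul, ← map_mul,
      Subgroup.mem_center_iff.mp hz (X₁.f x)]

theorem Psi_mem_Eg (x : EE D X₁.K X₁.θ) :
    X₁.Psi X₂ ψ x ∈ Eg (C.adS X₂.K) (D.sgl X₂.θ) := by
  obtain ⟨y, hy⟩ := X₂.surj (ψ (X₁.f x))
  rw [GD.Psi_apply, ← hy, X₂.hp]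
  exact (pa_Eg D X₂.θ _).mpr ⟨y, y.2, rfl⟩

/-- Equality in the adjoint group gives equality up to the centre. -/
theorem eq_mul_center (hn : 0 < n) (x : EE D X₁.K X₁.θ) (y : EE D X₂.K X₂.θ)
    (h : X₁.Psi X₂ ψ x = pa C X₂.K y) : ∃ z ∈ Subgroup.center G₂, ψ (X₁.f x) = X₂.f y * z := by
  refine ⟨(X₂.f y)⁻¹ * ψ (X₁.f x), ?_, by group⟩
  rw [← X₂.center_iff hn, map_mul, map_inv, X₂.hp, ← GD.Psi_apply, h, inv_mul_cancel]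

theorem Psi_comp (hn : 0 < n) (hψ' : Function.Injective ψ') (x : EE D X₁.K X₁.θ)
    (y : EE D X₂.K X₂.θ) (h : X₁.Psi X₂ ψ x = pa C X₂.K y) :
    X₁.Psi X₃ (ψ'.comp ψ) x = X₂.Psi X₃ ψ' y := by
  obtain ⟨z, hz, hxy⟩ := eq_mul_center X₁ X₂ ψ hn x y h
  rw [GD.Psi_apply, GD.Psi_apply, MonoidHom.comp_apply, hxy, map_mul, map_mul,
    center_map X₂ X₃ ψ' hn hψ' z hz, mul_one]

private theorem E6_step (hn : 0 < n) (hψ' : Function.Injective ψ') (g : GL C.Idx X₂.K)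
    (γ : EE D X₂.K X₂.θ) (hγ : pa C X₂.K γ = g) (g' : GL C.Idx X₃.K) (β' β'' : C.Root)
    (x : EE D X₁.K X₁.θ)
    (h1 : g⁻¹ * X₁.Psi X₂ ψ x * g ∈ fixX D (C.adS X₂.K) (D.sgl X₂.θ) β')
    (h2 : ∀ y : EE D X₂.K X₂.θ, (y : GU C X₂.K) ∈ fixX D (GU.sys C X₂.K) (D.sig X₂.θ) β' →
      g'⁻¹ * X₂.Psi X₃ ψ' y * g' ∈ fixX D (C.adS X₃.K) (D.sgl X₃.θ) β'') :
    (X₂.Psi X₃ ψ' γ * g')⁻¹ * X₁.Psi X₃ (ψ'.comp ψ) x * (X₂.Psi X₃ ψ' γ * g') ∈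
      fixX D (C.adS X₃.K) (D.sgl X₃.θ) β'' := by
  obtain ⟨v, hv, hvx⟩ := (pa_fixX D X₂.θ β' _).mp h1
  have hvE := fixX_mem_EE D X₂.θ β' v hv
  have hx : X₁.Psi X₂ ψ x = pa C X₂.K (γ * ⟨v, hvE⟩ * γ⁻¹ : EE D X₂.K X₂.θ) := by
    have e : ((γ * ⟨v, hvE⟩ * γ⁻¹ : EE D X₂.K X₂.θ) : GU C X₂.K) = γ * v * (γ : GU C X₂.K)⁻¹ := rfl
    rw [e, map_mul, map_mul, map_inv, hvx, hγ]
    group
  rw [Psi_comp X₁ X₂ X₃ ψ ψ' hn hψ' x _ hx, map_mul, map_mul, map_inv]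
  have h3 := h2 ⟨v, hvE⟩ hv
  have e : (X₂.Psi X₃ ψ' γ * g')⁻¹ *
      (X₂.Psi X₃ ψ' γ * X₂.Psi X₃ ψ' ⟨v, hvE⟩ * (X₂.Psi X₃ ψ' γ)⁻¹) *
      (X₂.Psi X₃ ψ' γ * g') = g'⁻¹ * X₂.Psi X₃ ψ' ⟨v, hvE⟩ * g' := by
    group
  rw [e]
  exact h3

theorem PE_comp (hn : 0 < n) (hψ : Function.Injective ψ) (hψ' : Function.Injective ψ')
    (π π' : Equiv.Perm D.Orb) (h : PE X₁ X₂ ψ π) (h' : PE X₂ X₃ ψ' π') :
    PE X₁ X₃ (ψ'.comp ψ) (π' * π) := by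
  obtain ⟨g, hg, hE⟩ := h
  obtain ⟨g', hg', hE'⟩ := h'
  obtain ⟨γ, hγ, hγg⟩ := (pa_Eg D X₂.θ g).mp hg
  refine ⟨X₂.Psi X₃ ψ' ⟨γ, hγ⟩ * g', mul_mem (Psi_mem_Eg X₂ X₃ ψ' _) hg', ?_⟩
  intro i i'' hi
  have hout : (Quotient.mk _ (π (Quotient.mk _ i : D.Orb)).out : D.Orb) =
      π (Quotient.mk _ i) := Quotient.out_eq _
  have h1 := hE i (π (Quotient.mk _ i : D.Orb)).out hout
  have h2 := hE' (π (Quotient.mk _ i : D.Orb)).out i'' (by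
    rw [hout, hi]; rfl)
  refine ⟨fun x hx => ?_, fun x hx => ?_⟩
  · exact E6_step X₁ X₂ X₃ ψ ψ' hn hψ' g ⟨γ, hγ⟩ hγg g' _ _ x (h1.1 x hx) h2.1
  · exact E6_step X₁ X₂ X₃ ψ ψ' hn hψ' g ⟨γ, hγ⟩ hγg g' _ _ x (h1.2 x hx) h2.2

end

end Pool.Agent.H75.UL
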