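import Pool.Agent.H75.UE.E6
import Pool.Agent.H86.UM.FC3

/-!
# Project UE, module E7: functorial form of the exact stage

(Two torus notations: `Pool.Agent.H75.UL.tad c` (module E0) and `Pool.Agent.H86.UM.tad C c` (FC0) are equal:
`tad_eq`.)
`pin_of_exact`: `hθ`: `Kd.hθ`; `mem`: `Psi_Gad`, `g ∈ Gad` (`Eg_le_gen`, `gen_adS`); `fix`: `Psi_fix`,
`Eg_le_fix`; `ker`: `Psi_ker`; `pos`, `neg`: `Exact` with `π = 1`, `i' = i`.
`xi_functorial`: the entry `(inl i, inr (-(simple i)))` of `tad c * M * (tad c)⁻¹`.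
`functorial_of_PE`: `field_compat` for `cj (Psi) g`; the second alternative is excluded by `D.m ≠ 3`;
`A = g * tad c ∈ NE`. `PR_exists`: `field_compat`; in the first alternative take `e = 1` (`xi_functorial`,
`mp_val`, `xi` of `mp φ M` is `φ` of `xi`), in the second `e = -1` (`((-1 : (ZMod 3)ˣ) : ZMod 3).val = 2`).
`PR_comp`: `g` for `(1,2)`, `g'` for `(2,3)`; `g = pa γ` (`pa_Eg`), `g'' = Psi X₂ X₃ ψ' γ * g'` as in the proof of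
`PE_comp`: for `x ∈ fixX (simple i)`: `g⁻¹ Psi₁₂ x g = pa y`, `y ∈ fixX (simple i)`, and
`g''⁻¹ Psi₁₃ x g'' = g'⁻¹ Psi₂₃ y g'`, so `xi i (..) = c' φ' (xi i (pa y)) = c' φ' (c φ (xi i (pa x)))`; take
`φ'' = φ' ∘ φ`, `c'' = c' φ'(c)`. `φ'' (θ₁ t) = φ' (θ₂^[e] (φ t)) = θ₃^[e' * e] (φ'' t)`, and
`θ₃^[e' * e]` depends only on `e' * e` modulo `3` (`θ₃^[3] = 1`: `Kd.hθ`, `D.m = 3`).
`functorial_of_PR`: `field_compat` with the `g` of `PR`; the second alternative is impossible: choose a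
nonfixed `i` (`D.m = 3`), not adjacent to its image (`ip_r`: adjacency implies `m = 2`; `ip_single`); the two
`RA` give `c φ(t) = c₂ φ₂(t)` for all `t` (`fixX_xi_exists`), so `c = c₂` (`t = 1`) and `φ = φ₂`, a
contradiction.
-/

set_option autoImplicit false
open Matrix
universe u
namespace Pool.Agent.H75.UL

open Pool.Agent.H86.UM

variable {n : ℕ} {C : SLC n} {D : Dg C} {tw : Bool}

theorem tad_eq {K : Type u} [Field K] (c : Fin n → Kˣ) :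
    Pool.Agent.H75.UL.tad (C := C) c = Pool.Agent.H86.UM.tad C c := Units.ext rfl

theorem xi_functorial {K : Type u} [Field K] (c : Fin n → Kˣ) (i : Fin n) (M : GL C.Idx K) :
    C.xi i ((Pool.Agent.H75.UL.tad (C := C) c * M * (Pool.Agent.H75.UL.tad (C := C) c)⁻¹ :
      GL C.Idx K) : Matrix C.Idx C.Idx K) = c i * C.xi i (M : Matrix C.Idx C.Idx K) := by
  have h1 : ((Pool.Agent.H75.UL.tad (C := C) c : GL C.Idx K) : Matrix C.Idx C.Idx K) =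
      Matrix.diagonal (Sum.elim (fun _ => 1) (fun γ => ((∏ j, c j ^ γ.1 j : Kˣ) : K))) := rfl
  have h2 : (((Pool.Agent.H75.UL.tad (C := C) c)⁻¹ : GL C.Idx K) : Matrix C.Idx C.Idx K) =
      Matrix.diagonal (Sum.elim (fun _ => 1) (fun γ => (((∏ j, c j ^ γ.1 j)⁻¹ : Kˣ) : K))) := rfl
  unfold SLC.xi
  rw [Units.val_mul, Units.val_mul, h1, h2, Matrix.mul_diagonal, Matrix.diagonal_mul]
  simp only [Sum.elim_inl, Sum.elim_inr, one_mul]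
  have h3 : (∏ j, c j ^ (-(C.simple i)).1 j : Kˣ)⁻¹ = c i := by
    rw [Finset.prod_eq_single i]
    · rw [SLC.Root.neg_val, Pi.neg_apply, SLC.simple_val, Pi.single_eq_same]
      simp
    · intro j _ hj
      rw [SLC.Root.neg_val, Pi.neg_apply, SLC.simple_val, Pi.single_eq_of_ne hj]
      simp
    · intro h
      exact absurd (Finset.mem_univ i) h
  rw [h3]
  ring

private theorem E7_iter_mod {K : Type u} [Field K] (θ : K ≃+* K) (h : ∀ t, (⇑θ)^[3] t = t)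
    (k : ℕ) (t : K) : (⇑θ)^[k % 3] t = (⇑θ)^[k] t := by
  conv_rhs => rw [← Nat.mod_add_div k 3]
  rw [Function.iterate_add_apply, Function.iterate_mul]
  have h1 : (⇑θ)^[3] = id := funext h
  rw [h1, Function.iterate_id, id]

private theorem E7_iter_comm {K K' : Type u} [Field K] [Field K'] (θ : K ≃+* K) (θ' : K' ≃+* K')
    (φ : K →+* K') (e : ℕ) (h : ∀ t, φ (θ t) = (⇑θ')^[e] (φ t)) (k : ℕ) (t : K) :
    φ ((⇑θ)^[k] t) = (⇑θ')^[e * k] (φ t) := by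
  induction k generalizing t with
  | zero => rfl
  | succ k ih =>
    rw [Function.iterate_succ_apply, ih, h, ← Function.iterate_add_apply]
    rfl

section
variable {G₁ G₂ G₃ : Type u} [Group G₁] [Group G₂] [Group G₃] (X₁ : GD D tw G₁) (X₂ : GD D tw G₂)
  (X₃ : GD D tw G₃) (ψ : G₁ →* G₂) (ψ' : G₂ →* G₃)

theorem pin_of_exact (hn : 0 < n) (hψ : Function.Injective ψ) (g : GL C.Idx X₂.K)
    (hg : g ∈ Eg (C.adS X₂.K) (D.sgl X₂.θ))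
    (hE : Exact D (GU.sys C X₁.K) (D.sig X₁.θ) X₂.θ (X₁.Psi X₂ ψ) g 1) :
    Pin (X₁.kd.env D X₁.inf) X₂.θ (cj (X₁.Psi X₂ ψ) g) where
  hθ := Kd.hθ D X₂.kd
  mem := by
    intro x
    have hg' : g ∈ C.Gad X₂.K := by
      rw [← C.gen_adS]
      exact Eg_le_gen _ _ hg
    rw [cj_apply]
    exact mul_mem (mul_mem (inv_mem hg') (X₁.Psi_Gad X₂ ψ x)) hg'
  fix := by
    intro x
    rw [cj_apply, map_mul, map_mul, map_inv, Eg_le_fix _ _ g hg, X₁.Psi_fix X₂ ψ x]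
  ker := by
    intro x hx
    rw [cj_apply] at hx
    apply X₁.Psi_ker X₂ ψ hn hψ
    have h1 : X₁.Psi X₂ ψ x = g * (g⁻¹ * X₁.Psi X₂ ψ x * g) * g⁻¹ := by group
    rw [h1, hx]
    group
  pos := by
    intro i x hx
    rw [cj_apply]
    exact (hE i i rfl).1 x hx
  neg := by
    intro i x hx
    rw [cj_apply]
    exact (hE i i rfl).2 x hx

/-- The functorial form. -/
def FF : Prop := ∃ (φ : X₁.K →+* X₂.K) (A : GL C.Idx X₂.K), (∀ t, φ (X₁.θ t) = X₂.θ (φ t)) ∧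
  A ∈ NE D X₂.θ ∧ ∀ x : EE D X₁.K X₁.θ, X₁.Psi X₂ ψ x = A * C.mp φ (pa C X₁.K x) * A⁻¹

/-- Exactness with trivial permutation and a given relation of the automorphisms. -/
def PR (e : (ZMod 3)ˣ) : Prop := ∃ g ∈ Eg (C.adS X₂.K) (D.sgl X₂.θ),
  Exact D (GU.sys C X₁.K) (D.sig X₁.θ) X₂.θ (X₁.Psi X₂ ψ) g 1 ∧
  ∀ i, D.ρ i ≠ i → ∃ (φ : X₁.K →+* X₂.K) (c : X₂.K),
    (∀ t, φ (X₁.θ t) = (⇑X₂.θ)^[((e : ZMod 3)).val] (φ t)) ∧
    RA (X₁.kd.env D X₁.inf) (cj (X₁.Psi X₂ ψ) g) i c φ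

private theorem E7_FF (g : GL C.Idx X₂.K) (hg : g ∈ Eg (C.adS X₂.K) (D.sgl X₂.θ))
    (φ : X₁.K →+* X₂.K) (cc : Fin n → (X₂.K)ˣ) (hφ : ∀ t, φ (X₁.θ t) = X₂.θ (φ t))
    (hcc : ∀ j, (cc (D.ρ j) : X₂.K) = X₂.θ (cc j))
    (hx : ∀ x, cj (X₁.Psi X₂ ψ) g x = Pool.Agent.H86.UM.tad C cc * C.mp φ (pa C X₁.K x) *
      (Pool.Agent.H86.UM.tad C cc)⁻¹) : FF X₁ X₂ ψ := by
  refine ⟨φ, g * Pool.Agent.H75.UL.tad (C := C) cc, hφ, ?_, fun x => ?_⟩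
  · refine mul_mem ((le_sup_left : _ ≤ NE D X₂.θ) hg) ?_
    exact (le_sup_right : _ ≤ NE D X₂.θ) (Subgroup.subset_closure ⟨cc, hcc, rfl⟩)
  · have h1 := hx x
    rw [cj_apply, ← tad_eq] at h1
    have h2 : X₁.Psi X₂ ψ x = g * (g⁻¹ * X₁.Psi X₂ ψ x * g) * g⁻¹ := by group
    rw [h2, h1]
    group

theorem functorial_of_PE (hn : 0 < n) (hm : D.m ≠ 3) (hψ : Function.Injective ψ)
    (h : PE X₁ X₂ ψ 1) : FF X₁ X₂ ψ := by
  obtain ⟨g, hg, hE⟩ := h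
  rcases field_compat (X₁.kd.env D X₁.inf) hn X₂.θ (cj (X₁.Psi X₂ ψ) g)
    (pin_of_exact X₁ X₂ ψ hn hψ g hg hE) with ⟨φ, cc, hφ, hcc, hx⟩ | ⟨h3, -⟩
  · exact E7_FF X₁ X₂ ψ g hg φ cc hφ hcc hx
  · exact absurd h3 hm

theorem PR_exists (hn : 0 < n) (hm : D.m = 3) (hψ : Function.Injective ψ)
    (h : PE X₁ X₂ ψ 1) : ∃ e, PR X₁ X₂ ψ e := by
  obtain ⟨g, hg, hE⟩ := h
  rcases field_compat (X₁.kd.env D X₁.inf) hn X₂.θ (cj (X₁.Psi X₂ ψ) g)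
    (pin_of_exact X₁ X₂ ψ hn hψ g hg hE) with ⟨φ, cc, hφ, hcc, hx⟩ | ⟨-, h3⟩
  · refine ⟨1, g, hg, hE, fun i _ => ⟨φ, cc i, fun t => hφ t, ?_⟩⟩
    refine ⟨(cc i).ne_zero, fun x _ => ?_⟩
    rw [hx x, ← tad_eq, xi_functorial]
    congr 1
    unfold SLC.xi
    rw [SLC.mp_val, Matrix.map_apply, map_neg]
  · refine ⟨-1, g, hg, hE, fun i hi => ?_⟩
    obtain ⟨φ, c, hφ, -, hR⟩ := h3 i hi
    exact ⟨φ, c, fun t => hφ t, hR⟩

private theorem E7_step (hn : 0 < n) (hψ' : Function.Injective ψ') (g : GL C.Idx X₂.K)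
    (γ : EE D X₂.K X₂.θ) (hγ : pa C X₂.K γ = g) (g' : GL C.Idx X₃.K) (β' : C.Root)
    (x : EE D X₁.K X₁.θ)
    (h1 : g⁻¹ * X₁.Psi X₂ ψ x * g ∈ fixX D (C.adS X₂.K) (D.sgl X₂.θ) β') :
    ∃ y : EE D X₂.K X₂.θ, (y : GU C X₂.K) ∈ fixX D (GU.sys C X₂.K) (D.sig X₂.θ) β' ∧
      pa C X₂.K y = g⁻¹ * X₁.Psi X₂ ψ x * g ∧
      (X₂.Psi X₃ ψ' γ * g')⁻¹ * X₁.Psi X₃ (ψ'.comp ψ) x * (X₂.Psi X₃ ψ' γ * g') =
        g'⁻¹ * X₂.Psi X₃ ψ' y * g' := by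
  obtain ⟨v, hv, hvx⟩ := (pa_fixX D X₂.θ β' _).mp h1
  have hvE := fixX_mem_EE D X₂.θ β' v hv
  refine ⟨⟨v, hvE⟩, hv, hvx, ?_⟩
  have hx : X₁.Psi X₂ ψ x = pa C X₂.K (γ * ⟨v, hvE⟩ * γ⁻¹ : EE D X₂.K X₂.θ) := by
    have e : ((γ * ⟨v, hvE⟩ * γ⁻¹ : EE D X₂.K X₂.θ) : GU C X₂.K) = γ * v * (γ : GU C X₂.K)⁻¹ := rfl
    rw [e, map_mul, map_mul, map_inv, hvx, hγ]
    group
  rw [Psi_comp X₁ X₂ X₃ ψ ψ' hn hψ' x _ hx, map_mul, map_mul, map_inv]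
  group

theorem PR_comp (hn : 0 < n) (hm : D.m = 3) (hψ : Function.Injective ψ)
    (hψ' : Function.Injective ψ') (e e' : (ZMod 3)ˣ) (h : PR X₁ X₂ ψ e) (h' : PR X₂ X₃ ψ' e') :
    PR X₁ X₃ (ψ'.comp ψ) (e' * e) := by
  obtain ⟨g, hg, hE, hR⟩ := h
  obtain ⟨g', hg', hE', hR'⟩ := h'
  obtain ⟨γ, hγ, hγg⟩ := (pa_Eg D X₂.θ g).mp hg
  refine ⟨X₂.Psi X₃ ψ' ⟨γ, hγ⟩ * g', mul_mem (Psi_mem_Eg X₂ X₃ ψ' _) hg', ?_, ?_⟩
  · intro i i'' hi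
    have h1 := hE i i rfl
    have h2 := hE' i i'' hi
    refine ⟨fun x hx => ?_, fun x hx => ?_⟩
    · obtain ⟨y, hy, -, h3⟩ := E7_step X₁ X₂ X₃ ψ ψ' hn hψ' g ⟨γ, hγ⟩ hγg g' _ x (h1.1 x hx)
      rw [h3]
      exact h2.1 y hy
    · obtain ⟨y, hy, -, h3⟩ := E7_step X₁ X₂ X₃ ψ ψ' hn hψ' g ⟨γ, hγ⟩ hγg g' _ x (h1.2 x hx)
      rw [h3]
      exact h2.2 y hy
  · intro i hi
    obtain ⟨φ, c, hφ, hRA⟩ := hR i hi
    obtain ⟨φ', c', hφ', hRA'⟩ := hR' i hi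
    refine ⟨φ'.comp φ, c' * φ' c, fun t => ?_, ?_, fun x hx => ?_⟩
    · have h3 : ∀ t, (⇑X₃.θ)^[3] t = t := fun t => by
        have := Kd.hθ D X₃.kd t
        rwa [hm] at this
      rw [RingHom.comp_apply, hφ, E7_iter_comm X₂.θ X₃.θ φ' _ hφ', Units.val_mul, ZMod.val_mul,
        E7_iter_mod X₃.θ h3]
      rfl
    · exact mul_ne_zero hRA'.c_ne (by simpa using hRA.c_ne)
    · obtain ⟨y, hy, hy1, h3⟩ := E7_step X₁ X₂ X₃ ψ ψ' hn hψ' g ⟨γ, hγ⟩ hγg g' _ x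
        ((hE i i rfl).1 x hx)
      have h4 := hRA'.coord y hy
      have h5 := hRA.coord x hx
      rw [cj_apply] at h4 h5
      rw [cj_apply, h3, h4, hy1, h5, map_mul, RingHom.comp_apply]
      ring

theorem functorial_of_PR (hn : 0 < n) (hm : D.m = 3) (hψ : Function.Injective ψ)
    (h : PR X₁ X₂ ψ 1) : FF X₁ X₂ ψ := by
  obtain ⟨g, hg, hE, hR⟩ := h
  rcases field_compat (X₁.kd.env D X₁.inf) hn X₂.θ (cj (X₁.Psi X₂ ψ) g)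
    (pin_of_exact X₁ X₂ ψ hn hψ g hg hE) with ⟨φ, cc, hφ, hcc, hx⟩ | ⟨-, h3⟩
  · exact E7_FF X₁ X₂ ψ g hg φ cc hφ hcc hx
  · exfalso
    have hex : ∃ i, D.ρ i ≠ i := by
      by_contra hcon
      push Not at hcon
      have h1 : D.m = 1 := by
        unfold Dg.m
        rw [orderOf_eq_one_iff]
        exact Equiv.ext hcon
      omega
    obtain ⟨i, hi⟩ := hex
    obtain ⟨φ, c, hφ, hRA⟩ := hR i hi
    obtain ⟨φ₂, c₂, -, ⟨t, ht⟩, hRA₂⟩ := h3 i hi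
    have hx : ∀ t, ∃ x : EE D X₁.K X₁.θ,
        (x : GU C X₁.K) ∈ fixX D (GU.sys C X₁.K) (D.sig X₁.θ) (C.simple i) ∧
        C.xi i (pa C X₁.K x : Matrix C.Idx C.Idx X₁.K) = t := by
      intro t
      obtain ⟨x, hx, hxt⟩ := fixX_xi_exists (X₁.kd.env D X₁.inf) i t (fun h => absurd h hi)
      exact ⟨⟨x, fixX_mem_EE D X₁.θ _ x hx⟩, hx, hxt⟩
    have heq : ∀ t, c * φ t = c₂ * φ₂ t := by
      intro t
      obtain ⟨x, hx, hxt⟩ := hx t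
      have h1 := hRA.coord x hx
      have h2 := hRA₂.coord x hx
      rw [hxt] at h1 h2
      rw [← h1, ← h2]
    have hc : c = c₂ := by
      have := heq 1
      rwa [map_one, map_one, mul_one, mul_one] at this
    have hφ2 : ∀ t, φ t = φ₂ t := by
      intro t
      have := heq t
      rw [← hc] at this
      exact mul_left_cancel₀ hRA.c_ne this
    apply ht
    rw [← hφ2, ← hφ2, hφ]
    rfl

end

end Pool.Agent.H75.UL
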