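import Mathlib

/-!
# Project UE, module E8: a subsequence with trivial transition elements

Choose `a i` with `P i (i+1) (a i)`; put `c 0 = 1`, `c (i+1) = a i * c i`. For `i < j`
`P i j (c j * (c i)⁻¹)` by induction on `j`. `Π` is finite, so some value `c` is taken infinitely often
(`Finite.exists_infinite_fiber`), on a set `J`; enumerate it increasingly (`Nat.nth` or
`Nat.exists_strictMono_subsequence`, `Set.Infinite`). Then `P (φ a) (φ b) (c * c⁻¹)`.
-/

set_option autoImplicit false
namespace Pool.Agent.H75.UL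

theorem exists_seq {Q : Type*} [Group Q] [Finite Q] (P : ℕ → ℕ → Q → Prop)
    (h1 : ∀ i j, i < j → ∃ a, P i j a)
    (h2 : ∀ i j k a b, i < j → j < k → P i j a → P j k b → P i k (b * a)) :
    ∃ φ : ℕ → ℕ, StrictMono φ ∧ ∀ a b, a < b → P (φ a) (φ b) 1 := by
  classical
  choose a ha using fun i : ℕ => h1 i (i + 1) (Nat.lt_succ_self i)
  let c : ℕ → Q := fun n => Nat.rec 1 (fun i ci => a i * ci) n
  have hc : ∀ i, c (i + 1) = a i * c i := fun i => rfl
  have key : ∀ i j, i < j → P i j (c j * (c i)⁻¹) := by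
    intro i j hij
    induction j with
    | zero => exact absurd hij (Nat.not_lt_zero _)
    | succ j ih =>
      rcases Nat.lt_succ_iff_lt_or_eq.mp hij with h | h
      · have h3 := h2 i j (j + 1) _ _ h (Nat.lt_succ_self j) (ih h) (ha j)
        rw [hc]
        simpa [mul_assoc] using h3
      · subst h
        rw [hc]
        simpa using ha i
  obtain ⟨y, hy⟩ := Finite.exists_infinite_fiber c
  have hJ : (c ⁻¹' {y}).Infinite := Set.infinite_coe_iff.mp hy
  refine ⟨Nat.nth (fun n => n ∈ c ⁻¹' {y}), Nat.nth_strictMono hJ, ?_⟩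
  intro p q hpq
  have hp : c (Nat.nth (fun n => n ∈ c ⁻¹' {y}) p) = y := Nat.nth_mem_of_infinite hJ p
  have hq : c (Nat.nth (fun n => n ∈ c ⁻¹' {y}) q) = y := Nat.nth_mem_of_infinite hJ q
  have h := key _ _ (Nat.nth_strictMono hJ hpq)
  have h1 : c (Nat.nth (fun n => n ∈ c ⁻¹' {y}) q) *
      (c (Nat.nth (fun n => n ∈ c ⁻¹' {y}) p))⁻¹ = 1 := by
    rw [hq, hp, mul_inv_cancel]
  exact h1 ▸ h

end Pool.Agent.H75.UL
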