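import Pool.Agent.H75.UE.E6
import Pool.Agent.H75.UE.E3

/-!
# Project UE, module E9: one step of the chain

`tad_xg`: entries, `T_diag`/`T_fix` in UL/T6 are similar (`D.sgl`, `X` in terms of `E`, `F`; a diagonal
matrix with the multiplicative function `γ ↦ ∏ c_j ^ γ_j`). `NE_aut`: the set of `A` for which there is
such an automorphism `α` is a subgroup; for `A ∈ Eg (adS K) (sgl θ)`: `A = pa γ` (`pa_Eg`), `α` = conjugation
by `γ`. For `A = tad c`: `(GU.sys C K).twist 1 1 _ c _` (module C0, `π = 1`, `rmap 1 = id`, `eta 1 = 1`), so there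
is `tw_c : GU C K →* GU C K`, `x_β(t) ↦ x_β(c^β t)`, with inverse `tw_(c⁻¹)` (see the proof of `Good.twist` in
C1.lean); it commutes with `D.sig θ` as `c (ρ i) = θ (c i)` (on generators: `c^(rβ) = θ (c^β)`), maps
`U 1`, `Um` to themselves, so `fixU`, `fixUm`, `EE` to themselves. `pa (tw_c x) = tad c * pa x * (tad c)⁻¹` on
generators (`tad_xg`), so everywhere. `NE_map`: generators: `pa_Eg`, `pa_map`, `map_mem_EE`; `mp φ (tad c) =
tad (φ c)`. `chain_step`: `f₂' = X₂.f ∘ α` with `α` from `NE_aut` for `A`. `p₂ (f₂' (emap φ x)) =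
pa (α (emap φ x)) = A pa (emap φ x) A⁻¹ = A mp φ (pa x) A⁻¹ = p₂ (ψ (f₁ x))`. So the homomorphisms
`ψ ∘ f₁` and `f₂' ∘ emap φ` from `EE D K₁ θ₁` to `G₂` agree modulo the centre (`center_iff`), and
`hom_eq` (with `Kd.env`) shows that they are equal.
-/

set_option autoImplicit false
open Matrix
universe u
namespace Pool.Agent.H75.UL

open Pool.Agent.H86.UM

variable {n : ℕ} {C : SLC n} {D : Dg C} {tw : Bool}

private noncomputable def E9_chi {K : Type u} [Field K] (c : Fin n → Kˣ) (v : Fin n → ℤ) : Kˣ :=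
  ∏ j, c j ^ v j

private theorem E9_chi_add {K : Type u} [Field K] (c : Fin n → Kˣ) (v w : Fin n → ℤ) :
    E9_chi c (v + w) = E9_chi c v * E9_chi c w := by
  unfold E9_chi
  rw [← Finset.prod_mul_distrib]
  refine Finset.prod_congr rfl fun j _ => ?_
  rw [Pi.add_apply, _root_.zpow_add]

private theorem E9_chi_zero {K : Type u} [Field K] (c : Fin n → Kˣ) : E9_chi c 0 = 1 := by
  unfold E9_chi
  simp

private theorem E9_X_apply {K : Type u} [Field K] (β : C.Root) (u : K) (a b : C.Idx) :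
    C.X K β u a b = (1 : Matrix C.Idx C.Idx K) a b + u * ((C.E β a b : ℤ) : K) +
      u ^ 2 * ((C.F β a b : ℤ) : K) := by
  unfold SLC.X
  rw [Matrix.add_apply, Matrix.add_apply, Matrix.smul_apply, Matrix.smul_apply, Matrix.map_apply,
    Matrix.map_apply, smul_eq_mul, smul_eq_mul]

theorem tad_xg {K : Type u} [Field K] (c : Fin n → Kˣ) (β : C.Root) (t : K) :
    tad (C := C) c * C.xg K β t * (tad (C := C) c)⁻¹ =
      C.xg K β (((∏ j, c j ^ β.1 j : Kˣ) : K) * t) := by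
  have hneg : ((E9_chi c β.1 : Kˣ) : K) * ((E9_chi c (-β.1) : Kˣ) : K) = 1 := by
    rw [← Units.val_mul, ← E9_chi_add, add_neg_cancel, E9_chi_zero, Units.val_one]
  rw [mul_inv_eq_iff_eq_mul]
  apply Units.ext
  rw [Units.val_mul, Units.val_mul]
  show Matrix.diagonal (Sum.elim (fun _ => (1 : K))
      (fun γ : C.Root => ((∏ j, c j ^ γ.1 j : Kˣ) : K))) * C.X K β t =
    C.X K β ((E9_chi c β.1 : K) * t) * Matrix.diagonal (Sum.elim (fun _ => (1 : K))
      (fun γ : C.Root => ((∏ j, c j ^ γ.1 j : Kˣ) : K)))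
  ext a b
  rw [Matrix.diagonal_mul, Matrix.mul_diagonal, E9_X_apply, E9_X_apply]
  have h1 : (Sum.elim (fun _ => (1 : K)) (fun γ : C.Root => ((∏ j, c j ^ γ.1 j : Kˣ) : K)) a) *
      (1 : Matrix C.Idx C.Idx K) a b = (1 : Matrix C.Idx C.Idx K) a b *
      (Sum.elim (fun _ => (1 : K)) (fun γ : C.Root => ((∏ j, c j ^ γ.1 j : Kˣ) : K)) b) := by
    by_cases hab : a = b
    · subst hab
      ring
    · rw [Matrix.one_apply_ne hab]
      ring
  have h2 : (Sum.elim (fun _ => (1 : K)) (fun γ : C.Root => ((∏ j, c j ^ γ.1 j : Kˣ) : K)) a) *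
      ((C.E β a b : ℤ) : K) = (E9_chi c β.1 : K) * ((C.E β a b : ℤ) : K) *
      (Sum.elim (fun _ => (1 : K)) (fun γ : C.Root => ((∏ j, c j ^ γ.1 j : Kˣ) : K)) b) := by
    rcases a with i | γ <;> rcases b with j | δ
    · simp [SLC.E]
    · simp only [SLC.E, Sum.elim_inl, Sum.elim_inr]
      split_ifs with h
      · have h3 : ((∏ j, c j ^ δ.1 j : Kˣ) : K) = ((E9_chi c (-β.1) : Kˣ) : K) := by
          rw [h]
          rfl
        rw [h3, one_mul, mul_right_comm, hneg, one_mul]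
      · simp
    · simp only [SLC.E, Sum.elim_inl, Sum.elim_inr]
      split_ifs with h
      · have h3 : ((∏ j, c j ^ γ.1 j : Kˣ) : K) = ((E9_chi c β.1 : Kˣ) : K) := by
          rw [h]
          rfl
        rw [h3, mul_one]
      · simp
    · simp only [SLC.E, Sum.elim_inr]
      split_ifs with h
      · have h3 : ((∏ j, c j ^ γ.1 j : Kˣ) : K) = ((E9_chi c β.1 : Kˣ) : K) *
            ((∏ j, c j ^ δ.1 j : Kˣ) : K) := by
          rw [h, ← Units.val_mul]
          have h4 := E9_chi_add c β.1 δ.1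
          unfold E9_chi at h4 ⊢
          rw [h4]
        rw [h3]
        ring
      · simp
  have h3 : (Sum.elim (fun _ => (1 : K)) (fun γ : C.Root => ((∏ j, c j ^ γ.1 j : Kˣ) : K)) a) *
      ((C.F β a b : ℤ) : K) = (E9_chi c β.1 : K) ^ 2 * ((C.F β a b : ℤ) : K) *
      (Sum.elim (fun _ => (1 : K)) (fun γ : C.Root => ((∏ j, c j ^ γ.1 j : Kˣ) : K)) b) := by
    rcases a with i | γ <;> rcases b with j | δ
    · simp [SLC.F]
    · simp [SLC.F]
    · simp [SLC.F]
    · simp only [SLC.F, Sum.elim_inr]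
      split_ifs with h
      · have h4 : ((∏ j, c j ^ γ.1 j : Kˣ) : K) = ((E9_chi c β.1 : Kˣ) : K) := by
          rw [h.1]
          rfl
        have h5 : ((∏ j, c j ^ δ.1 j : Kˣ) : K) = ((E9_chi c (-β.1) : Kˣ) : K) := by
          rw [h.2]
          rfl
        rw [h4, h5]
        linear_combination (-(E9_chi c β.1 : K)) * ((1 : ℤ) : K) * hneg
      · simp
  linear_combination h1 + t * h2 + t ^ 2 * h3

theorem mp_tad {K K' : Type u} [Field K] [Field K'] (φ : K →+* K') (c : Fin n → Kˣ) :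
    C.mp φ (tad (C := C) c) = tad (C := C) (fun i => Units.map (φ : K →* K') (c i)) := by
  apply Units.ext
  rw [SLC.mp_val]
  show (Matrix.diagonal (Sum.elim (fun _ => (1 : K))
      (fun γ : C.Root => ((∏ j, c j ^ γ.1 j : Kˣ) : K)))).map φ =
    Matrix.diagonal (Sum.elim (fun _ => (1 : K'))
      (fun γ : C.Root => ((∏ j, (Units.map (φ : K →* K') (c j)) ^ γ.1 j : K'ˣ) : K')))
  rw [Matrix.diagonal_map (map_zero φ)]
  congr 1
  funext a
  rcases a with i | γ
  · simp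
  · simp only [Sum.elim_inr]
    have h : (∏ j, (Units.map (φ : K →* K') (c j)) ^ γ.1 j : K'ˣ) =
        Units.map (φ : K →* K') (∏ j, c j ^ γ.1 j) := by
      rw [map_prod]
      refine Finset.prod_congr rfl fun j _ => ?_
      rw [map_zpow]
    rw [h]
    rfl

/-! ### The diagonal automorphism of the universal group -/

private theorem E9_h1 (C : SLC n) : ∀ i j, C.A ((1 : Equiv.Perm (Fin n)) i)
    ((1 : Equiv.Perm (Fin n)) j) = C.A i j := fun _ _ => rfl

private theorem E9_rmap_one (hπ : ∀ i j, C.A ((1 : Equiv.Perm (Fin n)) i)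
    ((1 : Equiv.Perm (Fin n)) j) = C.A i j) (β : C.Root) : C.rmap 1 hπ β = β := by
  apply SLC.Root.ext
  rfl

private theorem E9_eta_one (v : Fin n → ℤ) : C.eta 1 v = 1 := by
  unfold SLC.eta SLC.qq
  simp

/-- The diagonal automorphism `x_β(t) ↦ x_β(c^β t)` of the universal group. -/
private noncomputable def E9_tw (C : SLC n) {K : Type u} [Field K] (c : Fin n → Kˣ) :
    GU C K →* GU C K :=
  GU.lift ((GU.sys C K).twist 1 1 (E9_h1 C) (fun i => (c i : K)) (fun i => (c i).ne_zero))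

private theorem E9_val_prod {K : Type u} [Field K] (c : Fin n → Kˣ) (v : Fin n → ℤ) :
    ((∏ j, c j ^ v j : Kˣ) : K) = ∏ j, (c j : K) ^ v j := by
  rw [Units.coe_prod]
  refine Finset.prod_congr rfl fun j _ => ?_
  rw [Units.val_zpow_eq_zpow_val]

private theorem E9_tw_x {K : Type u} [Field K] (c : Fin n → Kˣ) (β : C.Root) (t : K) :
    E9_tw C c (GU.x C K β t) = GU.x C K β (((∏ j, c j ^ β.1 j : Kˣ) : K) * t) := by
  unfold E9_tw
  rw [GU.lift_x, StSys.twist_x, one_mul, inv_one, mul_one, E9_rmap_one, E9_eta_one, Int.cast_one,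
    one_mul, E9_val_prod]
  rfl

private theorem E9_tw_inv {K : Type u} [Field K] (c : Fin n → Kˣ) (x : GU C K) :
    E9_tw C c⁻¹ (E9_tw C c x) = x := by
  have key : (E9_tw C c⁻¹).comp (E9_tw C c) = MonoidHom.id _ := by
    apply GU.hom_ext
    intro β t
    rw [MonoidHom.comp_apply, E9_tw_x, E9_tw_x, MonoidHom.id_apply, ← mul_assoc, ← Units.val_mul,
      ← Finset.prod_mul_distrib]
    have h : (∏ j, (c⁻¹ j) ^ β.1 j * c j ^ β.1 j) = 1 := by
      apply Finset.prod_eq_one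
      intro j _
      rw [Pi.inv_apply, ← mul_zpow, inv_mul_cancel, _root_.one_zpow]
    rw [h, Units.val_one, one_mul]
  exact DFunLike.congr_fun key x

private theorem E9_tw_sig (D : Dg C) {K : Type u} [Field K] (θ : K ≃+* K) (c : Fin n → Kˣ)
    (hc : ∀ i, (c (D.ρ i) : K) = θ (c i)) (x : GU C K) :
    E9_tw C c (D.sig θ x) = D.sig θ (E9_tw C c x) := by
  have key : (E9_tw C c).comp (D.sig θ) = (D.sig θ).comp (E9_tw C c) := by
    apply GU.hom_ext
    intro β t
    rw [MonoidHom.comp_apply, MonoidHom.comp_apply, E9_tw_x]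
    have h1 := isSig_GU D θ β t
    have h2 := isSig_GU D θ β (((∏ j, c j ^ β.1 j : Kˣ) : K) * t)
    change (D.sig θ) (GU.x C K β _) = GU.x C K (D.r β) _ at h1
    change (D.sig θ) (GU.x C K β _) = GU.x C K (D.r β) _ at h2
    rw [h1, h2, E9_tw_x]
    congr 1
    have h3 : ((∏ j, c j ^ (D.r β).1 j : Kˣ) : K) = θ ((∏ j, c j ^ β.1 j : Kˣ) : K) := by
      rw [E9_val_prod, E9_val_prod, map_prod, ← Equiv.prod_comp D.ρ]
      refine Finset.prod_congr rfl fun j _ => ?_
      rw [D.r_val, hc, map_zpow₀]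
    rw [h3, map_mul]
    ring
  exact DFunLike.congr_fun key x

private theorem E9_tw_U {K : Type u} [Field K] (c : Fin n → Kˣ) (x : GU C K)
    (hx : x ∈ (GU.sys C K).U 1) : E9_tw C c x ∈ (GU.sys C K).U 1 := by
  unfold StSys.U at hx
  induction hx using Subgroup.closure_induction with
  | mem y hy =>
    obtain ⟨β, t, hβ, rfl⟩ := hy
    change E9_tw C c (GU.x C K β t) ∈ _
    rw [E9_tw_x]
    exact Subgroup.subset_closure ⟨β, _, hβ, rfl⟩
  | one => rw [map_one]; exact one_mem _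
  | mul a b _ _ ha hb => rw [map_mul]; exact mul_mem ha hb
  | inv a _ ha => rw [map_inv]; exact inv_mem ha

private theorem E9_tw_Um {K : Type u} [Field K] (c : Fin n → Kˣ) (x : GU C K)
    (hx : x ∈ (GU.sys C K).Um) : E9_tw C c x ∈ (GU.sys C K).Um := by
  unfold StSys.Um at hx
  induction hx using Subgroup.closure_induction with
  | mem y hy =>
    obtain ⟨β, t, hβ, rfl⟩ := hy
    change E9_tw C c (GU.x C K β t) ∈ _
    rw [E9_tw_x]
    exact Subgroup.subset_closure ⟨β, _, hβ, rfl⟩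
  | one => rw [map_one]; exact one_mem _
  | mul a b _ _ ha hb => rw [map_mul]; exact mul_mem ha hb
  | inv a _ ha => rw [map_inv]; exact inv_mem ha

private theorem E9_tw_EE (D : Dg C) {K : Type u} [Field K] (θ : K ≃+* K) (c : Fin n → Kˣ)
    (hc : ∀ i, (c (D.ρ i) : K) = θ (c i)) (x : GU C K) (hx : x ∈ EE D K θ) :
    E9_tw C c x ∈ EE D K θ := by
  have h1 : EE D K θ ≤ (EE D K θ).comap (E9_tw C c) := by
    refine sup_le ?_ ?_
    · rintro u ⟨hu, hs⟩
      refine (le_sup_left : fixU (GU.sys C K) (D.sig θ) ≤ _) ⟨E9_tw_U c u hu, ?_⟩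
      have hs' : D.sig θ u = u := hs
      change D.sig θ (E9_tw C c u) = E9_tw C c u
      rw [← E9_tw_sig D θ c hc, hs']
    · rintro u ⟨hu, hs⟩
      refine (le_sup_right : fixUm (GU.sys C K) (D.sig θ) ≤ _) ⟨E9_tw_Um c u hu, ?_⟩
      have hs' : D.sig θ u = u := hs
      change D.sig θ (E9_tw C c u) = E9_tw C c u
      rw [← E9_tw_sig D θ c hc, hs']
  exact h1 hx

private theorem E9_pa_tw {K : Type u} [Field K] (c : Fin n → Kˣ) (x : GU C K) :
    pa C K (E9_tw C c x) = tad (C := C) c * pa C K x * (tad (C := C) c)⁻¹ := by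
  have key : (pa C K).comp (E9_tw C c) =
      (MulAut.conj (tad (C := C) c)).toMonoidHom.comp (pa C K) := by
    apply GU.hom_ext
    intro β t
    rw [MonoidHom.comp_apply, MonoidHom.comp_apply, E9_tw_x, GU.lift_x, GU.lift_x]
    exact (tad_xg c β t).symm
  exact DFunLike.congr_fun key x

private theorem E9_hc_inv (D : Dg C) {K : Type u} [Field K] (θ : K ≃+* K) (c : Fin n → Kˣ)
    (hc : ∀ i, (c (D.ρ i) : K) = θ (c i)) : ∀ i, (c⁻¹ (D.ρ i) : K) = θ (c⁻¹ i) := by
  intro i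
  rw [Pi.inv_apply, Pi.inv_apply, Units.val_inv_eq_inv_val, Units.val_inv_eq_inv_val, hc,
    map_inv₀]

/-- The diagonal automorphism of `E(K, θ)`. -/
private noncomputable def E9_al (D : Dg C) {K : Type u} [Field K] (θ : K ≃+* K) (c : Fin n → Kˣ)
    (hc : ∀ i, (c (D.ρ i) : K) = θ (c i)) : EE D K θ ≃* EE D K θ where
  toFun x := ⟨E9_tw C c x, E9_tw_EE D θ c hc x x.2⟩
  invFun x := ⟨E9_tw C c⁻¹ x, E9_tw_EE D θ c⁻¹ (E9_hc_inv D θ c hc) x x.2⟩
  left_inv x := Subtype.ext (E9_tw_inv c x.1)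
  right_inv x := by
    apply Subtype.ext
    have h := E9_tw_inv c⁻¹ (x : GU C K)
    rw [inv_inv] at h
    exact h
  map_mul' x y := Subtype.ext (map_mul (E9_tw C c) (x : GU C K) y)

/-- The elements of `GL` inducing automorphisms of `E(K, θ)`. -/
private noncomputable def E9_P (D : Dg C) {K : Type u} [Field K] (θ : K ≃+* K) :
    Subgroup (GL C.Idx K) where
  carrier := {A | ∃ α : EE D K θ ≃* EE D K θ, ∀ x, pa C K (α x) = A * pa C K x * A⁻¹}
  one_mem' := ⟨MulEquiv.refl _, fun x => by simp⟩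
  mul_mem' := by
    rintro A B ⟨α, hα⟩ ⟨β, hβ⟩
    refine ⟨β.trans α, fun x => ?_⟩
    rw [MulEquiv.trans_apply, hα, hβ, _root_.mul_inv_rev]
    simp only [mul_assoc]
  inv_mem' := by
    rintro A ⟨α, hα⟩
    refine ⟨α.symm, fun x => ?_⟩
    have h := hα (α.symm x)
    rw [MulEquiv.apply_symm_apply] at h
    rw [h]
    group

theorem NE_aut {K : Type u} [Field K] (θ : K ≃+* K) (A : GL C.Idx K) (hA : A ∈ NE D θ) :
    ∃ α : EE D K θ ≃* EE D K θ, ∀ x, pa C K (α x) = A * pa C K x * A⁻¹ := by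
  have h1 : NE D θ ≤ E9_P D θ := by
    refine sup_le ?_ ?_
    · intro B hB
      obtain ⟨v, hv, rfl⟩ := (pa_Eg D θ B).1 hB
      refine ⟨MulAut.conj ⟨v, hv⟩, fun x => ?_⟩
      rw [MulAut.conj_apply]
      simp only [Subgroup.coe_mul, Subgroup.coe_inv, map_mul, map_inv]
    · rw [Subgroup.closure_le]
      rintro B ⟨c, hc, rfl⟩
      exact ⟨E9_al D θ c hc, fun x => E9_pa_tw c x.1⟩
  exact h1 hA

theorem NE_map {K K' : Type u} [Field K] [Field K'] (θ : K ≃+* K) (θ' : K' ≃+* K')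
    (φ : K →+* K') (h : ∀ t, φ (θ t) = θ' (φ t)) (A : GL C.Idx K) (hA : A ∈ NE D θ) :
    C.mp φ A ∈ NE D θ' := by
  have h1 : NE D θ ≤ (NE D θ').comap (C.mp φ) := by
    refine sup_le ?_ ?_
    · intro B hB
      obtain ⟨v, hv, rfl⟩ := (pa_Eg D θ B).1 hB
      rw [Subgroup.mem_comap, ← pa_map]
      exact (le_sup_left : Eg (C.adS K') (D.sgl θ') ≤ NE D θ')
        ((pa_Eg D θ' _).2 ⟨GU.map φ v, map_mem_EE D θ θ' φ h v hv, rfl⟩)
    · rw [Subgroup.closure_le]
      rintro B ⟨c, hc, rfl⟩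
      rw [SetLike.mem_coe, Subgroup.mem_comap, mp_tad]
      refine (le_sup_right : _ ≤ NE D θ') (Subgroup.subset_closure ⟨_, fun i => ?_, rfl⟩)
      change φ (c (D.ρ i) : K) = θ' (φ (c i : K))
      rw [hc, h]
  exact h1 hA

theorem chain_stepE (hn : 0 < n) {G₁ G₂ : Type u} [Group G₁] [Group G₂] (X₁ : GD D tw G₁)
    (X₂ : GD D tw G₂) (ψ : G₁ →* G₂) (φ : X₁.K →+* X₂.K) (hφ : ∀ t, φ (X₁.θ t) = X₂.θ (φ t))
    (A : GL C.Idx X₂.K) (hA : A ∈ NE D X₂.θ)
    (h : ∀ x : EE D X₁.K X₁.θ, X₁.Psi X₂ ψ x = A * C.mp φ (pa C X₁.K x) * A⁻¹) :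
    ∃ f₂ : EE D X₂.K X₂.θ →* G₂, Function.Surjective f₂ ∧
      f₂.ker ≤ Subgroup.center (EE D X₂.K X₂.θ) ∧
      (∀ x, X₂.p (f₂ x) = A * pa C X₂.K x * A⁻¹) ∧
      ∀ x, ψ (X₁.f x) = f₂ (emap D X₁.θ X₂.θ φ hφ x) := by
  obtain ⟨α, hα⟩ := NE_aut X₂.θ A hA
  have hp : ∀ x, X₂.p ((X₂.f.comp α.toMonoidHom) x) = A * pa C X₂.K x * A⁻¹ := by
    intro x
    rw [MonoidHom.comp_apply]
    exact (X₂.hp _).trans (hα x)
  refine ⟨X₂.f.comp α.toMonoidHom, X₂.surj.comp α.surjective, ?_, hp, ?_⟩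
  · intro x hx
    have h1 : α x ∈ Subgroup.center (EE D X₂.K X₂.θ) := X₂.ker_le hx
    rw [Subgroup.mem_center_iff] at h1 ⊢
    intro y
    apply α.injective
    rw [map_mul, map_mul]
    exact h1 (α y)
  · have he := Kd.env D X₁.kd X₁.inf
    have h2 : ψ.comp X₁.f =
        (X₂.f.comp α.toMonoidHom).comp (emap D X₁.θ X₂.θ φ hφ) := by
      apply hom_eq he
      intro x
      refine ⟨((X₂.f.comp α.toMonoidHom).comp (emap D X₁.θ X₂.θ φ hφ) x)⁻¹ *
        (ψ.comp X₁.f) x, ?_, by group⟩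
      rw [← X₂.center_iff hn, map_mul, map_inv, MonoidHom.comp_apply (X₂.f.comp α.toMonoidHom),
        hp, emap_val, pa_map]
      have h3 := h x
      rw [GD.Psi_apply] at h3
      rw [MonoidHom.comp_apply, h3]
      group
    intro x
    exact DFunLike.congr_fun h2 x

end Pool.Agent.H75.UL
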