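import Mathlib

/-!
# Project UE, module L0: limits of fields with automorphisms

`Ring.DirectLimit` as in `C3_dirlim` (H75/UL/C3.lean; copy it). `θ` on the limit: let `p i y ↦ p i (θ i y)`:
well defined since if `p i y = p j y'` then both come from a common stage (`C3_f`, the `p i` are
injective, the transition maps commute with `θ`); or use `Ring.DirectLimit.lift` with the maps
`(p i).comp (θ i)` and the same for the inverse; the two compositions are the identity.
-/

set_option autoImplicit false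
universe u
namespace Pool.Agent.H75.UL

/-- the transition maps -/
private noncomputable def L0_f (K : ℕ → Type u) [∀ i, Field (K i)] (σ : ∀ i, K i →+* K (i + 1))
    (i j : ℕ) (h : i ≤ j) : K i →+* K j :=
  Nat.leRecOn (C := fun k => K i →+* K k) h (fun {k} g => (σ k).comp g) (RingHom.id _)

private theorem L0_f_self (K : ℕ → Type u) [∀ i, Field (K i)] (σ : ∀ i, K i →+* K (i + 1))
    (i : ℕ) (h : i ≤ i) : L0_f K σ i i h = RingHom.id _ := by
  unfold L0_f
  exact Nat.leRecOn_self _

private theorem L0_f_succ (K : ℕ → Type u) [∀ i, Field (K i)] (σ : ∀ i, K i →+* K (i + 1))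
    (i j : ℕ) (h : i ≤ j) (h' : i ≤ j + 1) :
    L0_f K σ i (j + 1) h' = (σ j).comp (L0_f K σ i j h) := by
  unfold L0_f
  exact Nat.leRecOn_succ h _

private theorem L0_f_comp (K : ℕ → Type u) [∀ i, Field (K i)] (σ : ∀ i, K i →+* K (i + 1))
    (i j k : ℕ) (hij : i ≤ j) (hjk : j ≤ k) (hik : i ≤ k) (x : K i) :
    L0_f K σ j k hjk (L0_f K σ i j hij x) = L0_f K σ i k hik x := by
  induction k, hjk using Nat.le_induction with
  | base => rw [L0_f_self]; rfl
  | succ k hk ih =>
    rw [L0_f_succ K σ j k hk, L0_f_succ K σ i k (hij.trans hk)]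
    rw [RingHom.comp_apply, RingHom.comp_apply, ih (hij.trans hk)]

private theorem L0_dirlim (K : ℕ → Type u) [∀ i, Field (K i)] (σ : ∀ i, K i →+* K (i + 1)) :
    ∃ (KK : Type u) (_ : Field KK) (p : ∀ i, K i →+* KK),
      (∀ i, (p (i + 1)).comp (σ i) = p i) ∧ ∀ x, ∃ i y, p i y = x := by
  have hds : DirectedSystem K (fun i j h => L0_f K σ i j h) :=
    { map_self := fun i x => by rw [L0_f_self]; rfl
      map_map := fun i j k hij hjk x => L0_f_comp K σ _ _ _ hij hjk _ x }
  refine ⟨Ring.DirectLimit K (fun i j h => L0_f K σ i j h),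
    Field.DirectLimit.field K (fun i j h => L0_f K σ i j h),
    fun i => Ring.DirectLimit.of K (fun i j h => L0_f K σ i j h) i, ?_, ?_⟩
  · intro i
    ext x
    have h1 := Ring.DirectLimit.of_f (G := K) (f := fun i j h => L0_f K σ i j h)
      (Nat.le_succ i) x
    rw [← h1]
    have h2 : L0_f K σ i (i + 1) (Nat.le_succ i) x = σ i x := by
      rw [L0_f_succ K σ i i le_rfl, L0_f_self]
      rfl
    change Ring.DirectLimit.of K (fun i j h => L0_f K σ i j h) (i + 1) (σ i x) =
      Ring.DirectLimit.of K (fun i j h => L0_f K σ i j h) (i + 1)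
        (L0_f K σ i (i + 1) (Nat.le_succ i) x)
    rw [h2]
  · intro x
    exact Ring.DirectLimit.exists_of x

theorem exists_limit_field (K : ℕ → Type u) [∀ i, Field (K i)] (θ : ∀ i, K i ≃+* K i)
    (φ : ∀ i, K i →+* K (i + 1)) (hφ : ∀ i t, φ i (θ i t) = θ (i + 1) (φ i t)) :
    ∃ (KK : Type u) (_ : Field KK) (p : ∀ i, K i →+* KK) (θθ : KK ≃+* KK),
      (∀ i t, p (i + 1) (φ i t) = p i t) ∧ (∀ x, ∃ i y, p i y = x) ∧
      ∀ i t, θθ (p i t) = p i (θ i t) := by
  obtain ⟨KK, hKK, p, hp, hps⟩ := L0_dirlim K φ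
  have hp' : ∀ i x, p (i + 1) (φ i x) = p i x := fun i x => by
    rw [← hp i]; rfl
  -- transport
  have htr : ∀ i j (_ : i ≤ j) (y : K i), ∃ y' : K j, p j y' = p i y ∧
      p j (θ j y') = p i (θ i y) := by
    intro i j hij y
    induction j, hij using Nat.le_induction with
    | base => exact ⟨y, rfl, rfl⟩
    | succ j _ ih =>
      obtain ⟨y', h1, h2⟩ := ih
      exact ⟨φ j y', (hp' j y').trans h1, by rw [← hφ, hp', h2]⟩
  have hwd : ∀ i j (y : K i) (y' : K j), p i y = p j y' → p i (θ i y) = p j (θ j y') := by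
    intro i j y y' h
    obtain ⟨y1, h1, h2⟩ := htr i (max i j) (le_max_left _ _) y
    obtain ⟨y2, h3, h4⟩ := htr j (max i j) (le_max_right _ _) y'
    have h5 : y1 = y2 := (p (max i j)).injective (by rw [h1, h3, h])
    rw [← h2, ← h4, h5]
  have hcom : ∀ s t : KK, ∃ k, ∃ s' t' : K k, p k s' = s ∧ p k t' = t := by
    intro s t
    obtain ⟨i, y, rfl⟩ := hps s
    obtain ⟨j, y', rfl⟩ := hps t
    obtain ⟨s', h1, -⟩ := htr i (max i j) (le_max_left _ _) y
    obtain ⟨t', h2, -⟩ := htr j (max i j) (le_max_right _ _) y'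
    exact ⟨_, s', t', h1, h2⟩
  obtain ⟨f, hf⟩ : ∃ f : KK → KK, ∀ i y, f (p i y) = p i (θ i y) := by
    choose ii yy hyy using hps
    exact ⟨fun x => p (ii x) (θ (ii x) (yy x)), fun i y => hwd _ _ _ _ (hyy (p i y))⟩
  let F : KK →+* KK :=
    { toFun := f
      map_one' := by
        have h := hf 0 1
        rw [map_one, map_one, map_one] at h
        exact h
      map_zero' := by
        have h := hf 0 0
        rw [map_zero, map_zero, map_zero] at h
        exact h
      map_mul' := by
        intro s t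
        obtain ⟨k, s', t', rfl, rfl⟩ := hcom s t
        rw [← map_mul, hf, hf, hf, map_mul, map_mul]
      map_add' := by
        intro s t
        obtain ⟨k, s', t', rfl, rfl⟩ := hcom s t
        rw [← map_add, hf, hf, hf, map_add, map_add] }
  have hbij : Function.Bijective F := by
    refine ⟨F.injective, fun x => ?_⟩
    obtain ⟨i, y, rfl⟩ := hps x
    refine ⟨p i ((θ i).symm y), ?_⟩
    change f _ = _
    rw [hf, RingEquiv.apply_symm_apply]
  exact ⟨KK, hKK, p, RingEquiv.ofBijective F hbij, hp', hps, fun i t => hf i t⟩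

end Pool.Agent.H75.UL
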