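import Pool.Agent.H75.UL.C3

/-!
# Project UE, module L1: limits of Steinberg systems

`exists_limSys`: as in the proof of `limit` in H75/UL/C3.lean (the construction of `SS` there, with `H i`
replaced by `G`). `GU_lim`: let `P = ∀ j, GU C (K j)`, `N` the normal subgroup of the sequences which are
eventually `1`, `G = P ⧸ N`. For each `i` there is a homomorphism `e i : GU C (K i) →* G`: the class of the
sequence `j ↦ GU.map (f i j) y` for `j ≥ i`, `1` for `j < i` (`f i j : K i →+* K j` the composed transition map,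
`C3_f`-like; it is a homomorphism modulo `N`, in fact `Pi`-wise). `e (i+1) (GU.map (φ i) y) = e i y`. Put
`S i = ` the system `x β t = e i (GU.x β t)` in `G`. `exists_limSys` gives `SS : StSys C KK G` with
`SS.x β (p i t) = e i (GU.x β t)`, so `GU.lift SS (GU.map (p i) y) = e i y` (`GU.hom_ext`). If
`GU.map (p i) y = 1` then `e i y = 1`, so `GU.map (f i j) y = 1` for all large `j`.
The transition maps are given by `F` below; `hF0`, `hF` are its recursion.
-/

set_option autoImplicit false
open Matrix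
universe u
namespace Pool.Agent.H75.UL

variable {n : ℕ} {C : SLC n}

private theorem L1_map_eq_inv {K K' : Type u} [Field K] [Field K'] (p : K →+* K') (t : K) :
    (p t)⁻¹ = p t⁻¹ := (map_inv₀ p t).symm

theorem exists_limSys {G : Type u} [Group G] (K : ℕ → Type u) [∀ i, Field (K i)]
    (φ : ∀ i, K i →+* K (i + 1)) (KK : Type u) [Field KK] (p : ∀ i, K i →+* KK)
    (hp : ∀ i t, p (i + 1) (φ i t) = p i t) (hps : ∀ x, ∃ i y, p i y = x)
    (S : ∀ i, StSys C (K i) G) (hS : ∀ i β t, (S (i + 1)).x β (φ i t) = (S i).x β t) :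
    ∃ SS : StSys C KK G, ∀ i β t, SS.x β (p i t) = (S i).x β t := by
  -- transport of scalars
  have htr : ∀ i j (_ : i ≤ j) (y : K i), ∃ y' : K j, p j y' = p i y ∧
      ∀ β, (S j).x β y' = (S i).x β y := by
    intro i j hij y
    induction j, hij using Nat.le_induction with
    | base => exact ⟨y, rfl, fun _ => rfl⟩
    | succ j _ ih =>
      obtain ⟨y', h1, h2⟩ := ih
      exact ⟨φ j y', (hp j y').trans h1, fun β => (hS j β y').trans (h2 β)⟩
  have hwd : ∀ i j (y : K i) (y' : K j), p i y = p j y' → ∀ β,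
      (S i).x β y = (S j).x β y' := by
    intro i j y y' h β
    obtain ⟨y1, h1, h2⟩ := htr i (max i j) (le_max_left _ _) y
    obtain ⟨y2, h3, h4⟩ := htr j (max i j) (le_max_right _ _) y'
    have h5 : y1 = y2 := (p (max i j)).injective (by rw [h1, h3, h])
    rw [← h2 β, ← h4 β, h5]
  choose ii yy hyy using hps
  -- the root elements
  set x : C.Root → KK → G := fun β t => (S (ii t)).x β (yy t) with hx
  have hxp : ∀ i (y : K i) β, x β (p i y) = (S i).x β y := fun i y β =>
    hwd _ _ _ _ (hyy (p i y)) β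
  have hcom : ∀ s t : KK, ∃ k, ∃ s' t' : K k, p k s' = s ∧ p k t' = t := by
    intro s t
    obtain ⟨s', h1, -⟩ := htr (ii s) (max (ii s) (ii t)) (le_max_left _ _) (yy s)
    obtain ⟨t', h2, -⟩ := htr (ii t) (max (ii s) (ii t)) (le_max_right _ _) (yy t)
    exact ⟨_, s', t', h1.trans (hyy s), h2.trans (hyy t)⟩
  have hnn : ∀ k (t : K k) α, nn x α (p k t) = nn (S k).x α t := by
    intro k t α
    unfold nn
    rw [L1_map_eq_inv, hxp, hxp]
  have hhh : ∀ k (t : K k) α, hh x α (p k t) = hh (S k).x α t := by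
    intro k t α
    have h1 : (-1 : KK) = p k (-1) := by rw [map_neg, map_one]
    unfold hh
    rw [h1, hnn, hnn]
  refine ⟨{ x := x
            map_add := ?_
            comm := ?_
            comm_add := ?_
            n_conj := ?_
            h_mul := ?_ }, fun i β t => hxp i t β⟩
  · intro β s t
    obtain ⟨k, s', t', rfl, rfl⟩ := hcom s t
    rw [← map_add, hxp, hxp, hxp, (S k).map_add]
  · intro α β s t h
    obtain ⟨k, s', t', rfl, rfl⟩ := hcom s t
    rw [hxp, hxp]
    exact (S k).comm α β s' t' h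
  · intro α β γ s t h
    obtain ⟨k, s', t', rfl, rfl⟩ := hcom s t
    have h1 : (C.eps α.1 β.1 : KK) * p k s' * p k t' = p k ((C.eps α.1 β.1 : K k) * s' * t') := by
      rw [map_mul, map_mul, map_intCast]
    rw [h1, hxp, hxp, hxp]
    exact (S k).comm_add α β γ s' t' h
  · intro α t u ht
    obtain ⟨k, t', u', rfl, rfl⟩ := hcom t u
    have ht' : t' ≠ 0 := fun h => ht (by rw [h, map_zero])
    have h1 : (p k t')⁻¹ ^ 2 * p k u' = p k (t'⁻¹ ^ 2 * u') := by
      rw [map_mul, map_pow, map_inv₀]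
    rw [h1, hnn, hxp, hxp]
    exact (S k).n_conj α t' u' ht'
  · intro α s t hs ht
    obtain ⟨k, s', t', rfl, rfl⟩ := hcom s t
    have hs' : s' ≠ 0 := fun h => hs (by rw [h, map_zero])
    have ht' : t' ≠ 0 := fun h => ht (by rw [h, map_zero])
    rw [← map_mul, hhh, hhh, hhh]
    exact (S k).h_mul α s' t' hs' ht'

/-- the eventually trivial sequences -/
private def L1_N (P : ℕ → Type u) [∀ j, Group (P j)] : Subgroup (∀ j, P j) where
  carrier := {s | ∃ k, ∀ j, k ≤ j → s j = 1}
  mul_mem' := by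
    rintro a b ⟨k, hk⟩ ⟨l, hl⟩
    refine ⟨max k l, fun j hj => ?_⟩
    rw [Pi.mul_apply, hk j ((le_max_left _ _).trans hj), hl j ((le_max_right _ _).trans hj),
      mul_one]
  one_mem' := ⟨0, fun _ _ => rfl⟩
  inv_mem' := by
    rintro a ⟨k, hk⟩
    exact ⟨k, fun j hj => by rw [Pi.inv_apply, hk j hj, inv_one]⟩

private theorem L1_N_normal (P : ℕ → Type u) [∀ j, Group (P j)] : (L1_N P).Normal := by
  constructor
  rintro a ⟨k, hk⟩ g
  exact ⟨k, fun j hj => by
    rw [Pi.mul_apply, Pi.mul_apply, hk j hj, mul_one, Pi.inv_apply, mul_inv_cancel]⟩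

/-- The image of a Steinberg system under a homomorphism. -/
private def L1_map {K : Type*} [Field K] {H H' : Type*} [Group H] [Group H'] (S : StSys C K H)
    (f : H →* H') : StSys C K H' where
  x := fun β t => f (S.x β t)
  map_add := fun β s t => by rw [S.map_add, map_mul]
  comm := fun α β s t h => by rw [← map_mul, ← map_mul, S.comm α β s t h]
  comm_add := fun α β γ s t h => by
    rw [← S.comm_add α β γ s t h]; simp only [map_mul, map_inv]
  n_conj := fun α t u ht => by
    rw [← S.n_conj α t u ht]; simp only [nn, map_mul, map_inv]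
  h_mul := fun α s t hs ht => by
    have h := congrArg f (S.h_mul α s t hs ht)
    simpa only [hh, nn, map_mul] using h

theorem GU_lim (K : ℕ → Type u) [∀ i, Field (K i)]
    (φ : ∀ i, K i →+* K (i + 1)) (KK : Type u) [Field KK] (p : ∀ i, K i →+* KK)
    (hp : ∀ i t, p (i + 1) (φ i t) = p i t) (hps : ∀ x, ∃ i y, p i y = x)
    (F : ∀ i j : ℕ, i ≤ j → (K i →+* K j)) (hF0 : ∀ i t, F i i le_rfl t = t)
    (hF : ∀ i j (h : i ≤ j) t, F i (j + 1) (h.trans (Nat.le_succ j)) t = φ j (F i j h t))
    (i : ℕ) (y : GU C (K i)) (hy : GU.map (p i) y = 1) :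
    ∃ (j : ℕ) (h : i ≤ j), GU.map (F i j h) y = 1 := by
  have hFφ : ∀ i j (h : i + 1 ≤ j) t, F (i + 1) j h (φ i t) =
      F i j ((Nat.le_succ i).trans h) t := by
    intro i j h
    induction j, h using Nat.le_induction with
    | base =>
      intro t
      rw [hF0, hF i i le_rfl, hF0]
    | succ j hj ih =>
      intro t
      rw [hF (i + 1) j hj, ih, ← hF i j ((Nat.le_succ i).trans hj)]
  let P : ℕ → Type u := fun j => GU C (K j)
  let E : ∀ i, GU C (K i) →* (∀ j, P j) := fun i =>
    MonoidHom.pi fun j => if h : i ≤ j then GU.map (F i j h) else 1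
  have hE : ∀ i y j (h : i ≤ j), E i y j = GU.map (F i j h) y := by
    intro i y j h
    change (if h : i ≤ j then GU.map (F i j h) else 1) y = _
    rw [dif_pos h]
  have hN := L1_N_normal P
  let e : ∀ i, GU C (K i) →* ((∀ j, P j) ⧸ L1_N P) := fun i => (QuotientGroup.mk' (L1_N P)).comp (E i)
  have hmm : ∀ i j (h : i + 1 ≤ j) (y : GU C (K i)),
      GU.map (F (i + 1) j h) (GU.map (φ i) y) = GU.map (F i j ((Nat.le_succ i).trans h)) y := by
    intro i j h y
    have h1 : (GU.map (C := C) (F (i + 1) j h)).comp (GU.map (φ i)) =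
        GU.map (F i j ((Nat.le_succ i).trans h)) := by
      apply GU.hom_ext
      intro β t
      rw [MonoidHom.comp_apply, GU.map_x, GU.map_x, GU.map_x, hFφ]
    rw [← h1]
    rfl
  have he : ∀ i (y : GU C (K i)), e (i + 1) (GU.map (φ i) y) = e i y := by
    intro i y
    change QuotientGroup.mk' (L1_N P) (E (i + 1) (GU.map (φ i) y)) =
      QuotientGroup.mk' (L1_N P) (E i y)
    rw [QuotientGroup.mk'_eq_mk']
    refine ⟨(E (i + 1) (GU.map (φ i) y))⁻¹ * E i y, ⟨i + 1, fun j hj => ?_⟩,
      mul_inv_cancel_left _ _⟩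
    rw [Pi.mul_apply, Pi.inv_apply, hE _ _ _ hj, hE _ _ _ ((Nat.le_succ i).trans hj), hmm,
      inv_mul_cancel]
  obtain ⟨SS, hSS⟩ := exists_limSys (C := C) K φ KK p hp hps
    (fun i => L1_map (GU.sys C (K i)) (e i)) (by
      intro i β t
      change e (i + 1) (GU.x C (K (i + 1)) β (φ i t)) = e i (GU.x C (K i) β t)
      rw [← he i, GU.map_x])
  have hlift : ∀ i (y : GU C (K i)), GU.lift SS (GU.map (p i) y) = e i y := by
    intro i y
    have h1 : (GU.lift SS).comp (GU.map (p i)) = e i := by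
      apply GU.hom_ext
      intro β t
      rw [MonoidHom.comp_apply, GU.map_x, GU.lift_x, hSS]
      rfl
    exact congrArg (fun f : GU C (K i) →* ((∀ j, P j) ⧸ L1_N P) => f y) h1
  have h1 := hlift i y
  rw [hy, map_one] at h1
  have h2 : E i y ∈ L1_N P := by
    have h3 : QuotientGroup.mk' (L1_N P) (E i y) = 1 := h1.symm
    rwa [← MonoidHom.mem_ker, QuotientGroup.ker_mk'] at h3
  obtain ⟨k, hk⟩ := h2
  refine ⟨max i k, le_max_left _ _, ?_⟩
  rw [← hE i y _ (le_max_left _ _)]
  exact hk _ (le_max_right _ _)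

end Pool.Agent.H75.UL
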