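import Pool.Agent.H75.UE.L0
import Pool.Agent.H75.UE.L1
import Pool.Agent.H75.UE.E1
import Pool.Agent.H75.UE.E2

/-!
# Project UE, module L3: the limit

`exists_limit_field` gives `KK`, `p i`, `θθ`. Let `F i j : K i →+* K j` be the transition maps (recursion, as
`C3_f`), commuting with `θ`. `Kd D tw θθ`: `Kd.limit` (`h1` from joint surjectivity).
(1) Every `x ∈ EE D KK θθ` is `GU.map (p i) y` for some `i` and `y ∈ EE D (K i) (θ i)`: the set of such `x` is a
subgroup (transport to a common stage by `map_mem_EE`); for `x ∈ fixU`: `x = lp posList t` (`exists_lp`), all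
`t β` come from a stage `i`: `x = GU.map (p i) y`, `y = lp posList t' ∈ U 1`, and `GU.map (p i) (sig y) =
sig x = x = GU.map (p i) y` (`GU_map_sig`), so `pa` of both sides and `pa_map`, `mp_injective` give
`pa (sig y) = pa y`, `sig y = y` (`pa_injOn_U`, `map_U`); the same for `Um`.
(2) If `y, y' ∈ EE D (K i) (θ i)`, `GU.map (p i) y = GU.map (p i) y'` then `f i y = f i y'` in `G`: by `GU_lim`
`GU.map (F i j) y = GU.map (F i j) y'` for some `j ≥ i`, and `(f j (GU.map (F i j) y) : G) = f i y` (`hcomp`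
iterated). So `FF : EE D KK θθ →* G`, `FF (GU.map (p i) y) = f i y`, is well defined and a homomorphism.
(3) surjective: `hG`, `hf`. (4) If `FF x = 1`, `x = GU.map (p i) y`, then `f j (y_j) = 1` for all `j ≥ i`
(`y_j` the image of `y`), so `y_j` is central in `EE D (K j) (θ j)` and commutes with the images of all
`z ∈ EE D KK θθ` defined at stage `j`; so `x` is central.
-/

set_option autoImplicit false
open Matrix
universe u
namespace Pool.Agent.H75.UL

open Pool.Agent.H86.UM

variable {n : ℕ} {C : SLC n} {D : Dg C} {tw : Bool}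

/-- the transition maps -/
private noncomputable def L3_f (K : ℕ → Type u) [∀ i, Field (K i)] (σ : ∀ i, K i →+* K (i + 1))
    (i j : ℕ) (h : i ≤ j) : K i →+* K j :=
  Nat.leRecOn (C := fun k => K i →+* K k) h (fun {k} g => (σ k).comp g) (RingHom.id _)

private theorem L3_f_self (K : ℕ → Type u) [∀ i, Field (K i)] (σ : ∀ i, K i →+* K (i + 1))
    (i : ℕ) (h : i ≤ i) : L3_f K σ i i h = RingHom.id _ := by
  unfold L3_f
  exact Nat.leRecOn_self _

private theorem L3_f_succ (K : ℕ → Type u) [∀ i, Field (K i)] (σ : ∀ i, K i →+* K (i + 1))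
    (i j : ℕ) (h : i ≤ j) (h' : i ≤ j + 1) :
    L3_f K σ i (j + 1) h' = (σ j).comp (L3_f K σ i j h) := by
  unfold L3_f
  exact Nat.leRecOn_succ h _

private theorem L3_f_theta (K : ℕ → Type u) [∀ i, Field (K i)] (σ : ∀ i, K i →+* K (i + 1))
    (θ : ∀ i, K i ≃+* K i) (hσ : ∀ i t, σ i (θ i t) = θ (i + 1) (σ i t))
    (i j : ℕ) (h : i ≤ j) (t : K i) : L3_f K σ i j h (θ i t) = θ j (L3_f K σ i j h t) := by
  induction j, h using Nat.le_induction with
  | base => rw [L3_f_self]; rfl
  | succ j hj ih =>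
    rw [L3_f_succ K σ i j hj, RingHom.comp_apply, RingHom.comp_apply, ih, hσ]

private theorem L3_map_id (K : Type u) [Field K] (y : GU C K) :
    GU.map (RingHom.id K) y = y := by
  have h1 : GU.map (C := C) (RingHom.id K) = MonoidHom.id _ := by
    apply GU.hom_ext
    intro β t
    rw [GU.map_x]
    rfl
  rw [h1]
  rfl

private theorem L3_map_comp {K K' K'' : Type u} [Field K] [Field K'] [Field K'']
    (f : K →+* K') (g : K' →+* K'') (g' : K →+* K'') (h : ∀ t, g (f t) = g' t) (y : GU C K) :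
    GU.map g (GU.map f y) = GU.map g' y := by
  have h1 : (GU.map (C := C) g).comp (GU.map f) = GU.map g' := by
    apply GU.hom_ext
    intro β t
    rw [MonoidHom.comp_apply, GU.map_x, GU.map_x, GU.map_x, h]
  exact congrArg (fun f : GU C K →* GU C K'' => f y) h1

private theorem L3_map_lp {K K' : Type u} [Field K] [Field K'] (φ : K →+* K')
    (l : List C.Root) (t : C.Root → K) :
    GU.map φ ((GU.sys C K).lp l t) = (GU.sys C K').lp l (fun β => φ (t β)) := by
  unfold StSys.lp
  rw [map_list_prod, List.map_map]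
  refine congrArg List.prod (List.map_congr_left fun β _ => ?_)
  exact GU.map_x φ β (t β)

private theorem L3_map_nlp {K K' : Type u} [Field K] [Field K'] (φ : K →+* K')
    (l : List C.Root) (t : C.Root → K) :
    GU.map φ ((GU.sys C K).neg.lp l t) = (GU.sys C K').neg.lp l (fun β => φ (t β)) := by
  unfold StSys.lp
  rw [map_list_prod, List.map_map]
  refine congrArg List.prod (List.map_congr_left fun β _ => ?_)
  exact GU.map_x φ (-β) (t β)

private theorem L3_fix {K K' : Type u} [Field K] [Field K'] (θ : K ≃+* K) (θ' : K' ≃+* K')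
    (φ : K →+* K') (h : ∀ t, φ (θ t) = θ' (φ t)) (y : GU C K) (hy : y ∈ (GU.sys C K).U 1)
    (hx : D.sig θ' (GU.map φ y) = GU.map φ y) : D.sig θ y = y := by
  apply pa_injOn_U _ _ ((isSig_GU D θ).map_U 1 y hy) hy
  apply C.mp_injective φ φ.injective
  rw [← pa_map, ← pa_map, GU_map_sig D θ θ' φ h, hx]

private theorem L3_fixm {K K' : Type u} [Field K] [Field K'] (θ : K ≃+* K) (θ' : K' ≃+* K')
    (φ : K →+* K') (h : ∀ t, φ (θ t) = θ' (φ t)) (y : GU C K) (hy : y ∈ (GU.sys C K).Um)
    (hx : D.sig θ' (GU.map φ y) = GU.map φ y) : D.sig θ y = y := by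
  apply pa_injOn_Um _ _ ((isSig_GU D θ).map_Um y hy) hy
  apply C.mp_injective φ φ.injective
  rw [← pa_map, ← pa_map, GU_map_sig D θ θ' φ h, hx]

/-- finitely many elements of the limit come from a common stage -/
private theorem L3_stage (K : ℕ → Type u) [∀ i, Field (K i)] (φ : ∀ i, K i →+* K (i + 1))
    {KK : Type u} [Field KK] (p : ∀ i, K i →+* KK) (hp : ∀ i t, p (i + 1) (φ i t) = p i t)
    (hps : ∀ x, ∃ i y, p i y = x) {ι : Type*} [Finite ι] (t : ι → KK) :
    ∃ i, ∃ t' : ι → K i, ∀ β, p i (t' β) = t β := by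
  have htr : ∀ i j (_ : i ≤ j) (y : K i), ∃ y' : K j, p j y' = p i y := by
    intro i j hij y
    induction j, hij using Nat.le_induction with
    | base => exact ⟨y, rfl⟩
    | succ j _ ih =>
      obtain ⟨y', h1⟩ := ih
      exact ⟨φ j y', (hp j y').trans h1⟩
  choose ii yy hyy using fun β => hps (t β)
  obtain ⟨M, hM⟩ := (Set.finite_range ii).bddAbove
  have h1 : ∀ β, ∃ y' : K M, p M y' = t β := by
    intro β
    obtain ⟨y', hy'⟩ := htr (ii β) M (hM ⟨β, rfl⟩) (yy β)
    exact ⟨y', hy'.trans (hyy β)⟩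
  choose t' ht' using h1
  exact ⟨M, t', ht'⟩

theorem limitE {G : Type u} [Group G] (H : ℕ → Subgroup G) (hH : ∀ i, H i ≤ H (i + 1))
    (hG : ∀ g : G, ∃ i, g ∈ H i) (K : ℕ → Type u) [∀ i, Field (K i)] (θ : ∀ i, K i ≃+* K i)
    (hk : ∀ i, Kd D tw (θ i)) (φ : ∀ i, K i →+* K (i + 1))
    (hφ : ∀ i t, φ i (θ i t) = θ (i + 1) (φ i t))
    (f : ∀ i, EE D (K i) (θ i) →* H i) (hf : ∀ i, Function.Surjective (f i))
    (hker : ∀ i, (f i).ker ≤ Subgroup.center (EE D (K i) (θ i)))
    (hcomp : ∀ i x, Subgroup.inclusion (hH i) (f i x) =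
      f (i + 1) (emap D (θ i) (θ (i + 1)) (φ i) (hφ i) x)) : IsE D tw G := by
  obtain ⟨KK, hKK, p, θθ, hp, hps, hθθ⟩ := exists_limit_field K θ φ hφ
  have hpθ : ∀ i t, p i (θ i t) = θθ (p i t) := fun i t => (hθθ i t).symm
  have hkd : Kd D tw θθ := by
    refine Kd.limit D (hk 0) θθ (p 0) (hpθ 0) ?_
    intro t'
    obtain ⟨i, t, ht⟩ := hps t'
    exact ⟨K i, inferInstance, θ i, p i, t, hk i, hpθ i, ht⟩
  -- the maps from the stages
  set e : ∀ i, EE D (K i) (θ i) →* EE D KK θθ := fun i => emap D (θ i) θθ (p i) (hpθ i) with he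
  have heval : ∀ i y, (e i y : GU C KK) = GU.map (p i) (y : GU C (K i)) := fun i y => rfl
  have hstep : ∀ i (y : EE D (K i) (θ i)),
      e (i + 1) (emap D (θ i) (θ (i + 1)) (φ i) (hφ i) y) = e i y := by
    intro i y
    apply Subtype.ext
    rw [heval, heval, emap_val]
    exact L3_map_comp (φ i) (p (i + 1)) (p i) (hp i) y.1
  have hcG : ∀ i (y : EE D (K i) (θ i)),
      ((f (i + 1) (emap D (θ i) (θ (i + 1)) (φ i) (hφ i) y) : H (i + 1)) : G) =
        ((f i y : H i) : G) := by
    intro i y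
    rw [← hcomp i y]
    rfl
  have htrE : ∀ i j (_ : i ≤ j) (y : EE D (K i) (θ i)), ∃ y' : EE D (K j) (θ j),
      e j y' = e i y ∧ ((f j y' : H j) : G) = ((f i y : H i) : G) := by
    intro i j hij y
    induction j, hij using Nat.le_induction with
    | base => exact ⟨y, rfl, rfl⟩
    | succ j _ ih =>
      obtain ⟨y', h1, h2⟩ := ih
      exact ⟨emap D (θ j) (θ (j + 1)) (φ j) (hφ j) y', (hstep j y').trans h1,
        (hcG j y').trans h2⟩
  -- the homomorphisms along the transition maps
  have hFθ := L3_f_theta K φ θ hφ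
  have hfF : ∀ i j (h : i ≤ j) (y : EE D (K i) (θ i)),
      ((f j (emap D (θ i) (θ j) (L3_f K φ i j h) (hFθ i j h) y) : H j) : G) =
        ((f i y : H i) : G) := by
    intro i j h y
    induction j, h using Nat.le_induction with
    | base =>
      congr 2
      apply Subtype.ext
      rw [emap_val, L3_f_self]
      exact L3_map_id (K i) y.1
    | succ j hj ih =>
      rw [← ih, ← hcG j]
      congr 2
      apply Subtype.ext
      rw [emap_val, emap_val, emap_val]
      refine (L3_map_comp _ _ _ (fun t => ?_) _).symm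
      rw [L3_f_succ K φ i j hj]
      rfl
  have hinj : ∀ i (y : EE D (K i) (θ i)), e i y = 1 → ((f i y : H i) : G) = 1 := by
    intro i y hy
    have h1 : GU.map (p i) (y : GU C (K i)) = 1 := by
      rw [← heval, hy]
      rfl
    obtain ⟨j, hij, h2⟩ := GU_lim K φ KK p hp hps (L3_f K φ)
      (fun i t => by rw [L3_f_self]; rfl)
      (fun i j h t => by rw [L3_f_succ K φ i j h]; rfl) i y.1 h1
    rw [← hfF i j hij y]
    have h3 : emap D (θ i) (θ j) (L3_f K φ i j hij) (hFθ i j hij) y = 1 := by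
      apply Subtype.ext
      rw [emap_val, h2]
      rfl
    rw [h3, map_one]
    rfl
  have hwd : ∀ i j (y : EE D (K i) (θ i)) (y' : EE D (K j) (θ j)), e i y = e j y' →
      ((f i y : H i) : G) = ((f j y' : H j) : G) := by
    intro i j y y' h
    obtain ⟨y1, h1, h2⟩ := htrE i (max i j) (le_max_left _ _) y
    obtain ⟨y2, h3, h4⟩ := htrE j (max i j) (le_max_right _ _) y'
    have h5 : e (max i j) (y1⁻¹ * y2) = 1 := by
      rw [map_mul, map_inv, h1, h3, h, inv_mul_cancel]
    have h6 := hinj _ _ h5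
    rw [map_mul, map_inv, Subgroup.coe_mul, Subgroup.coe_inv, inv_mul_eq_one] at h6
    rw [← h2, ← h4, h6]
  -- every element comes from a stage
  have hsurj : ∀ x : EE D KK θθ, ∃ i, ∃ y : EE D (K i) (θ i), e i y = x := by
    let S : Subgroup (GU C KK) :=
      { carrier := {x | ∃ i, ∃ y : EE D (K i) (θ i), (e i y : GU C KK) = x}
        one_mem' := ⟨0, 1, by rw [map_one]; rfl⟩
        mul_mem' := by
          rintro a b ⟨i, y, rfl⟩ ⟨j, z, rfl⟩
          obtain ⟨y1, h1, -⟩ := htrE i (max i j) (le_max_left _ _) y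
          obtain ⟨z1, h2, -⟩ := htrE j (max i j) (le_max_right _ _) z
          exact ⟨max i j, y1 * z1, by rw [map_mul, h1, h2]; rfl⟩
        inv_mem' := by
          rintro a ⟨i, y, rfl⟩
          exact ⟨i, y⁻¹, by rw [map_inv]; rfl⟩ }
    have h1 : EE D KK θθ ≤ S := by
      refine sup_le ?_ ?_
      · rintro u ⟨hu, hs⟩
        have hs' : D.sig θθ u = u := hs
        obtain ⟨t, ht0, rfl⟩ := (GU.sys C KK).exists_lp 1 le_rfl u hu
        obtain ⟨i, t', ht'⟩ := L3_stage K φ p hp hps t
        have h2 : GU.map (p i) ((GU.sys C (K i)).lp C.posList t') =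
            (GU.sys C KK).lp C.posList t := by
          rw [L3_map_lp]
          congr 1
          funext β
          exact ht' β
        have h3 : (GU.sys C (K i)).lp C.posList t' ∈ (GU.sys C (K i)).U 1 := by
          apply (GU.sys C (K i)).lp_mem 1
          intro β hβ
          have h5 := ht' β
          rw [ht0 β hβ] at h5
          exact (map_eq_zero (p i)).1 h5
        have h4 : D.sig (θ i) ((GU.sys C (K i)).lp C.posList t') =
            (GU.sys C (K i)).lp C.posList t' := by
          apply L3_fix (θ i) θθ (p i) (hpθ i) _ h3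
          rw [h2, hs']
        exact ⟨i, ⟨_, (le_sup_left : fixU (GU.sys C (K i)) (D.sig (θ i)) ≤ _) ⟨h3, h4⟩⟩, h2⟩
      · rintro u ⟨hu, hs⟩
        have hs' : D.sig θθ u = u := hs
        have hu' : u ∈ (GU.sys C KK).neg.U 1 := by
          rw [StSys.neg_U]
          exact hu
        obtain ⟨t, ht0, rfl⟩ := (GU.sys C KK).neg.exists_lp 1 le_rfl u hu'
        obtain ⟨i, t', ht'⟩ := L3_stage K φ p hp hps t
        have h2 : GU.map (p i) ((GU.sys C (K i)).neg.lp C.posList t') =
            (GU.sys C KK).neg.lp C.posList t := by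
          rw [L3_map_nlp]
          congr 1
          funext β
          exact ht' β
        have h3 : (GU.sys C (K i)).neg.lp C.posList t' ∈ (GU.sys C (K i)).Um := by
          rw [← StSys.neg_U]
          apply (GU.sys C (K i)).neg.lp_mem 1
          intro β hβ
          have h5 := ht' β
          rw [ht0 β hβ] at h5
          exact (map_eq_zero (p i)).1 h5
        have h4 : D.sig (θ i) ((GU.sys C (K i)).neg.lp C.posList t') =
            (GU.sys C (K i)).neg.lp C.posList t' := by
          apply L3_fixm (θ i) θθ (p i) (hpθ i) _ h3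
          rw [h2, hs']
        exact ⟨i, ⟨_, (le_sup_right : fixUm (GU.sys C (K i)) (D.sig (θ i)) ≤ _) ⟨h3, h4⟩⟩, h2⟩
    intro x
    obtain ⟨i, y, hy⟩ := h1 x.2
    exact ⟨i, y, Subtype.ext hy⟩
  choose ii yy hyy using hsurj
  have hFF : ∀ i (y : EE D (K i) (θ i)),
      ((f (ii (e i y)) (yy (e i y)) : H (ii (e i y))) : G) = ((f i y : H i) : G) :=
    fun i y => hwd _ _ _ _ (hyy (e i y))
  let FF : EE D KK θθ →* G := MonoidHom.mk' (fun x => ((f (ii x) (yy x) : H (ii x)) : G)) (by
    intro a b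
    obtain ⟨y1, h1, -⟩ := htrE (ii a) (max (ii a) (ii b)) (le_max_left _ _) (yy a)
    obtain ⟨y2, h2, -⟩ := htrE (ii b) (max (ii a) (ii b)) (le_max_right _ _) (yy b)
    have ha : e _ y1 = a := h1.trans (hyy a)
    have hb : e _ y2 = b := h2.trans (hyy b)
    have hab : e _ (y1 * y2) = a * b := by rw [map_mul, ha, hb]
    have e1 := hFF _ y1
    have e2 := hFF _ y2
    have e3 := hFF _ (y1 * y2)
    rw [ha] at e1
    rw [hb] at e2
    rw [hab] at e3
    rw [e1, e2, e3, map_mul]
    rfl)
  have hFFe : ∀ i (y : EE D (K i) (θ i)), FF (e i y) = ((f i y : H i) : G) := hFF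
  refine ⟨KK, hKK, θθ, hkd, FF, ?_, ?_⟩
  · intro g
    obtain ⟨i, hi⟩ := hG g
    obtain ⟨y, hy⟩ := hf i ⟨g, hi⟩
    exact ⟨e i y, by rw [hFFe, hy]⟩
  · intro x hx
    rw [MonoidHom.mem_ker] at hx
    rw [Subgroup.mem_center_iff]
    intro z
    obtain ⟨x1, h1, -⟩ := htrE (ii x) (max (ii x) (ii z)) (le_max_left _ _) (yy x)
    obtain ⟨z1, h2, -⟩ := htrE (ii z) (max (ii x) (ii z)) (le_max_right _ _) (yy z)
    have hx' : e _ x1 = x := h1.trans (hyy x)
    have hz' : e _ z1 = z := h2.trans (hyy z)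
    have h3 : f _ x1 = 1 := by
      apply Subtype.ext
      rw [← hFFe, hx', hx]
      rfl
    have h4 := hker _ ((MonoidHom.mem_ker).2 h3)
    rw [Subgroup.mem_center_iff] at h4
    have h5 := congrArg (e (max (ii x) (ii z))) (h4 z1)
    rw [map_mul, map_mul, hx', hz'] at h5
    exact h5

end Pool.Agent.H75.UL
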