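import Pool.Agent.H75.UE.M1a
import Pool.Agent.H75.UE.E8
import Pool.Agent.H75.UE.L3

/-!
# Project UE, module M1: the theorem for one type

As in `main_one` (H75/UL/C4.lean) choose a strictly increasing `ψ₀ k`, starting after an infinite member,
with `IsE D tw (H (ψ₀ k))`, and `X k : GD D tw (H (ψ₀ k))` (`exists_GD`; all these groups are infinite). For
`i ≤ j` let `inc i j : H (ψ₀ i) →* H (ψ₀ j)` be the inclusion. `exists_seq` for
`P i j π = ∃ h : i ≤ j, PE (X i) (X j) (inc) π` on `Equiv.Perm D.Orb` (`exists_exact`, `PE_comp`) gives a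
subsequence with `P (φ₁ a) (φ₁ b) 1`. If `D.m ≠ 3` then `FF` holds for consecutive members
(`functorial_of_PE`). If `D.m = 3` apply `exists_seq` again with `Q = (ZMod 3)ˣ` and `PR` (`PR_exists`,
`PR_comp`), so `FF` for consecutive members of a subsequence (`functorial_of_PR`). So in both cases there is a
strictly increasing `ψ k` with `Y k : GD D tw (H (ψ k))` and `FF (Y k) (Y (k+1)) inc`. Recursion with
`stepE`, starting with `f = (Y 0).f`, `B = 1`; `limitE`.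
-/

set_option autoImplicit false
open Matrix
universe u
namespace Pool.Agent.H75.UL

open Pool.Agent.H86.UM

variable {n : ℕ} {C : SLC n} {D : Dg C} {tw : Bool}

theorem main_D (hn : 0 < n) (G : Type u) [Group G] (H : ℕ → Subgroup G) (hH : Monotone H)
    (hG : ∀ g : G, ∃ i, g ∈ H i) (hA : ∀ m : ℕ, ∃ i, m ≤ i ∧ IsE D tw (H i))
    (hinf : ∃ i, Infinite (H i)) : IsE D tw G := by
  obtain ⟨i₀, hi₀⟩ := hinf
  choose φ hφ hφA using hA
  -- a subsequence of members of the given type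
  let ψ₀ : ℕ → ℕ := fun k => Nat.rec (φ i₀) (fun _ m => φ (m + 1)) k
  have hψA : ∀ k, IsE D tw (H (ψ₀ k)) := by
    intro k
    cases k with
    | zero => exact hφA i₀
    | succ k => exact hφA (ψ₀ k + 1)
  have hψlt : ∀ k, ψ₀ k < ψ₀ (k + 1) := fun k => Nat.lt_of_succ_le (hφ (ψ₀ k + 1))
  have hψmono : StrictMono ψ₀ := strictMono_nat_of_lt_succ hψlt
  have hψi : i₀ ≤ ψ₀ 0 := hφ i₀
  have hInf : ∀ k, Infinite (H (ψ₀ k)) := fun k =>
    Infinite.of_injective _ (Subgroup.inclusion_injective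
      (hH (hψi.trans (hψmono.monotone (Nat.zero_le k)))))
  have hX : ∀ k, Nonempty (GD D tw (H (ψ₀ k))) := by
    intro k
    have := hInf k
    exact exists_GD hn (hψA k)
  let X : ∀ k, GD D tw (H (ψ₀ k)) := fun k => Classical.choice (hX k)
  have hlt : ∀ i j, i < j → H (ψ₀ i) ≤ H (ψ₀ j) := fun i j h => hH (hψmono h).le
  have hcompE : ∀ i j k (h : H (ψ₀ i) ≤ H (ψ₀ j)) (h' : H (ψ₀ j) ≤ H (ψ₀ k)),
      (Subgroup.inclusion h').comp (Subgroup.inclusion h) = Subgroup.inclusion (h.trans h') :=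
    fun i j k h h' => rfl
  obtain ⟨φ₁, hφ₁, hP⟩ := exists_seq (Q := Equiv.Perm D.Orb)
    (fun i j π => ∃ h : H (ψ₀ i) ≤ H (ψ₀ j), PE (X i) (X j) (Subgroup.inclusion h) π)
    (by
      intro i j hij
      obtain ⟨g, hg, π, hπ⟩ := GD.exists_exact (X i) (X j) (Subgroup.inclusion (hlt i j hij)) hn
        (Subgroup.inclusion_injective _)
      exact ⟨π, hlt i j hij, g, hg, hπ⟩)
    (by
      rintro i j k a b - - ⟨h, ha⟩ ⟨h', hb⟩
      refine ⟨h.trans h', ?_⟩
      rw [← hcompE i j k h h']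
      exact PE_comp (X i) (X j) (X k) (Subgroup.inclusion h) (Subgroup.inclusion h') hn
        (Subgroup.inclusion_injective _) (Subgroup.inclusion_injective _) a b ha hb)
  -- a subsequence with the functorial form
  have key : ∃ χ : ℕ → ℕ, StrictMono χ ∧ ∀ k, ∃ h : H (ψ₀ (χ k)) ≤ H (ψ₀ (χ (k + 1))),
      FF (X (χ k)) (X (χ (k + 1))) (Subgroup.inclusion h) := by
    by_cases hm : D.m = 3
    · obtain ⟨φ₂, hφ₂, hQ⟩ := exists_seq (Q := (ZMod 3)ˣ)
        (fun i j e => ∃ h : H (ψ₀ (φ₁ i)) ≤ H (ψ₀ (φ₁ j)),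
          PR (X (φ₁ i)) (X (φ₁ j)) (Subgroup.inclusion h) e)
        (by
          intro i j hij
          obtain ⟨h, hPE⟩ := hP i j hij
          obtain ⟨e, he⟩ := PR_exists (X (φ₁ i)) (X (φ₁ j)) (Subgroup.inclusion h) hn hm
            (Subgroup.inclusion_injective _) hPE
          exact ⟨e, h, he⟩)
        (by
          rintro i j k a b - - ⟨h, ha⟩ ⟨h', hb⟩
          refine ⟨h.trans h', ?_⟩
          rw [← hcompE _ _ _ h h']
          exact PR_comp (X (φ₁ i)) (X (φ₁ j)) (X (φ₁ k)) (Subgroup.inclusion h)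
            (Subgroup.inclusion h') hn hm
            (Subgroup.inclusion_injective _) (Subgroup.inclusion_injective _) a b ha hb)
      refine ⟨fun k => φ₁ (φ₂ k), hφ₁.comp hφ₂, fun k => ?_⟩
      obtain ⟨h, hR⟩ := hQ k (k + 1) (Nat.lt_succ_self k)
      exact ⟨h, functorial_of_PR _ _ _ hn hm (Subgroup.inclusion_injective _) hR⟩
    · refine ⟨φ₁, hφ₁, fun k => ?_⟩
      obtain ⟨h, hE⟩ := hP k (k + 1) (Nat.lt_succ_self k)
      exact ⟨h, functorial_of_PE _ _ _ hn hm (Subgroup.inclusion_injective _) hE⟩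
  obtain ⟨χ, hχ, hFF⟩ := key
  let ψ : ℕ → ℕ := fun k => ψ₀ (χ k)
  have hψ : StrictMono ψ := hψmono.comp hχ
  let Y : ∀ k, GD D tw (H (ψ k)) := fun k => X (χ k)
  have hle : ∀ k, H (ψ k) ≤ H (ψ (k + 1)) := fun k => hH (hψ (Nat.lt_succ_self k)).le
  have hFF' : ∀ k, FF (Y k) (Y (k + 1)) (Subgroup.inclusion (hle k)) := by
    intro k
    obtain ⟨h, hf⟩ := hFF k
    exact hf
  let St : ℕ → Type u := fun k => {f : EE D (Y k).K (Y k).θ →* H (ψ k) //
    Function.Surjective f ∧ f.ker ≤ Subgroup.center (EE D (Y k).K (Y k).θ) ∧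
    ∃ B ∈ NE D (Y k).θ, ∀ x, (Y k).p (f x) = B * pa C (Y k).K x * B⁻¹}
  have step : ∀ (k : ℕ) (T : St k), ∃ (φ : (Y k).K →+* (Y (k + 1)).K)
      (hφ : ∀ t, φ ((Y k).θ t) = (Y (k + 1)).θ (φ t)) (T' : St (k + 1)),
      ∀ x, Subgroup.inclusion (hle k) (T.1 x) =
        T'.1 (emap D (Y k).θ (Y (k + 1)).θ φ hφ x) := by
    intro k T
    obtain ⟨φ', hφ', f₂, s1, s2, s3, s4⟩ := stepE hn (Y k) (Y (k + 1))
      (Subgroup.inclusion (hle k)) (Subgroup.inclusion_injective _) (hFF' k) T.1 T.2.1 T.2.2.1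
      T.2.2.2
    exact ⟨φ', hφ', ⟨f₂, s1, s2, s3⟩, s4⟩
  choose Φ hΦ F hF using step
  let T0 : St 0 := ⟨(Y 0).f, (Y 0).surj, (Y 0).ker_le, 1, Subgroup.one_mem _, fun x => by
    rw [(Y 0).hp, one_mul, inv_one, mul_one]⟩
  let T : ∀ k : ℕ, St k := fun k => Nat.rec (motive := fun k => St k) T0 F k
  refine limitE (fun k => H (ψ k)) hle ?_ (fun k => (Y k).K) (fun k => (Y k).θ)
    (fun k => (Y k).kd) (fun k => Φ k (T k)) (fun k => hΦ k (T k)) (fun k => (T k).1)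
    (fun k => (T k).2.1) (fun k => (T k).2.2.1) (fun k x => hF k (T k) x)
  intro g
  obtain ⟨i, hi⟩ := hG g
  exact ⟨i, hH (hψ.id_le i) hi⟩

end Pool.Agent.H75.UL
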