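import Pool.Agent.H75.UE.E7
import Pool.Agent.H75.UE.E9

/-!
# Project UE, module M1a: the recursion step

`X₁' = {X₁ with f := f₁, p := cj X₁.p B}` (`p' y = B⁻¹ * X₁.p y * B`) is a `GD`. Claim:
`Psi X₁' X₂ ψ x = A' * mp φ (pa x) * A'⁻¹` with `A' = A * mp φ B ∈ NE D θ₂` (`NE_map`): by `NE_aut`
`B * pa x * B⁻¹ = pa (α x)`, so `X₁.p (f₁ x) = X₁.p (X₁.f (α x))`, so `f₁ x = X₁.f (α x) * z`, `z` central in
`G₁` (`center_iff`), and `X₂.p (ψ z) = 1` (`center_map`); so `X₂.p (ψ (f₁ x)) = Psi X₁ X₂ ψ (α x) =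
A * mp φ (pa (α x)) * A⁻¹ = A * mp φ (B * pa x * B⁻¹) * A⁻¹`. `chain_stepE` for `X₁'`, `X₂`, `A'`.
-/

set_option autoImplicit false
open Matrix
universe u
namespace Pool.Agent.H75.UL

open Pool.Agent.H86.UM

variable {n : ℕ} {C : SLC n} {D : Dg C} {tw : Bool}

theorem stepE (hn : 0 < n) {G₁ G₂ : Type u} [Group G₁] [Group G₂] (X₁ : GD D tw G₁)
    (X₂ : GD D tw G₂) (ψ : G₁ →* G₂) (hψ : Function.Injective ψ) (h : FF X₁ X₂ ψ)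
    (f₁ : EE D X₁.K X₁.θ →* G₁) (hf₁ : Function.Surjective f₁)
    (hk₁ : f₁.ker ≤ Subgroup.center (EE D X₁.K X₁.θ))
    (hB : ∃ B ∈ NE D X₁.θ, ∀ x, X₁.p (f₁ x) = B * pa C X₁.K x * B⁻¹) :
    ∃ (φ : X₁.K →+* X₂.K) (hφ : ∀ t, φ (X₁.θ t) = X₂.θ (φ t)) (f₂ : EE D X₂.K X₂.θ →* G₂),
      Function.Surjective f₂ ∧ f₂.ker ≤ Subgroup.center (EE D X₂.K X₂.θ) ∧
      (∃ B ∈ NE D X₂.θ, ∀ x, X₂.p (f₂ x) = B * pa C X₂.K x * B⁻¹) ∧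
      ∀ x, ψ (f₁ x) = f₂ (emap D X₁.θ X₂.θ φ hφ x) := by
  obtain ⟨B, hBm, hBp⟩ := hB
  obtain ⟨φ, A, hφ, hA, hPsi⟩ := h
  obtain ⟨α, hα⟩ := NE_aut X₁.θ B hBm
  have hcm : ∀ z ∈ Subgroup.center G₁, X₂.p (ψ z) = 1 := by
    intro z hz
    obtain ⟨y, hy⟩ := X₁.surj z
    refine X₁.cent X₂ ψ hn hψ (X₂.p (ψ z)) ?_ fun x => ?_
    · rw [← hy, ← GD.Psi_apply]
      exact X₁.Psi_Gad X₂ ψ y
    · rw [GD.Psi_apply, ← map_mul, ← map_mul, ← map_mul, ← map_mul,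
        Subgroup.mem_center_iff.mp hz (X₁.f x)]
  let X₁' : GD D tw G₁ :=
    { K := X₁.K
      fK := X₁.fK
      θ := X₁.θ
      kd := X₁.kd
      inf := X₁.inf
      f := f₁
      surj := hf₁
      ker_le := hk₁
      p := cj X₁.p B
      hp := fun x => by
        have h1 : cj X₁.p B (f₁ x) = B⁻¹ * X₁.p (f₁ x) * B := by
          change MulAut.conj B⁻¹ (X₁.p (f₁ x)) = _
          rw [MulAut.conj_apply, inv_inv]
        rw [h1, hBp x]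
        group }
  have hA' : A * C.mp φ B ∈ NE D X₂.θ := mul_mem hA (NE_map X₁.θ X₂.θ φ hφ B hBm)
  have hPsi' : ∀ x : EE D X₁.K X₁.θ, X₂.p (ψ (f₁ x)) =
      A * C.mp φ B * C.mp φ (pa C X₁.K x) * (A * C.mp φ B)⁻¹ := by
    intro x
    have h1 : X₁.p (f₁ x) = X₁.p (X₁.f (α x)) := by rw [hBp, X₁.hp, hα]
    have h2 : X₁.p ((X₁.f (α x))⁻¹ * f₁ x) = 1 := by
      rw [map_mul, map_inv, h1, inv_mul_cancel]
    have h3 := hcm _ ((X₁.center_iff hn _).mp h2)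
    have h4 : X₂.p (ψ (f₁ x)) = X₂.p (ψ (X₁.f (α x))) := by
      rw [map_mul, map_mul, map_inv, map_inv] at h3
      exact (inv_mul_eq_one.mp h3).symm
    have h5 := hPsi (α x)
    rw [GD.Psi_apply] at h5
    rw [h4, h5, hα, map_mul, map_mul, map_inv]
    group
  obtain ⟨f₂, hs, hk, hp₂, hc⟩ := chain_stepE hn X₁' X₂ ψ φ hφ (A * C.mp φ B) hA' hPsi'
  exact ⟨φ, hφ, f₂, hs, hk, ⟨_, hA', hp₂⟩, hc⟩

end Pool.Agent.H75.UL
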