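import Pool.Agent.H75.UE.M1
import Pool.Agent.H75.UL.C4

/-!
# Project UE, module M2: finitely many types of a given rank

`finite_D`: the types `(n, C, D)` with `Nat.card D.Orb = r` have `n ≤ 3 * r`: `Fin n` is the union of the
fibres of `Fin n → D.Orb`, each a cycle of `D.ρ`, with at most `orderOf D.ρ ≤ 3` elements
(`SameCycle x y` iff `y = (ρ ^ l) x` with `l < orderOf ρ`). `SLC n` is finite (`finite_types`), `Dg C` is
finite (determined by `ρ`). `main_all`: as `main_rank` in H75/UL/C4.lean, by pigeonhole on the finite type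
of all `(n, C, D, tw)`.
-/

set_option autoImplicit false
open Matrix
universe u
namespace Pool.Agent.H75.UL

/-- A type of rank `r`. -/
structure TT (r : ℕ) where
  n : ℕ
  C : SLC n
  D : Dg C
  tw : Bool
  pos : 0 < n
  rank : Nat.card D.Orb = r

private theorem M2_le (r : ℕ) (t : TT r) : t.n < 3 * r + 1 := by
  have hf : Finite t.D.Orb := inferInstance
  let f : t.D.Orb × Fin 3 → Fin t.n := fun p => (t.D.ρ ^ (p.2 : ℕ)) (Quotient.out p.1)
  have hs : Function.Surjective f := by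
    intro i
    have h1 : t.D.ρ.SameCycle (Quotient.out (Quotient.mk _ i : t.D.Orb)) i :=
      Quotient.exact (Quotient.out_eq (Quotient.mk _ i : t.D.Orb))
    obtain ⟨l, hl, h2⟩ := h1.exists_pow_eq'
    have hl3 : l < 3 := by
      have := t.D.ord
      omega
    exact ⟨(Quotient.mk _ i, ⟨l, hl3⟩), h2⟩
  have h1 := Nat.card_le_card_of_surjective f hs
  rw [Nat.card_prod, t.rank, Nat.card_fin, Nat.card_fin] at h1
  omega

private theorem M2_finite_Dg {n : ℕ} (C : SLC n) : Finite (Dg C) := by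
  refine Finite.of_injective (β := Equiv.Perm (Fin n)) (fun D => D.ρ) ?_
  intro D D' h
  cases D
  cases D'
  subst h
  rfl

theorem finite_TT (r : ℕ) : Finite (TT r) := by
  have h1 : ∀ m, Finite (SLC m) := finite_types
  have h2 : ∀ m (C : SLC m), Finite (Dg C) := fun m C => M2_finite_Dg C
  refine Finite.of_injective (β := Σ n : Fin (3 * r + 1), Σ C : SLC n, Dg C × Bool)
    (fun t => ⟨⟨t.n, M2_le r t⟩, t.C, t.D, t.tw⟩) ?_
  rintro ⟨n, C, D, tw, p, rk⟩ ⟨n', C', D', tw', p', rk'⟩ h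
  have h3 : n = n' := congrArg (fun x => (x.1 : ℕ)) h
  subst h3
  simp only [Sigma.mk.injEq, heq_eq_eq, true_and] at h
  obtain ⟨h4, h5⟩ := h
  subst h4
  simp only [heq_eq_eq, Prod.mk.injEq] at h5
  obtain ⟨h6, h7⟩ := h5
  subst h6
  subst h7
  rfl

theorem main_all (r : ℕ) (P : TT r → Prop) (G : Type u) [Group G] (H : ℕ → Subgroup G)
    (hH : Monotone H) (hG : ∀ g : G, ∃ i, g ∈ H i)
    (hA : ∀ m : ℕ, ∃ i, m ≤ i ∧ ∃ t : TT r, P t ∧ IsE t.D t.tw (H i))
    (hinf : ∃ i, Infinite (H i)) : ∃ t : TT r, P t ∧ IsE t.D t.tw G := by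
  have hfin := finite_TT r
  by_cases h : ∃ t : TT r, P t ∧ ∀ m : ℕ, ∃ i, m ≤ i ∧ IsE t.D t.tw (H i)
  · obtain ⟨t, ht, hC⟩ := h
    exact ⟨t, ht, main_D t.pos G H hH hG hC hinf⟩
  · exfalso
    have h' : ∀ t : TT r, ∃ m : ℕ, ∀ i, m ≤ i → P t → ¬ IsE t.D t.tw (H i) := by
      intro t
      by_cases hP : P t
      · by_contra hc
        apply h
        refine ⟨t, hP, fun m => ?_⟩
        by_contra hc'
        apply hc
        refine ⟨m, fun i hi _ hE => hc' ⟨i, hi, hE⟩⟩
      · exact ⟨0, fun _ _ hP' => absurd hP' hP⟩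
    choose m hm using h'
    obtain ⟨M, hM⟩ := (Set.finite_range m).bddAbove
    obtain ⟨i, hi, t, hP, hC⟩ := hA M
    exact hm t i ((hM ⟨t, rfl⟩).trans hi) hP hC

end Pool.Agent.H75.UL
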